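import Mathlib
import Pool.Agent.Lib.MP_bae66e_nt.Mg.G033

set_option autoImplicit false

namespace Pool.Agent.GM

open Complex Metric Set MeasureTheory

lemma A1_sum_bound (q : ℕ) [NeZero q] (χ : DirichletCharacter ℂ q) (hχ : χ ≠ 1) (N : ℕ) :
    ‖∑ k ∈ Finset.Icc 1 N, χ k‖ ≤ q := by
  have hM : ∑ a, χ a = 0 := MulChar.sum_eq_zero_of_ne_one hχ
  induction N using Nat.strong_induction_on with
  | _ N ih =>
    rcases lt_or_ge N q with h | h
    · refine (norm_sum_le _ _).trans ?_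
      calc ∑ k ∈ Finset.Icc 1 N, ‖χ k‖ ≤ ∑ _k ∈ Finset.Icc 1 N, (1 : ℝ) :=
            Finset.sum_le_sum fun a _ => χ.norm_le_one _
        _ = N := by simp
        _ ≤ q := by exact_mod_cast h.le
    · have hpos : 0 < q := Nat.pos_of_ne_zero (NeZero.ne q)
      have h1 := ih (N - q) (by omega)
      have h2 : ∑ k ∈ Finset.Icc 1 N, χ (k : ZMod q)
          = ∑ k ∈ Finset.Icc 1 (N - q), χ (k : ZMod q) + ∑ a, χ a := by
        rw [← MC.sum_period q (fun a => χ a) (N - q + 1)]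
        have h3 : Finset.Icc 1 N = Finset.Ico 1 (N + 1) := by
          ext x; simp only [Finset.mem_Icc, Finset.mem_Ico]; omega
        have h4 : Finset.Icc 1 (N - q) = Finset.Ico 1 (N - q + 1) := by
          ext x; simp only [Finset.mem_Icc, Finset.mem_Ico]; omega
        rw [h3, h4, show N - q + 1 + q = N + 1 by omega]
        rw [Finset.sum_Ico_consecutive _ (by omega) (by omega)]
      rw [h2, hM, add_zero]
      exact h1

/-- A1. Partial sums approximate the L-function.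
PROOF. `MC.FF_of_ne`, `MC.FF_eq_MT` (file `Lib/MP_9cfc0a_nt/An3.lean`):
`L(s, χ) = s ∫_1^∞ A(t) t^(-s-1) dt` with `A = MC.RC q χ = MC.SumC χ` (`MC.densC_eq_zero`),
`‖A(t)‖ ≤ 2 q + 1 ≤ 3 q` (`MC.RC_bound`). Abel summation (`sum_mul_eq_sub_integral_mul` and
relatives, `f t = t^(-s)`) gives `∑_{n ≤ Z} χ(n) n^(-s) = A(Z) Z^(-s) + s ∫_1^Z A(t) t^(-s-1) dt`.
Subtract: the difference is `s ∫_Z^∞ A(t) t^(-s-1) dt - A(Z) Z^(-s)`, of norm at most
`4 * 3 q * Z^(-re s) / re s + 3 q * Z^(-re s) ≤ 19 q Z^(-3/4)`. -/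
lemma L_partial (q : ℕ) [NeZero q] (χ : DirichletCharacter ℂ q) (hχ : χ ≠ 1) (s : ℂ) (Z : ℕ)
    (hZ : 1 ≤ Z) (hs : 3 / 4 ≤ s.re) (hs4 : ‖s‖ ≤ 4) :
    ‖χ.LFunction s - ∑ n ∈ Finset.Icc 1 Z, χ n * (n : ℂ) ^ (-s)‖
      ≤ 20 * q * (Z : ℝ) ^ (-(3 / 4) : ℝ) := by
  have hs0 : 0 < s.re := by linarith
  have hq0 : (0 : ℝ) ≤ q := Nat.cast_nonneg q
  have hZR : (1 : ℝ) ≤ Z := by exact_mod_cast hZ
  have hZ0 : (0 : ℝ) < Z := by linarith
  let c : ℕ → ℂ := fun n => if n ≤ Z then χ n else 0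
  have hCsum : ∀ n : ℕ, ∑ k ∈ Finset.Icc 1 n, c k = ∑ k ∈ Finset.Icc 1 (min n Z), χ k := by
    intro n
    have h1 : Finset.Icc 1 (min n Z) = (Finset.Icc 1 n).filter (fun k => k ≤ Z) := by
      ext x; simp only [Finset.mem_Icc, Finset.mem_filter]; omega
    rw [h1, Finset.sum_filter]
  have hCb : ∀ n : ℕ, ‖∑ k ∈ Finset.Icc 1 n, c k‖ ≤ q := by
    intro n
    rw [hCsum]
    exact A1_sum_bound q χ hχ _
  have hO : (fun n : ℕ => ∑ k ∈ Finset.Icc 1 n, c k) =O[Filter.atTop]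
      fun n : ℕ => (n : ℝ) ^ (0 : ℝ) := by
    refine Asymptotics.IsBigO.of_bound q (Filter.Eventually.of_forall fun n => ?_)
    rw [Real.rpow_zero, norm_one, mul_one]
    exact hCb n
  have hterm0 : ∀ n, n ∉ Finset.Icc 1 Z → LSeries.term c s n = 0 := by
    intro n hn
    rcases Nat.eq_zero_or_pos n with h0 | h0
    · rw [h0, LSeries.term_zero]
    · rw [LSeries.term_of_ne_zero h0.ne']
      have h1 : ¬ n ≤ Z := fun h => hn (Finset.mem_Icc.2 ⟨h0, h⟩)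
      simp only [c]
      rw [if_neg h1, zero_div]
  have hS : LSeriesSummable c s := summable_of_ne_finset_zero (s := Finset.Icc 1 Z) hterm0
  have hL : LSeries c s = ∑ n ∈ Finset.Icc 1 Z, χ n * (n : ℂ) ^ (-s) := by
    unfold LSeries
    rw [tsum_eq_sum (s := Finset.Icc 1 Z) hterm0]
    refine Finset.sum_congr rfl fun n hn => ?_
    have h0 := Finset.mem_Icc.1 hn
    rw [LSeries.term_of_ne_zero (by omega)]
    simp only [c]
    rw [if_pos h0.2, Complex.cpow_neg, div_eq_mul_inv]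
  have h1 := LSeries_eq_mul_integral c le_rfl hs0 hS hO
  have h2 : χ.LFunction s = s * MC.MT (MC.RC q χ) s := by
    rw [← MC.FF_of_ne q χ hχ, MC.FF_eq_MT q χ hχ s hs0]
  have hRC : ∀ t : ℝ, MC.RC q χ t = ∑ k ∈ Finset.Icc 1 ⌊t⌋₊, χ k := by
    intro t
    unfold MC.RC MC.SumC
    rw [MC.densC_eq_zero q χ hχ, zero_mul, sub_zero]
  have hR := MC.MT_integrable (MC.RC q χ) _ 0 (MC.RC_measurable q χ) (MC.RC_bound q χ) s hs0
  have hCmeas : Measurable (fun t : ℝ => ∑ k ∈ Finset.Icc 1 ⌊t⌋₊, c k) :=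
    (measurable_from_top (f := fun n : ℕ => ∑ k ∈ Finset.Icc 1 n, c k)).comp Nat.measurable_floor
  have hI := MC.MT_integrable (fun t : ℝ => ∑ k ∈ Finset.Icc 1 ⌊t⌋₊, c k) q 0 hCmeas
    (fun t _ => by rw [Real.rpow_zero, mul_one]; exact hCb _) s hs0
  have hdiff : χ.LFunction s - ∑ n ∈ Finset.Icc 1 Z, χ n * (n : ℂ) ^ (-s) =
      s * ∫ t in Ioi (1 : ℝ), (MC.RC q χ t - ∑ k ∈ Finset.Icc 1 ⌊t⌋₊, c k) * (t : ℂ) ^ (-(s + 1)) := by
    rw [h2, ← hL, h1, ← mul_sub, MC.MT, ← MeasureTheory.integral_sub hR hI]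
    congr 1
    refine MeasureTheory.integral_congr_ae (MeasureTheory.ae_of_all _ fun t => ?_)
    simp only
    ring
  have hbd : IntegrableOn (fun t : ℝ => (Ioi (Z : ℝ)).indicator
      (fun t => 2 * q * t ^ (-s.re - 1)) t) (Ioi 1) := by
    refine Integrable.indicator ?_ measurableSet_Ioi
    exact (integrableOn_Ioi_rpow_of_lt (by linarith) one_pos).const_mul _
  have hint : ‖∫ t in Ioi (1 : ℝ), (MC.RC q χ t - ∑ k ∈ Finset.Icc 1 ⌊t⌋₊, c k) *
      (t : ℂ) ^ (-(s + 1))‖ ≤ ∫ t in Ioi (1 : ℝ), (Ioi (Z : ℝ)).indicator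
      (fun t => 2 * q * t ^ (-s.re - 1)) t := by
    refine norm_integral_le_of_norm_le hbd ?_
    refine (ae_restrict_iff' measurableSet_Ioi).mpr (ae_of_all _ fun t ht => ?_)
    have ht1 : (1 : ℝ) < t := ht
    have ht0 : 0 < t := by linarith
    by_cases htZ : t ∈ Ioi (Z : ℝ)
    · rw [indicator_of_mem htZ, norm_mul, Complex.norm_cpow_eq_rpow_re_of_pos ht0]
      have h3 : (-(s + 1)).re = -s.re - 1 := by simp; ring
      rw [h3]
      refine mul_le_mul_of_nonneg_right ?_ (by positivity)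
      refine (norm_sub_le _ _).trans ?_
      rw [hRC]
      have h4 := A1_sum_bound q χ hχ ⌊t⌋₊
      have h5 := hCb ⌊t⌋₊
      linarith
    · rw [indicator_of_notMem htZ]
      have h3 : ⌊t⌋₊ ≤ Z := by
        have h4 : t ≤ Z := not_lt.1 htZ
        exact Nat.floor_le_of_le h4
      rw [hRC, hCsum, min_eq_left h3, sub_self, zero_mul, norm_zero]
  have hval : ∫ t in Ioi (1 : ℝ), (Ioi (Z : ℝ)).indicator (fun t => 2 * q * t ^ (-s.re - 1)) t =
      2 * q * ((Z : ℝ) ^ (-s.re) / s.re) := by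
    rw [setIntegral_indicator measurableSet_Ioi, Ioi_inter_Ioi, sup_eq_right.2 hZR,
      integral_const_mul, integral_Ioi_rpow_of_lt (by linarith) hZ0]
    have h3 : -s.re - 1 + 1 = -s.re := by ring
    rw [h3]
    field_simp
  rw [hdiff, norm_mul]
  have hZpow : (Z : ℝ) ^ (-s.re) ≤ (Z : ℝ) ^ (-(3 / 4) : ℝ) :=
    Real.rpow_le_rpow_of_exponent_le hZR (by linarith)
  have hZnn : 0 ≤ (Z : ℝ) ^ (-(3 / 4) : ℝ) := by positivity
  have hfrac : (Z : ℝ) ^ (-s.re) / s.re ≤ (4 / 3) * (Z : ℝ) ^ (-(3 / 4) : ℝ) := by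
    rw [div_le_iff₀ hs0]
    nlinarith
  calc ‖s‖ * ‖∫ t in Ioi (1 : ℝ), (MC.RC q χ t - ∑ k ∈ Finset.Icc 1 ⌊t⌋₊, c k) *
      (t : ℂ) ^ (-(s + 1))‖ ≤ 4 * (2 * q * ((4 / 3) * (Z : ℝ) ^ (-(3 / 4) : ℝ))) := by
        refine mul_le_mul hs4 ?_ (norm_nonneg _) (by norm_num)
        rw [hval] at hint
        refine hint.trans ?_
        exact mul_le_mul_of_nonneg_left hfrac (by positivity)
    _ ≤ 20 * q * (Z : ℝ) ^ (-(3 / 4) : ℝ) := by
        have h3 : 0 ≤ (q : ℝ) * (Z : ℝ) ^ (-(3 / 4) : ℝ) := mul_nonneg hq0 hZnn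
        nlinarith

end Pool.Agent.GM
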