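import Mathlib
import Pool.Agent.Lib.MP_bae66e_nt.Mg.G033

set_option autoImplicit false

namespace Pool.Agent.GM

open Complex Metric Set

/-- the coefficients of the product of `∑_{m ≤ Y} μ(m) m^(-s)` and `∑_{l ≤ Z} l^(-s)` -/
def bco (Y Z n : ℕ) : ℤ :=
  ∑ m ∈ n.divisors.filter (fun m => m ≤ Y ∧ n / m ≤ Z), ArithmeticFunction.moebius m

/-- A2a. PROOF. `|μ| ≤ 1` (`ArithmeticFunction.abs_moebius_le_one`). -/
lemma bco_abs_le (Y Z n : ℕ) : |bco Y Z n| ≤ n.divisors.card := by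
  unfold bco
  refine (Finset.abs_sum_le_sum_abs _ _).trans ?_
  refine (Finset.sum_le_sum (fun m _ => ArithmeticFunction.abs_moebius_le_one (n := m))).trans ?_
  rw [Finset.sum_const, nsmul_eq_mul, mul_one]
  exact_mod_cast Finset.card_filter_le _ _

/-- A2b. -/
lemma bco_one (Y Z : ℕ) (hY : 1 ≤ Y) (hZ : 1 ≤ Z) : bco Y Z 1 = 1 := by
  unfold bco
  rw [Nat.divisors_one, Finset.filter_singleton]
  simp [hY, hZ]

/-- A2c. PROOF. For `1 < n ≤ Y, Z` the filter keeps all divisors, and `∑_{m ∣ n} μ(m) = 0`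
(`ArithmeticFunction.coe_mul_zeta_apply`, `ArithmeticFunction.moebius_mul_coe_zeta`, or
`ArithmeticFunction.sum_eq_iff_sum_mul_moebius_eq`...). -/
lemma bco_eq_zero (Y Z n : ℕ) (h1 : 1 < n) (hY : n ≤ Y) (hZ : n ≤ Z) : bco Y Z n = 0 := by
  unfold bco
  rw [Finset.filter_true_of_mem]
  · rw [← ArithmeticFunction.coe_mul_zeta_apply, ArithmeticFunction.moebius_mul_coe_zeta,
      ArithmeticFunction.one_apply_ne (by omega)]
  · intro m hm
    exact ⟨(Nat.divisor_le hm).trans hY, (Nat.div_le_self n m).trans hZ⟩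

/-- A2d. PROOF. Expand the product over pairs `(m, l)` and group the pairs by `n = m l ≤ Y Z`
(`χ(m l) = χ(m) χ(l)`, `Complex.natCast_mul_natCast_cpow`). -/
lemma mul_partial (q : ℕ) (χ : DirichletCharacter ℂ q) (s : ℂ) (Y Z : ℕ) :
    (∑ m ∈ Finset.Icc 1 Y, (ArithmeticFunction.moebius m : ℂ) * χ m * (m : ℂ) ^ (-s))
      * (∑ l ∈ Finset.Icc 1 Z, χ l * (l : ℂ) ^ (-s))
      = ∑ n ∈ Finset.Icc 1 (Y * Z), (bco Y Z n : ℂ) * χ n * (n : ℂ) ^ (-s) := by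
  have hR : ∀ n ∈ Finset.Icc 1 (Y * Z), (bco Y Z n : ℂ) * χ n * (n : ℂ) ^ (-s)
      = ∑ m ∈ n.divisors.filter (fun m => m ≤ Y ∧ n / m ≤ Z),
        (ArithmeticFunction.moebius m : ℂ) * χ n * (n : ℂ) ^ (-s) := by
    intro n _
    unfold bco
    push_cast
    rw [Finset.sum_mul, Finset.sum_mul]
  rw [Finset.sum_congr rfl hR, Finset.sum_mul_sum, ← Finset.sum_product', Finset.sum_sigma']
  refine Finset.sum_bij' (fun x _ => (⟨x.1 * x.2, x.1⟩ : (_ : ℕ) × ℕ))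
    (fun y _ => (y.2, y.1 / y.2)) ?_ ?_ ?_ ?_ ?_
  · rintro ⟨m, l⟩ h
    rw [Finset.mem_product, Finset.mem_Icc, Finset.mem_Icc] at h
    obtain ⟨⟨hm1, hm2⟩, hl1, hl2⟩ := h
    simp only at hm1 hm2 hl1 hl2
    rw [Finset.mem_sigma, Finset.mem_Icc, Finset.mem_filter, Nat.mem_divisors]
    refine ⟨⟨Nat.mul_pos hm1 hl1, Nat.mul_le_mul hm2 hl2⟩, ⟨Dvd.intro _ rfl, ?_⟩, hm2, ?_⟩
    · exact (Nat.mul_pos hm1 hl1).ne'
    · show m * l / m ≤ Z
      rw [Nat.mul_div_cancel_left _ hm1]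
      exact hl2
  · rintro ⟨n, m⟩ h
    rw [Finset.mem_sigma, Finset.mem_Icc, Finset.mem_filter, Nat.mem_divisors] at h
    obtain ⟨⟨hn1, hn2⟩, ⟨hd, hn0⟩, hm, hl⟩ := h
    simp only at hn1 hn2 hd hn0 hm hl
    rw [Finset.mem_product, Finset.mem_Icc, Finset.mem_Icc]
    exact ⟨⟨Nat.pos_of_dvd_of_pos hd hn1, hm⟩, Nat.div_pos (Nat.le_of_dvd hn1 hd)
      (Nat.pos_of_dvd_of_pos hd hn1), hl⟩
  · rintro ⟨m, l⟩ h
    rw [Finset.mem_product, Finset.mem_Icc, Finset.mem_Icc] at h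
    obtain ⟨⟨hm1, hm2⟩, hl1, hl2⟩ := h
    simp only at hm1 hm2 hl1 hl2
    simp only [Prod.mk.injEq, true_and]
    exact Nat.mul_div_cancel_left _ hm1
  · rintro ⟨n, m⟩ h
    rw [Finset.mem_sigma, Finset.mem_Icc, Finset.mem_filter, Nat.mem_divisors] at h
    obtain ⟨⟨hn1, hn2⟩, ⟨hd, hn0⟩, hm, hl⟩ := h
    simp only at hn1 hn2 hd hn0 hm hl
    simp only [Nat.mul_div_cancel' hd]
  · rintro ⟨m, l⟩ h
    simp only
    rw [Nat.cast_mul, Nat.cast_mul, Complex.natCast_mul_natCast_cpow, map_mul]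
    ring

/-- the part of the mollified sum beyond `q ^ 2` -/
noncomputable def GG (q : ℕ) (χ : DirichletCharacter ℂ q) (s : ℂ) : ℂ :=
  ∑ n ∈ Finset.Ioc (q ^ 2) (q ^ 5), (bco (q ^ 2) (q ^ 3) n : ℂ) * (n : ℂ) ^ (-s) * χ n

end Pool.Agent.GM
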