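import Mathlib
import Pool.Agent.Lib.MP_bae66e_nt.GM.A1
import Pool.Agent.Lib.MP_bae66e_nt.GM.A2

set_option autoImplicit false

namespace Pool.Agent.GM

open Complex Metric Set

lemma A3_sum (Y : ℕ) : ∑ m ∈ Finset.Icc 1 Y, (m : ℝ) ^ (-(1 / 2) : ℝ) ≤ 2 * Real.sqrt Y := by
  induction Y with
  | zero => simp
  | succ Y ih =>
    rw [Finset.sum_Icc_succ_top (by omega)]
    have hY : (0 : ℝ) ≤ Y := Nat.cast_nonneg Y
    have h1 : ((Y + 1 : ℕ) : ℝ) ^ (-(1 / 2) : ℝ) = 1 / Real.sqrt ((Y + 1 : ℕ) : ℝ) := by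
      rw [Real.rpow_neg (Nat.cast_nonneg _), ← Real.sqrt_eq_rpow, one_div]
    rw [h1]
    push_cast
    have ha := Real.sqrt_nonneg (Y : ℝ)
    have hb : 0 < Real.sqrt ((Y : ℝ) + 1) := Real.sqrt_pos.2 (by linarith)
    have hsa := Real.sq_sqrt hY
    have hsb := Real.sq_sqrt (show (0 : ℝ) ≤ (Y : ℝ) + 1 by linarith)
    have h2 : 2 * Real.sqrt (Y : ℝ) + 1 / Real.sqrt ((Y : ℝ) + 1) ≤
        2 * Real.sqrt ((Y : ℝ) + 1) := by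
      rw [← sub_nonneg]
      have h3 : 2 * Real.sqrt ((Y : ℝ) + 1) - (2 * Real.sqrt (Y : ℝ) + 1 / Real.sqrt ((Y : ℝ) + 1))
          = (Real.sqrt ((Y : ℝ) + 1) - Real.sqrt (Y : ℝ)) ^ 2 / Real.sqrt ((Y : ℝ) + 1) := by
        field_simp
        nlinarith
      rw [h3]
      positivity
    linarith

lemma A3_pow (q : ℕ) (hq : 80 ^ 4 ≤ q) :
    (q : ℝ) * q * ((q ^ 3 : ℕ) : ℝ) ^ (-(3 / 4) : ℝ) ≤ 1 / 80 := by
  have hqR : (80 : ℝ) ^ 4 ≤ q := by exact_mod_cast hq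
  have hq0 : (0 : ℝ) < q := by linarith [show (0 : ℝ) < 80 ^ 4 by norm_num]
  have h1 : (q : ℝ) * q * ((q ^ 3 : ℕ) : ℝ) ^ (-(3 / 4) : ℝ) = (q : ℝ) ^ (-(1 / 4) : ℝ) := by
    rw [Nat.cast_pow, ← Real.rpow_natCast (q : ℝ) 3, ← Real.rpow_mul hq0.le]
    nth_rewrite 1 [← Real.rpow_one (q : ℝ)]
    nth_rewrite 2 [← Real.rpow_one (q : ℝ)]
    rw [← Real.rpow_add hq0, ← Real.rpow_add hq0]
    norm_num
  rw [h1]
  have h2 : (q : ℝ) ^ (-(1 / 4) : ℝ) ≤ ((80 : ℝ) ^ 4) ^ (-(1 / 4) : ℝ) :=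
    Real.rpow_le_rpow_of_nonpos (by norm_num) hqR (by norm_num)
  refine h2.trans (le_of_eq ?_)
  rw [← Real.rpow_natCast (80 : ℝ) 4, ← Real.rpow_mul (by norm_num)]
  norm_num

lemma A3_first (q : ℕ) [NeZero q] (χ : DirichletCharacter ℂ q) (ρ : ℂ) (hρ : 9 / 10 ≤ ρ.re)
    (Y : ℕ) : ‖∑ m ∈ Finset.Icc 1 Y, (ArithmeticFunction.moebius m : ℂ) * χ m * (m : ℂ) ^ (-ρ)‖
      ≤ 2 * Real.sqrt Y := by
  refine (norm_sum_le _ _).trans (le_trans ?_ (A3_sum Y))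
  refine Finset.sum_le_sum fun m hm => ?_
  have hm1 := (Finset.mem_Icc.1 hm).1
  have hmR : (1 : ℝ) ≤ m := by exact_mod_cast hm1
  rw [norm_mul, norm_mul, Complex.norm_natCast_cpow_of_pos (by omega), Complex.neg_re]
  have h1 : ‖(ArithmeticFunction.moebius m : ℂ)‖ ≤ 1 := by
    rw [Complex.norm_intCast]
    exact_mod_cast ArithmeticFunction.abs_moebius_le_one
  have h2 : ‖χ m‖ ≤ 1 := χ.norm_le_one _
  have h3 : (m : ℝ) ^ (-ρ.re) ≤ (m : ℝ) ^ (-(1 / 2) : ℝ) :=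
    Real.rpow_le_rpow_of_exponent_le hmR (by linarith)
  calc ‖(ArithmeticFunction.moebius m : ℂ)‖ * ‖χ m‖ * (m : ℝ) ^ (-ρ.re) ≤
        1 * 1 * (m : ℝ) ^ (-(1 / 2) : ℝ) := by
        gcongr
    _ = _ := by ring

/-- A3. At a zero near `1` the sum `GG` is large.
PROOF. `Y = q^2`, `Z = q^3`. By `L_partial`,
`‖∑_{l ≤ Z} χ(l) l^(-ρ)‖ ≤ 20 q * q^(-9/4)`, and
`‖∑_{m ≤ Y} μ(m) χ(m) m^(-ρ)‖ ≤ ∑_{m ≤ Y} m^(-9/10) ≤ 10 Y^(1/10) = 10 q^(1/5)`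
(crude bounds such as `∑_{m ≤ Y} m^(-9/10) ≤ 1 + ∫_1^Y t^(-9/10) dt` are enough; one may also use
`m^(-9/10) ≤ 10 (m^(1/10) - (m-1)^(1/10))`). The product of the two sums is at most
`200 q^(1 - 9/4 + 1/5) = 200 q^(-21/20)`, less than `1/2` for `q ≥ q₀`. By `mul_partial` and
`bco_one`, `bco_eq_zero` it equals `1 + GG q χ ρ` (the terms `1 < n ≤ q^2` vanish). -/
lemma GG_large : ∃ q₀ : ℕ, ∀ (q : ℕ) [NeZero q] (χ : DirichletCharacter ℂ q), q₀ ≤ q → χ ≠ 1 →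
    ∀ ρ : ℂ, χ.LFunction ρ = 0 → 9 / 10 ≤ ρ.re → ‖ρ‖ ≤ 4 → 1 / 2 ≤ ‖GG q χ ρ‖ := by
  refine ⟨80 ^ 4, ?_⟩
  intro q _ χ hq hχ ρ hL hρ hρ4
  have hq1 : 1 ≤ q := le_trans (by norm_num) hq
  have hY : 1 ≤ q ^ 2 := Nat.one_le_pow _ _ hq1
  have hZ : 1 ≤ q ^ 3 := Nat.one_le_pow _ _ hq1
  have h23 : q ^ 2 ≤ q ^ 3 := Nat.pow_le_pow_right hq1 (by norm_num)
  have h25 : q ^ 2 ≤ q ^ 5 := Nat.pow_le_pow_right hq1 (by norm_num)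
  have hP1 := A3_first q χ ρ hρ (q ^ 2)
  have hP2 := L_partial q χ hχ ρ (q ^ 3) hZ (by linarith) hρ4
  rw [hL, zero_sub, norm_neg] at hP2
  have hmul := mul_partial q χ ρ (q ^ 2) (q ^ 3)
  have hYZ : q ^ 2 * q ^ 3 = q ^ 5 := by rw [← pow_add]
  rw [hYZ] at hmul
  have hsplit : ∑ n ∈ Finset.Icc 1 (q ^ 5), (bco (q ^ 2) (q ^ 3) n : ℂ) * χ n * (n : ℂ) ^ (-ρ) =
      1 + GG q χ ρ := by
    have hset : Finset.Icc 1 (q ^ 5) = Finset.Icc 1 (q ^ 2) ∪ Finset.Ioc (q ^ 2) (q ^ 5) := by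
      ext x; simp only [Finset.mem_Icc, Finset.mem_union, Finset.mem_Ioc]; omega
    have hdisj : Disjoint (Finset.Icc 1 (q ^ 2)) (Finset.Ioc (q ^ 2) (q ^ 5)) := by
      rw [Finset.disjoint_left]
      intro x hx hx'
      rw [Finset.mem_Icc] at hx
      rw [Finset.mem_Ioc] at hx'
      omega
    rw [hset, Finset.sum_union hdisj]
    congr 1
    · rw [Finset.sum_eq_single 1]
      · rw [bco_one _ _ hY hZ]
        simp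
      · intro n hn hn1
        have h1 := Finset.mem_Icc.1 hn
        rw [bco_eq_zero (q ^ 2) (q ^ 3) n (by omega) h1.2 (h1.2.trans h23)]
        simp
      · intro h
        exact absurd (Finset.mem_Icc.2 ⟨le_rfl, hY⟩) h
    · unfold GG
      refine Finset.sum_congr rfl fun n _ => ?_
      ring
  rw [hsplit] at hmul
  have hnorm : ‖1 + GG q χ ρ‖ ≤ 1 / 2 := by
    rw [← hmul, norm_mul]
    have hs : Real.sqrt ((q ^ 2 : ℕ) : ℝ) = q := by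
      rw [Nat.cast_pow, Real.sqrt_sq (Nat.cast_nonneg q)]
    rw [hs] at hP1
    have h3 := A3_pow q hq
    calc _ ≤ 2 * (q : ℝ) * (20 * q * ((q ^ 3 : ℕ) : ℝ) ^ (-(3 / 4) : ℝ)) :=
          mul_le_mul hP1 hP2 (norm_nonneg _) (by positivity)
      _ = 40 * ((q : ℝ) * q * ((q ^ 3 : ℕ) : ℝ) ^ (-(3 / 4) : ℝ)) := by ring
      _ ≤ 40 * (1 / 80) := mul_le_mul_of_nonneg_left h3 (by norm_num)
      _ = 1 / 2 := by norm_num
  have h4 : ‖(1 : ℂ)‖ ≤ ‖1 + GG q χ ρ‖ + ‖GG q χ ρ‖ := by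
    calc ‖(1 : ℂ)‖ = ‖(1 + GG q χ ρ) - GG q χ ρ‖ := by rw [add_sub_cancel_right]
      _ ≤ _ := norm_sub_le _ _
  rw [norm_one] at h4
  linarith

end Pool.Agent.GM
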