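import Mathlib
import Pool.Agent.Lib.MP_bae66e_nt.Mg.G033

set_option autoImplicit false

namespace Pool.Agent.GM

open Complex Metric Set MeasureTheory

/-- A4. Value at a point by the mean square on a circle.
PROOF. Cauchy's formula for `f ^ 2` (`Complex.two_pi_I_inv_smul_circleIntegral_sub_inv_smul_of_differentiable_on_off_countable`
or `DiffContOnCl.two_pi_i_inv_smul_circleIntegral_sub_inv_smul`):
`f(w)^2 = (2π i)⁻¹ ∮_{|z - c| = R} f(z)^2 / (z - w) dz`; on the circle `‖z - w‖ ≥ R - ‖w - c‖ ≥ δ`;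
`circleIntegral` is `∫_0^{2π} (R i e^{iθ}) f(..)^2/(..) dθ`. -/
lemma circle_bound (f : ℂ → ℂ) (hf : Differentiable ℂ f) (c w : ℂ) (R δ : ℝ) (hδ : 0 < δ)
    (hR : 0 < R) (hw : ‖w - c‖ ≤ R - δ) :
    ‖f w‖ ^ 2 ≤ R / (2 * Real.pi * δ)
      * ∫ θ in (0 : ℝ)..(2 * Real.pi), ‖f (circleMap c R θ)‖ ^ 2 := by
  have hwb : w ∈ ball c R := by
    rw [mem_ball, dist_eq_norm]
    linarith
  have hd : DiffContOnCl ℂ (fun z => f z ^ 2) (ball c R) := (hf.pow 2).diffContOnCl
  have h1 := hd.two_pi_i_inv_smul_circleIntegral_sub_inv_smul hwb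
  have hcont : Continuous fun θ : ℝ => ‖f (circleMap c R θ)‖ ^ 2 :=
    ((hf.continuous.comp (continuous_circleMap c R)).norm).pow 2
  have h2 : ‖∮ z in C(c, R), (z - w)⁻¹ • f z ^ 2‖ ≤
      ∫ θ in (0 : ℝ)..(2 * Real.pi), R / δ * ‖f (circleMap c R θ)‖ ^ 2 := by
    rw [circleIntegral]
    refine intervalIntegral.norm_integral_le_of_norm_le (by positivity) ?_
      ((hcont.const_smul (R / δ)).intervalIntegrable _ _)
    refine ae_of_all _ fun θ _ => ?_
    have h3 : δ ≤ ‖circleMap c R θ - w‖ := by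
      have h4 : ‖circleMap c R θ - c‖ = R := by
        rw [circleMap_sub_center, norm_circleMap_zero, abs_of_pos hR]
      have h5 : ‖circleMap c R θ - c‖ ≤ ‖circleMap c R θ - w‖ + ‖w - c‖ := by
        have h6 : circleMap c R θ - c = (circleMap c R θ - w) + (w - c) := by ring
        rw [h6]
        exact norm_add_le _ _
      linarith
    rw [norm_smul, norm_smul, norm_inv, norm_pow, deriv_circleMap, norm_mul, norm_circleMap_zero,
      Complex.norm_I, mul_one, abs_of_pos hR, ← mul_assoc, div_eq_mul_inv]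
    refine mul_le_mul_of_nonneg_right ?_ (by positivity)
    exact mul_le_mul_of_nonneg_left (inv_anti₀ hδ h3) hR.le
  rw [intervalIntegral.integral_const_mul] at h2
  have h3 : ‖f w‖ ^ 2 = (2 * Real.pi)⁻¹ * ‖∮ z in C(c, R), (z - w)⁻¹ • f z ^ 2‖ := by
    rw [← norm_pow, ← h1, norm_smul, norm_inv, norm_mul, norm_mul, Complex.norm_I, mul_one,
      Complex.norm_two, Complex.norm_real, Real.norm_eq_abs, abs_of_pos Real.pi_pos]
  rw [h3]
  have hpi := Real.pi_pos
  calc (2 * Real.pi)⁻¹ * ‖∮ z in C(c, R), (z - w)⁻¹ • f z ^ 2‖ ≤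
        (2 * Real.pi)⁻¹ * (R / δ * ∫ θ in (0 : ℝ)..(2 * Real.pi), ‖f (circleMap c R θ)‖ ^ 2) :=
        mul_le_mul_of_nonneg_left h2 (by positivity)
    _ = _ := by
        field_simp

end Pool.Agent.GM
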