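import Mathlib
import Pool.Agent.Lib.MP_9cfc0a_nt.EMChars
import Pool.Agent.Lib.MP_bae66e_nt.Mg.G033

set_option autoImplicit false

namespace Pool.Agent.GM

open Complex Metric Set

lemma A5_orth (q : ℕ) [NeZero q] (w : ZMod q → ℂ) (hw : ∀ b, ¬ IsUnit b → w b = 0) :
    ∑ χ : DirichletCharacter ℂ q, ‖∑ b, χ b * w b‖ ^ 2 =
      (Nat.totient q : ℝ) * ∑ b, ‖w b‖ ^ 2 := by
  have key : ((∑ χ : DirichletCharacter ℂ q, ‖∑ b, χ b * w b‖ ^ 2 : ℝ) : ℂ) =
      (((Nat.totient q : ℝ) * ∑ b, ‖w b‖ ^ 2 : ℝ) : ℂ) := by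
    push_cast
    have h1 : ∀ χ : DirichletCharacter ℂ q, ((‖∑ b, χ b * w b‖ : ℝ) : ℂ) ^ 2 =
        ∑ c, ∑ b, (starRingEnd ℂ (w c) * w b) * (χ c⁻¹ * χ b) := by
      intro χ
      rw [← Complex.conj_mul', map_sum, Finset.sum_mul]
      apply Finset.sum_congr rfl
      intro c _
      rw [Finset.mul_sum]
      apply Finset.sum_congr rfl
      intro b _
      by_cases hc : IsUnit c
      · have h2 := EM.X1_star q χ c hc
        rw [RCLike.star_def] at h2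
        rw [map_mul, h2]
        ring
      · rw [hw c hc]
        simp
    rw [Finset.sum_congr rfl (fun χ _ => h1 χ), Finset.sum_comm, Finset.mul_sum]
    apply Finset.sum_congr rfl
    intro c _
    rw [Finset.sum_comm]
    by_cases hc : IsUnit c
    · have h3 : ∀ b, ∑ χ : DirichletCharacter ℂ q, (starRingEnd ℂ (w c) * w b) * (χ c⁻¹ * χ b) =
          if c = b then (starRingEnd ℂ (w c) * w b) * (Nat.totient q : ℂ) else 0 := by
        intro b
        rw [← Finset.mul_sum, DirichletCharacter.sum_char_inv_mul_char_eq ℂ hc b]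
        split_ifs <;> simp
      rw [Finset.sum_congr rfl (fun b _ => h3 b), Finset.sum_ite_eq]
      simp only [Finset.mem_univ, if_true]
      rw [Complex.conj_mul']
      ring
    · rw [hw c hc]
      simp
  exact_mod_cast key

lemma A5_class (q : ℕ) [NeZero q] (N : ℕ) (b : ZMod q) :
    ∑ n ∈ (Finset.Ioc q N).filter (fun n : ℕ => (n : ZMod q) = b), (1 : ℝ) / n ≤
      (1 + Real.log N) / q := by
  classical
  have hq : 0 < q := Nat.pos_of_ne_zero (NeZero.ne q)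
  have hqR : (0 : ℝ) < q := by exact_mod_cast hq
  set T := (Finset.Ioc q N).filter (fun n : ℕ => (n : ZMod q) = b) with hT
  have hinj : Set.InjOn (fun n : ℕ => n / q) T := by
    intro n hn m hm h
    simp only at h
    have h1 := (Finset.mem_filter.1 hn).2
    have h2 := (Finset.mem_filter.1 hm).2
    have h3 : n % q = m % q := (ZMod.natCast_eq_natCast_iff' n m q).1 (h1.trans h2.symm)
    rw [← Nat.div_add_mod n q, ← Nat.div_add_mod m q, h, h3]
  have h1 : ∑ n ∈ T, (1 : ℝ) / n ≤ ∑ n ∈ T, (1 : ℝ) / q * (((n / q : ℕ) : ℝ))⁻¹ := by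
    refine Finset.sum_le_sum fun n hn => ?_
    have hn1 := Finset.mem_Ioc.1 (Finset.mem_filter.1 hn).1
    have hj : 1 ≤ n / q := (Nat.one_le_div_iff hq).2 hn1.1.le
    have hjR : (0 : ℝ) < ((n / q : ℕ) : ℝ) := by exact_mod_cast hj
    have h2 : (q : ℝ) * ((n / q : ℕ) : ℝ) ≤ n := by exact_mod_cast Nat.mul_div_le n q
    rw [← one_div, div_mul_div_comm, one_mul]
    exact one_div_le_one_div_of_le (by positivity) h2
  have h2 : ∑ n ∈ T, (1 : ℝ) / q * (((n / q : ℕ) : ℝ))⁻¹ =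
      ∑ j ∈ T.image (fun n : ℕ => n / q), (1 : ℝ) / q * ((j : ℝ))⁻¹ := by
    rw [Finset.sum_image hinj]
  have h3 : T.image (fun n : ℕ => n / q) ⊆ Finset.Icc 1 N := by
    intro j hj
    obtain ⟨n, hn, rfl⟩ := Finset.mem_image.1 hj
    have hn1 := Finset.mem_Ioc.1 (Finset.mem_filter.1 hn).1
    exact Finset.mem_Icc.2 ⟨(Nat.one_le_div_iff hq).2 hn1.1.le, (Nat.div_le_self n q).trans hn1.2⟩
  have h4 : ∑ j ∈ T.image (fun n : ℕ => n / q), (1 : ℝ) / q * ((j : ℝ))⁻¹ ≤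
      ∑ j ∈ Finset.Icc 1 N, (1 : ℝ) / q * ((j : ℝ))⁻¹ :=
    Finset.sum_le_sum_of_subset_of_nonneg h3 fun _ _ _ => by positivity
  have h5 : ∑ j ∈ Finset.Icc 1 N, ((j : ℝ))⁻¹ ≤ 1 + Real.log N := by
    have h6 := harmonic_le_one_add_log N
    rw [harmonic_eq_sum_Icc] at h6
    push_cast at h6
    exact h6
  calc ∑ n ∈ T, (1 : ℝ) / n ≤ ∑ n ∈ T, (1 : ℝ) / q * (((n / q : ℕ) : ℝ))⁻¹ := h1
    _ = ∑ j ∈ T.image (fun n : ℕ => n / q), (1 : ℝ) / q * ((j : ℝ))⁻¹ := h2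
    _ ≤ ∑ j ∈ Finset.Icc 1 N, (1 : ℝ) / q * ((j : ℝ))⁻¹ := h4
    _ = (1 : ℝ) / q * ∑ j ∈ Finset.Icc 1 N, ((j : ℝ))⁻¹ := by rw [Finset.mul_sum]
    _ ≤ (1 : ℝ) / q * (1 + Real.log N) := mul_le_mul_of_nonneg_left h5 (by positivity)
    _ = _ := by ring

/-- A5. Mean square over the characters of one modulus.
PROOF. By orthogonality (`Pool.Agent.EM.X1_star`, or
`DirichletCharacter.sum_char_inv_mul_char_eq`; see the proofs of `EM.variance_all`
and `EM.X1_orth` in `Lib/MP_9cfc0a_nt`) the left side is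
`φ(q) ∑_{c unit mod q} ‖∑_{n ≡ c} a n‖ ^ 2`. By Cauchy-Schwarz
`‖∑_{n ≡ c} a n‖ ^ 2 ≤ (∑_{n ≡ c, q < n ≤ N} 1/n) (∑_{n ≡ c} n ‖a n‖ ^ 2)`, and
`∑_{n ≡ c, q < n ≤ N} 1/n ≤ ∑_{1 ≤ j ≤ N / q} 1/(j q) ≤ (1 + log N)/q` (write `n = c₀ + j q` with
`c₀ < q`, so `j ≥ 1` and `j q ≤ n`; `harmonic_le_one_add_log`). Finally `φ(q) ≤ q`. -/
lemma mean_square (q : ℕ) [NeZero q] (N : ℕ) (a : ℕ → ℂ) :
    ∑ χ : DirichletCharacter ℂ q, ‖∑ n ∈ Finset.Ioc q N, a n * χ n‖ ^ 2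
      ≤ (1 + Real.log N) * ∑ n ∈ Finset.Ioc q N, (n : ℝ) * ‖a n‖ ^ 2 := by
  classical
  have hq : 0 < q := Nat.pos_of_ne_zero (NeZero.ne q)
  have hqR : (0 : ℝ) < q := by exact_mod_cast hq
  let w : ZMod q → ℂ := fun b => if IsUnit b then
    ∑ n ∈ (Finset.Ioc q N).filter (fun n : ℕ => (n : ZMod q) = b), a n else 0
  have hw : ∀ b, ¬ IsUnit b → w b = 0 := fun b hb => by simp only [w]; rw [if_neg hb]
  have hrew : ∀ χ : DirichletCharacter ℂ q, ∑ n ∈ Finset.Ioc q N, a n * χ n = ∑ b, χ b * w b := by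
    intro χ
    rw [← Finset.sum_fiberwise (Finset.Ioc q N) (fun n : ℕ => (n : ZMod q))]
    refine Finset.sum_congr rfl fun b _ => ?_
    by_cases hb : IsUnit b
    · simp only [w]
      rw [if_pos hb, Finset.mul_sum]
      refine Finset.sum_congr rfl fun n hn => ?_
      rw [(Finset.mem_filter.1 hn).2, mul_comm]
    · rw [hw b hb, mul_zero]
      refine Finset.sum_eq_zero fun n hn => ?_
      rw [(Finset.mem_filter.1 hn).2, MulChar.map_nonunit χ hb, mul_zero]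
  have hwb : ∀ b, ‖w b‖ ^ 2 ≤ (1 + Real.log N) / q *
      ∑ n ∈ (Finset.Ioc q N).filter (fun n : ℕ => (n : ZMod q) = b), (n : ℝ) * ‖a n‖ ^ 2 := by
    intro b
    have hlog : 0 ≤ (1 + Real.log N) / q :=
      div_nonneg (add_nonneg zero_le_one (Real.log_natCast_nonneg N)) hqR.le
    have hsum0 : 0 ≤ ∑ n ∈ (Finset.Ioc q N).filter (fun n : ℕ => (n : ZMod q) = b),
        (n : ℝ) * ‖a n‖ ^ 2 := Finset.sum_nonneg fun n _ => by positivity
    by_cases hb : IsUnit b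
    · have h1 : ‖w b‖ ≤ ∑ n ∈ (Finset.Ioc q N).filter (fun n : ℕ => (n : ZMod q) = b), ‖a n‖ := by
        simp only [w]
        rw [if_pos hb]
        exact norm_sum_le _ _
      have h2 : (∑ n ∈ (Finset.Ioc q N).filter (fun n : ℕ => (n : ZMod q) = b), ‖a n‖) ^ 2 ≤
          (∑ n ∈ (Finset.Ioc q N).filter (fun n : ℕ => (n : ZMod q) = b), (1 : ℝ) / n) *
            ∑ n ∈ (Finset.Ioc q N).filter (fun n : ℕ => (n : ZMod q) = b),
              (n : ℝ) * ‖a n‖ ^ 2 := by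
        refine Finset.sum_sq_le_sum_mul_sum_of_sq_eq_mul _ (fun n _ => by positivity)
          (fun n _ => by positivity) fun n hn => ?_
        have hn1 := Finset.mem_Ioc.1 (Finset.mem_filter.1 hn).1
        have hn0 : (n : ℝ) ≠ 0 := by
          have : 0 < n := by omega
          exact_mod_cast this.ne'
        field_simp
      calc ‖w b‖ ^ 2 ≤ (∑ n ∈ (Finset.Ioc q N).filter (fun n : ℕ => (n : ZMod q) = b), ‖a n‖) ^ 2 :=
            pow_le_pow_left₀ (norm_nonneg _) h1 2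
        _ ≤ _ := h2
        _ ≤ _ := mul_le_mul_of_nonneg_right (A5_class q N b) hsum0
    · rw [hw b hb, norm_zero]
      have := mul_nonneg hlog hsum0
      simpa using this
  calc ∑ χ : DirichletCharacter ℂ q, ‖∑ n ∈ Finset.Ioc q N, a n * χ n‖ ^ 2 =
        ∑ χ : DirichletCharacter ℂ q, ‖∑ b, χ b * w b‖ ^ 2 := by
        refine Finset.sum_congr rfl fun χ _ => ?_
        rw [hrew]
    _ = (Nat.totient q : ℝ) * ∑ b, ‖w b‖ ^ 2 := A5_orth q w hw
    _ ≤ q * ∑ b, ‖w b‖ ^ 2 :=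
        mul_le_mul_of_nonneg_right (by exact_mod_cast Nat.totient_le q)
          (Finset.sum_nonneg fun b _ => by positivity)
    _ ≤ q * ∑ b, (1 + Real.log N) / q *
        ∑ n ∈ (Finset.Ioc q N).filter (fun n : ℕ => (n : ZMod q) = b), (n : ℝ) * ‖a n‖ ^ 2 :=
        mul_le_mul_of_nonneg_left (Finset.sum_le_sum fun b _ => hwb b) hqR.le
    _ = (1 + Real.log N) * ∑ b : ZMod q,
        ∑ n ∈ (Finset.Ioc q N).filter (fun n : ℕ => (n : ZMod q) = b), (n : ℝ) * ‖a n‖ ^ 2 := by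
        rw [← Finset.mul_sum]
        field_simp
    _ = _ := by
        rw [Finset.sum_fiberwise]

end Pool.Agent.GM
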