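import Mathlib
import Pool.Agent.Lib.MP_bae66e_nt.Mg.G033

set_option autoImplicit false

namespace Pool.Agent.GM

open Complex Metric Set

private lemma a6_nat (n d e : ℕ) (hn : 0 < n) (hd : d ∣ n) (he : e ∣ n) :
    0 < Nat.gcd d e ∧ 0 < d / Nat.gcd d e ∧ 0 < e / Nat.gcd d e ∧ 0 < n / Nat.lcm d e ∧
      d = Nat.gcd d e * (d / Nat.gcd d e) ∧ e = Nat.gcd d e * (e / Nat.gcd d e) ∧
      n = Nat.gcd d e * ((d / Nat.gcd d e) * ((e / Nat.gcd d e) * (n / Nat.lcm d e))) := by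
  have hd0 : 0 < d := Nat.pos_of_dvd_of_pos hd hn
  have he0 : 0 < e := Nat.pos_of_dvd_of_pos he hn
  have hg0 : 0 < Nat.gcd d e := Nat.gcd_pos_of_pos_left _ hd0
  have hgd := Nat.gcd_dvd_left d e
  have hge := Nat.gcd_dvd_right d e
  have hl : Nat.lcm d e ∣ n := Nat.lcm_dvd hd he
  have hl0 : 0 < Nat.lcm d e := Nat.lcm_pos hd0 he0
  have h1 : Nat.gcd d e * (d / Nat.gcd d e) = d := Nat.mul_div_cancel' hgd
  have h2 : Nat.gcd d e * (e / Nat.gcd d e) = e := Nat.mul_div_cancel' hge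
  have h3 : Nat.lcm d e * (n / Nat.lcm d e) = n := Nat.mul_div_cancel' hl
  have h4 : Nat.gcd d e * ((d / Nat.gcd d e) * (e / Nat.gcd d e)) = Nat.lcm d e := by
    apply Nat.eq_of_mul_eq_mul_left hg0
    rw [Nat.gcd_mul_lcm]
    calc _ = (Nat.gcd d e * (d / Nat.gcd d e)) * (Nat.gcd d e * (e / Nat.gcd d e)) := by ring
      _ = d * e := by rw [h1, h2]
  refine ⟨hg0, Nat.div_pos (Nat.le_of_dvd hd0 hgd) hg0, Nat.div_pos (Nat.le_of_dvd he0 hge) hg0,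
    Nat.div_pos (Nat.le_of_dvd hn hl) hl0, h1.symm, h2.symm, ?_⟩
  calc n = Nat.lcm d e * (n / Nat.lcm d e) := h3.symm
    _ = (Nat.gcd d e * ((d / Nat.gcd d e) * (e / Nat.gcd d e))) * (n / Nat.lcm d e) := by
        rw [h4]
    _ = _ := by ring

/-- A6. PROOF. `τ(n)^2 = ∑_{d, e ∣ n} 1`; for fixed `d, e ≤ N` the sum of `1/n` over the `n ≤ N`
divisible by both is at most `(1/lcm(d,e)) H_N`, `H_N = ∑_{j ≤ N} 1/j ≤ 1 + log N`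
(`harmonic_le_one_add_log`). With `g = gcd(d,e)`, `d = g d'`, `e = g e'`:
`1/lcm(d,e) = 1/(g d' e')` and `(d, e) ↦ (g, d', e')` is injective into `[1,N]^3`, so the sum of
`1/lcm` is at most `H_N ^ 3`. -/
lemma sum_tau_sq (N : ℕ) (hN : 1 ≤ N) :
    ∑ n ∈ Finset.Icc 1 N, ((n.divisors.card : ℝ) ^ 2) / n ≤ (1 + Real.log N) ^ 4 := by
  classical
  set H : ℝ := ∑ j ∈ Finset.Icc 1 N, (1 / (j : ℝ)) with hH
  have hH1 : H ≤ 1 + Real.log N := by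
    have h := harmonic_le_one_add_log N
    rw [harmonic_eq_sum_Icc] at h
    push_cast at h
    simpa [hH, one_div] using h
  have hH0 : 0 ≤ H := Finset.sum_nonneg fun j _ => by positivity
  set T : Finset (ℕ × ℕ × ℕ × ℕ) :=
    Finset.Icc 1 N ×ˢ Finset.Icc 1 N ×ˢ Finset.Icc 1 N ×ˢ Finset.Icc 1 N with hT
  have hTs : ∑ x ∈ T, (1 / (x.1 : ℝ)) * ((1 / x.2.1) * ((1 / x.2.2.1) * (1 / x.2.2.2))) =
      H ^ 4 := by
    rw [hT, Finset.sum_product]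
    have e1 : ∀ a : ℕ, ∑ y ∈ Finset.Icc 1 N ×ˢ Finset.Icc 1 N ×ˢ Finset.Icc 1 N,
        (1 / (a : ℝ)) * ((1 / y.1) * ((1 / y.2.1) * (1 / y.2.2))) = (1 / (a : ℝ)) * H ^ 3 := by
      intro a
      rw [← Finset.mul_sum, Finset.sum_product]
      have e2 : ∀ b : ℕ, ∑ y ∈ Finset.Icc 1 N ×ˢ Finset.Icc 1 N,
          (1 / (b : ℝ)) * ((1 / y.1) * (1 / y.2)) = (1 / (b : ℝ)) * H ^ 2 := by
        intro b
        rw [← Finset.mul_sum, Finset.sum_product]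
        have e3 : ∀ c : ℕ, ∑ y ∈ Finset.Icc 1 N, (1 / (c : ℝ)) * (1 / (y : ℝ)) =
            (1 / (c : ℝ)) * H := by
          intro c
          rw [← Finset.mul_sum]
        simp_rw [e3]
        rw [← Finset.sum_mul, ← hH]
        ring
      simp_rw [e2]
      rw [← Finset.sum_mul, ← hH]
      ring
    simp_rw [e1]
    rw [← Finset.sum_mul, ← hH]
    ring
  set S : Finset (Σ _ : ℕ, ℕ × ℕ) :=
    (Finset.Icc 1 N).sigma (fun n => n.divisors ×ˢ n.divisors) with hS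
  have hSs : ∑ n ∈ Finset.Icc 1 N, ((n.divisors.card : ℝ) ^ 2) / n =
      ∑ x ∈ S, 1 / (x.1 : ℝ) := by
    rw [hS, Finset.sum_sigma]
    apply Finset.sum_congr rfl
    intro n _
    change _ = ∑ _s ∈ n.divisors ×ˢ n.divisors, 1 / (n : ℝ)
    rw [Finset.sum_const, Finset.card_product, nsmul_eq_mul]
    push_cast
    ring
  have hmem : ∀ x ∈ S, 0 < x.1 ∧ x.1 ≤ N ∧ x.2.1 ∣ x.1 ∧ x.2.2 ∣ x.1 := by
    intro x hx
    rw [hS, Finset.mem_sigma, Finset.mem_product, Finset.mem_Icc, Nat.mem_divisors,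
      Nat.mem_divisors] at hx
    exact ⟨hx.1.1, hx.1.2, hx.2.1.1, hx.2.2.1⟩
  set φ : (Σ _ : ℕ, ℕ × ℕ) → ℕ × ℕ × ℕ × ℕ := fun x =>
    (Nat.gcd x.2.1 x.2.2, x.2.1 / Nat.gcd x.2.1 x.2.2, x.2.2 / Nat.gcd x.2.1 x.2.2,
      x.1 / Nat.lcm x.2.1 x.2.2) with hφ
  have hinj : Set.InjOn φ S := by
    intro x hx y hy hxy
    obtain ⟨hx0, _, hx1, hx2⟩ := hmem x hx
    obtain ⟨hy0, _, hy1, hy2⟩ := hmem y hy
    obtain ⟨_, _, _, _, a1, a2, a3⟩ := a6_nat x.1 x.2.1 x.2.2 hx0 hx1 hx2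
    obtain ⟨_, _, _, _, b1, b2, b3⟩ := a6_nat y.1 y.2.1 y.2.2 hy0 hy1 hy2
    simp only [hφ, Prod.mk.injEq] at hxy
    obtain ⟨c1, c2, c3, c4⟩ := hxy
    have d1 : x.2.1 = y.2.1 := by rw [a1, b1, c2, c1]
    have d2 : x.2.2 = y.2.2 := by rw [a2, b2, c3, c1]
    have d3 : x.1 = y.1 := by rw [a3, b3, c4, c3, c2, c1]
    obtain ⟨x1, x21, x22⟩ := x
    obtain ⟨y1, y21, y22⟩ := y
    simp only at d1 d2 d3
    subst d1 d2 d3
    rfl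
  have hsub : S.image φ ⊆ T := by
    intro z hz
    rw [Finset.mem_image] at hz
    obtain ⟨x, hx, rfl⟩ := hz
    obtain ⟨hx0, hxN, hx1, hx2⟩ := hmem x hx
    obtain ⟨a1, a2, a3, a4, _, _, a7⟩ := a6_nat x.1 x.2.1 x.2.2 hx0 hx1 hx2
    have hd1 : Nat.gcd x.2.1 x.2.2 ∣ x.1 := ⟨_, a7⟩
    have hd2 : x.2.1 / Nat.gcd x.2.1 x.2.2 ∣ x.1 :=
      ⟨Nat.gcd x.2.1 x.2.2 * ((x.2.2 / Nat.gcd x.2.1 x.2.2) * (x.1 / Nat.lcm x.2.1 x.2.2)), by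
        calc x.1 = _ := a7
          _ = _ := by ring⟩
    have hd3 : x.2.2 / Nat.gcd x.2.1 x.2.2 ∣ x.1 :=
      ⟨Nat.gcd x.2.1 x.2.2 * ((x.2.1 / Nat.gcd x.2.1 x.2.2) * (x.1 / Nat.lcm x.2.1 x.2.2)), by
        calc x.1 = _ := a7
          _ = _ := by ring⟩
    have hd4 : x.1 / Nat.lcm x.2.1 x.2.2 ≤ x.1 := Nat.div_le_self _ _
    have e1 := (Nat.le_of_dvd hx0 hd1).trans hxN
    have e2 := (Nat.le_of_dvd hx0 hd2).trans hxN
    have e3 := (Nat.le_of_dvd hx0 hd3).trans hxN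
    have e4 := hd4.trans hxN
    simp only [hT, hφ, Finset.mem_product, Finset.mem_Icc]
    exact ⟨⟨a1, e1⟩, ⟨a2, e2⟩, ⟨a3, e3⟩, ⟨a4, e4⟩⟩
  calc ∑ n ∈ Finset.Icc 1 N, ((n.divisors.card : ℝ) ^ 2) / n
      = ∑ x ∈ S, 1 / (x.1 : ℝ) := hSs
    _ = ∑ x ∈ S, (1 / ((φ x).1 : ℝ)) * ((1 / (φ x).2.1) * ((1 / (φ x).2.2.1) *
          (1 / (φ x).2.2.2))) := by
        apply Finset.sum_congr rfl
        intro x hx
        obtain ⟨hx0, _, hx1, hx2⟩ := hmem x hx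
        obtain ⟨_, _, _, _, _, _, a3⟩ := a6_nat x.1 x.2.1 x.2.2 hx0 hx1 hx2
        have a3' : (x.1 : ℝ) = (Nat.gcd x.2.1 x.2.2 : ℕ) * (((x.2.1 / Nat.gcd x.2.1 x.2.2 : ℕ) : ℝ) *
          (((x.2.2 / Nat.gcd x.2.1 x.2.2 : ℕ) : ℝ) * ((x.1 / Nat.lcm x.2.1 x.2.2 : ℕ) : ℝ))) := by
          exact_mod_cast a3
        simp only [hφ]
        rw [a3']
        simp only [one_div, mul_inv]
    _ = ∑ z ∈ S.image φ, (1 / (z.1 : ℝ)) * ((1 / z.2.1) * ((1 / z.2.2.1) *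
          (1 / z.2.2.2))) := by
        rw [Finset.sum_image hinj]
    _ ≤ ∑ z ∈ T, (1 / (z.1 : ℝ)) * ((1 / z.2.1) * ((1 / z.2.2.1) * (1 / z.2.2.2))) := by
        apply Finset.sum_le_sum_of_subset_of_nonneg hsub
        intro z _ _
        positivity
    _ = H ^ 4 := hTs
    _ ≤ (1 + Real.log N) ^ 4 := pow_le_pow_left₀ hH0 hH1 4

end Pool.Agent.GM
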