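import Mathlib
import Pool.Agent.Lib.MP_bae66e_nt.GM.A2
import Pool.Agent.Lib.MP_bae66e_nt.GM.A5
import Pool.Agent.Lib.MP_bae66e_nt.GM.A6

set_option autoImplicit false

namespace Pool.Agent.GM

open Complex Metric Set

/-- A7. PROOF. `mean_square` with `N = q^5` and
`a n = bco .. n * n^(-s)` for `q^2 < n ≤ q^5`, `0` for `q < n ≤ q^2` (note `q ≤ q^2`). Then
`n ‖a n‖^2 ≤ τ(n)^2 n^(1 - 2 re s) ≤ τ(n)^2 n^(-1) n^(2 κ) ≤ (q^5)^(2 κ) τ(n)^2 / n`
(`bco_abs_le`; `Complex.norm_natCast_cpow_of_pos`); `sum_tau_sq`; `log (q^5) = 5 log q`, so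
`(1 + 5 log q)^5 ≤ (6 log (q+2))^5` (`log (q + 2) ≥ 1`), `6^5 = 7776`. -/
lemma GG_mean (q : ℕ) [NeZero q] (s : ℂ) (κ : ℝ) (hκ : 0 ≤ κ) (hs : 1 - κ ≤ s.re) :
    ∑ χ : DirichletCharacter ℂ q, ‖GG q χ s‖ ^ 2
      ≤ 7776 * (Real.log (q + 2)) ^ 5 * (q : ℝ) ^ (10 * κ) := by
  classical
  have hq1 : 1 ≤ q := Nat.pos_of_ne_zero (NeZero.ne q)
  have hqR : (1 : ℝ) ≤ q := by exact_mod_cast hq1
  have hN : 1 ≤ q ^ 5 := Nat.one_le_pow _ _ hq1
  have hqq : q ≤ q ^ 2 := by nlinarith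
  let a : ℕ → ℂ := fun n => if q ^ 2 < n then
    (bco (q ^ 2) (q ^ 3) n : ℂ) * (n : ℂ) ^ (-s) else 0
  have hGG : ∀ χ : DirichletCharacter ℂ q, GG q χ s = ∑ n ∈ Finset.Ioc q (q ^ 5), a n * χ n := by
    intro χ
    have hset : Finset.Ioc (q ^ 2) (q ^ 5) = (Finset.Ioc q (q ^ 5)).filter (fun n => q ^ 2 < n) := by
      ext x; simp only [Finset.mem_Ioc, Finset.mem_filter]; omega
    unfold GG
    rw [hset, Finset.sum_filter]
    refine Finset.sum_congr rfl fun n _ => ?_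
    simp only [a]
    split_ifs
    · rfl
    · rw [zero_mul]
  have hms := mean_square q (q ^ 5) a
  have hlogN : Real.log ((q ^ 5 : ℕ) : ℝ) = 5 * Real.log q := by
    rw [Nat.cast_pow, Real.log_pow]
    norm_num
  have hlq0 : 0 ≤ Real.log (q : ℝ) := Real.log_nonneg hqR
  have hpowR : ∀ n ∈ Finset.Ioc q (q ^ 5), (n : ℝ) * ‖a n‖ ^ 2 ≤
      (q : ℝ) ^ (10 * κ) * (((n.divisors.card : ℝ) ^ 2) / n) := by
    intro n hn
    have hn1 := Finset.mem_Ioc.1 hn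
    have hn0 : 0 < n := by omega
    have hnR : (0 : ℝ) < n := by exact_mod_cast hn0
    have hnR1 : (1 : ℝ) ≤ n := by exact_mod_cast hn0
    by_cases h2 : q ^ 2 < n
    · have ha : ‖a n‖ ≤ (n.divisors.card : ℝ) * (n : ℝ) ^ (-s.re) := by
        simp only [a]
        rw [if_pos h2, norm_mul, Complex.norm_natCast_cpow_of_pos hn0, Complex.neg_re,
          Complex.norm_intCast]
        refine mul_le_mul_of_nonneg_right ?_ (by positivity)
        exact_mod_cast bco_abs_le (q ^ 2) (q ^ 3) n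
      have h3 : (n : ℝ) * ((n : ℝ) ^ (-s.re)) ^ 2 ≤ (q : ℝ) ^ (10 * κ) * (1 / n) := by
        have e1 : (n : ℝ) * ((n : ℝ) ^ (-s.re)) ^ 2 = (n : ℝ) ^ (1 - 2 * s.re) := by
          rw [← Real.rpow_natCast, ← Real.rpow_mul hnR.le]
          nth_rewrite 1 [← Real.rpow_one (n : ℝ)]
          rw [← Real.rpow_add hnR]
          congr 1
          push_cast
          ring
        have e2 : (n : ℝ) ^ (1 - 2 * s.re) ≤ (n : ℝ) ^ (2 * κ + (-1)) :=
          Real.rpow_le_rpow_of_exponent_le hnR1 (by linarith)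
        have e3 : (n : ℝ) ^ (2 * κ) ≤ (q : ℝ) ^ (10 * κ) := by
          have e4 : (n : ℝ) ≤ (q : ℝ) ^ (5 : ℝ) := by
            have : (n : ℝ) ≤ ((q ^ 5 : ℕ) : ℝ) := by exact_mod_cast hn1.2
            rw [Nat.cast_pow] at this
            calc (n : ℝ) ≤ (q : ℝ) ^ 5 := this
              _ = (q : ℝ) ^ ((5 : ℕ) : ℝ) := (Real.rpow_natCast _ _).symm
              _ = (q : ℝ) ^ (5 : ℝ) := by norm_num
          calc (n : ℝ) ^ (2 * κ) ≤ ((q : ℝ) ^ (5 : ℝ)) ^ (2 * κ) :=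
                Real.rpow_le_rpow hnR.le e4 (by linarith)
            _ = (q : ℝ) ^ (10 * κ) := by
                rw [← Real.rpow_mul (by linarith)]
                congr 1
                ring
        rw [e1]
        calc (n : ℝ) ^ (1 - 2 * s.re) ≤ (n : ℝ) ^ (2 * κ + (-1)) := e2
          _ = (n : ℝ) ^ (2 * κ) * (1 / n) := by
              rw [Real.rpow_add hnR, Real.rpow_neg_one, one_div]
          _ ≤ _ := mul_le_mul_of_nonneg_right e3 (by positivity)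
      calc (n : ℝ) * ‖a n‖ ^ 2 ≤ (n : ℝ) * ((n.divisors.card : ℝ) * (n : ℝ) ^ (-s.re)) ^ 2 := by
            gcongr
        _ = (n.divisors.card : ℝ) ^ 2 * ((n : ℝ) * ((n : ℝ) ^ (-s.re)) ^ 2) := by ring
        _ ≤ (n.divisors.card : ℝ) ^ 2 * ((q : ℝ) ^ (10 * κ) * (1 / n)) :=
            mul_le_mul_of_nonneg_left h3 (by positivity)
        _ = _ := by ring
    · have ha : a n = 0 := by
        simp only [a]
        rw [if_neg h2]
      rw [ha, norm_zero]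
      have : 0 ≤ (q : ℝ) ^ (10 * κ) * (((n.divisors.card : ℝ) ^ 2) / n) := by positivity
      simpa using this
  have hsumle : ∑ n ∈ Finset.Ioc q (q ^ 5), (n : ℝ) * ‖a n‖ ^ 2 ≤
      (q : ℝ) ^ (10 * κ) * (1 + Real.log ((q ^ 5 : ℕ) : ℝ)) ^ 4 := by
    calc ∑ n ∈ Finset.Ioc q (q ^ 5), (n : ℝ) * ‖a n‖ ^ 2 ≤
          ∑ n ∈ Finset.Ioc q (q ^ 5), (q : ℝ) ^ (10 * κ) * (((n.divisors.card : ℝ) ^ 2) / n) :=
          Finset.sum_le_sum hpowR
      _ = (q : ℝ) ^ (10 * κ) * ∑ n ∈ Finset.Ioc q (q ^ 5), (((n.divisors.card : ℝ) ^ 2) / n) := by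
          rw [Finset.mul_sum]
      _ ≤ (q : ℝ) ^ (10 * κ) * ∑ n ∈ Finset.Icc 1 (q ^ 5), (((n.divisors.card : ℝ) ^ 2) / n) := by
          refine mul_le_mul_of_nonneg_left ?_ (by positivity)
          refine Finset.sum_le_sum_of_subset_of_nonneg ?_ fun _ _ _ => by positivity
          intro x hx
          rw [Finset.mem_Ioc] at hx
          rw [Finset.mem_Icc]
          omega
      _ ≤ _ := mul_le_mul_of_nonneg_left (sum_tau_sq (q ^ 5) hN) (by positivity)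
  have hlog1 : 1 ≤ Real.log ((q : ℝ) + 2) := by
    rw [Real.le_log_iff_exp_le (by linarith)]
    have := Real.exp_one_lt_d9
    linarith
  have hlogle : Real.log (q : ℝ) ≤ Real.log ((q : ℝ) + 2) :=
    Real.log_le_log (by linarith) (by linarith)
  calc ∑ χ : DirichletCharacter ℂ q, ‖GG q χ s‖ ^ 2 =
        ∑ χ : DirichletCharacter ℂ q, ‖∑ n ∈ Finset.Ioc q (q ^ 5), a n * χ n‖ ^ 2 := by
        refine Finset.sum_congr rfl fun χ _ => ?_
        rw [hGG]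
    _ ≤ _ := hms
    _ ≤ (1 + Real.log ((q ^ 5 : ℕ) : ℝ)) *
        ((q : ℝ) ^ (10 * κ) * (1 + Real.log ((q ^ 5 : ℕ) : ℝ)) ^ 4) := by
        refine mul_le_mul_of_nonneg_left hsumle ?_
        rw [hlogN]
        linarith
    _ = (1 + 5 * Real.log (q : ℝ)) ^ 5 * (q : ℝ) ^ (10 * κ) := by
        rw [hlogN]
        ring
    _ ≤ (6 * Real.log ((q : ℝ) + 2)) ^ 5 * (q : ℝ) ^ (10 * κ) := by
        refine mul_le_mul_of_nonneg_right ?_ (by positivity)
        refine pow_le_pow_left₀ (by linarith) (by linarith) 5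
    _ = _ := by ring

end Pool.Agent.GM
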