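import Mathlib
import Pool.Agent.Lib.MP_bae66e_nt.GM.A3
import Pool.Agent.Lib.MP_bae66e_nt.GM.A4
import Pool.Agent.Lib.MP_bae66e_nt.GM.A7

set_option autoImplicit false

namespace Pool.Agent.GM

open Complex Metric Set

lemma A8_diff (q : ℕ) [NeZero q] (χ : DirichletCharacter ℂ q) : Differentiable ℂ (GG q χ) := by
  have h1 : GG q χ = fun s => ∑ n ∈ Finset.Ioc (q ^ 2) (q ^ 5),
      (bco (q ^ 2) (q ^ 3) n : ℂ) * (n : ℂ) ^ (-s) * χ n := rfl
  rw [h1]
  refine Differentiable.fun_sum fun n hn => ?_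
  have hn0 : (n : ℂ) ≠ 0 := by
    have := Finset.mem_Ioc.1 hn
    exact_mod_cast (show n ≠ 0 by omega)
  have h2 : Differentiable ℂ fun s : ℂ => (n : ℂ) ^ (-s) :=
    differentiable_neg.const_cpow (Or.inl hn0)
  exact (h2.const_mul _).mul_const _

lemma A8_one_le_log (q : ℕ) [NeZero q] : 1 ≤ Real.log ((q : ℝ) + 2) := by
  have hq1 : 1 ≤ q := Nat.pos_of_ne_zero (NeZero.ne q)
  have hqR : (1 : ℝ) ≤ q := by exact_mod_cast hq1
  rw [Real.le_log_iff_exp_le (by linarith)]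
  have := Real.exp_one_lt_d9
  linarith

/-- the main estimate for large `q` -/
lemma A8_main (q : ℕ) [NeZero q] (κ : ℝ) (hκ : 0 ≤ κ) (hκ1 : κ ≤ 1 / 10)
    (S : Finset (DirichletCharacter ℂ q)) (hS : ∀ χ ∈ S, ∃ ρ : ℂ, 1 / 2 ≤ ‖GG q χ ρ‖ ∧
      ‖ρ - 2‖ ≤ 1 + κ) :
    (S.card : ℝ) ≤ 93312 * Real.exp 10 * (Real.log (q + 2)) ^ 6 * (q : ℝ) ^ (10 * κ) := by
  classical
  have hq1 : 1 ≤ q := Nat.pos_of_ne_zero (NeZero.ne q)
  have hqR : (1 : ℝ) ≤ q := by exact_mod_cast hq1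
  have hl1 := A8_one_le_log q
  set l := Real.log ((q : ℝ) + 2) with hl
  have hl0 : 0 < l := by linarith
  set δ := 1 / l with hδd
  have hδ : 0 < δ := by positivity
  have hδ1 : δ ≤ 1 := by
    rw [hδd, div_le_one hl0]
    exact hl1
  have hR : 0 < 1 + κ + δ := by linarith
  have hpi := Real.pi_pos
  have hcont : ∀ χ : DirichletCharacter ℂ q,
      Continuous fun θ : ℝ => ‖GG q χ (circleMap 2 (1 + κ + δ) θ)‖ ^ 2 := fun χ =>
    (((A8_diff q χ).continuous.comp (continuous_circleMap 2 (1 + κ + δ))).norm).pow 2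
  have hone : ∀ χ ∈ S, (1 : ℝ) / 4 ≤ (1 + κ + δ) / (2 * Real.pi * δ) *
      ∫ θ in (0 : ℝ)..(2 * Real.pi), ‖GG q χ (circleMap 2 (1 + κ + δ) θ)‖ ^ 2 := by
    intro χ hχ
    obtain ⟨ρ, h1, h2⟩ := hS χ hχ
    have h3 := circle_bound (GG q χ) (A8_diff q χ) 2 ρ (1 + κ + δ) δ hδ hR (by linarith)
    refine le_trans ?_ h3
    nlinarith
  have hsum : (S.card : ℝ) / 4 ≤ (1 + κ + δ) / (2 * Real.pi * δ) *
      ∫ θ in (0 : ℝ)..(2 * Real.pi), ∑ χ ∈ S, ‖GG q χ (circleMap 2 (1 + κ + δ) θ)‖ ^ 2 := by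
    rw [intervalIntegral.integral_finsetSum fun χ _ => (hcont χ).intervalIntegrable _ _,
      Finset.mul_sum]
    calc (S.card : ℝ) / 4 = ∑ χ ∈ S, (1 : ℝ) / 4 := by
          rw [Finset.sum_const, nsmul_eq_mul]
          ring
      _ ≤ _ := Finset.sum_le_sum hone
  have hqδ : (q : ℝ) ^ (10 * δ) ≤ Real.exp 10 := by
    rw [Real.rpow_def_of_pos (by linarith), Real.exp_le_exp]
    have h1 : Real.log (q : ℝ) ≤ l := Real.log_le_log (by linarith) (by linarith)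
    calc Real.log (q : ℝ) * (10 * δ) ≤ l * (10 * δ) :=
          mul_le_mul_of_nonneg_right h1 (by positivity)
      _ = 10 := by
          rw [hδd]
          field_simp
  have hpt : ∀ θ : ℝ, ∑ χ ∈ S, ‖GG q χ (circleMap 2 (1 + κ + δ) θ)‖ ^ 2 ≤
      7776 * l ^ 5 * ((q : ℝ) ^ (10 * κ) * Real.exp 10) := by
    intro θ
    have hre : 1 - (κ + δ) ≤ (circleMap 2 (1 + κ + δ) θ).re := by
      have h1 := Complex.abs_re_le_norm (circleMap 2 (1 + κ + δ) θ - 2)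
      have h2 : ‖circleMap 2 (1 + κ + δ) θ - 2‖ = 1 + κ + δ := by
        rw [circleMap_sub_center, norm_circleMap_zero, abs_of_pos hR]
      rw [h2] at h1
      have h3 := (abs_le.1 h1).1
      rw [Complex.sub_re] at h3
      have h4 : (2 : ℂ).re = 2 := rfl
      rw [h4] at h3
      linarith
    have h1 := GG_mean q (circleMap 2 (1 + κ + δ) θ) (κ + δ) (by linarith) hre
    have h2 : (q : ℝ) ^ (10 * (κ + δ)) ≤ (q : ℝ) ^ (10 * κ) * Real.exp 10 := by
      rw [mul_add, Real.rpow_add (by linarith)]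
      exact mul_le_mul_of_nonneg_left hqδ (by positivity)
    calc ∑ χ ∈ S, ‖GG q χ (circleMap 2 (1 + κ + δ) θ)‖ ^ 2 ≤
          ∑ χ : DirichletCharacter ℂ q, ‖GG q χ (circleMap 2 (1 + κ + δ) θ)‖ ^ 2 :=
          Finset.sum_le_sum_of_subset_of_nonneg (Finset.subset_univ _) fun _ _ _ => by positivity
      _ ≤ _ := h1
      _ ≤ _ := mul_le_mul_of_nonneg_left h2 (by positivity)
  have hint : ∫ θ in (0 : ℝ)..(2 * Real.pi), ∑ χ ∈ S, ‖GG q χ (circleMap 2 (1 + κ + δ) θ)‖ ^ 2 ≤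
      (2 * Real.pi) * (7776 * l ^ 5 * ((q : ℝ) ^ (10 * κ) * Real.exp 10)) := by
    calc _ ≤ ∫ θ in (0 : ℝ)..(2 * Real.pi), 7776 * l ^ 5 * ((q : ℝ) ^ (10 * κ) * Real.exp 10) := by
          refine intervalIntegral.integral_mono_on (by positivity) ?_
            intervalIntegrable_const fun θ _ => hpt θ
          exact (continuous_finsetSum _ fun χ _ => hcont χ).intervalIntegrable _ _
      _ = _ := by
          rw [intervalIntegral.integral_const, smul_eq_mul, sub_zero]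
  have hfin : (S.card : ℝ) / 4 ≤ (1 + κ + δ) / (2 * Real.pi * δ) *
      ((2 * Real.pi) * (7776 * l ^ 5 * ((q : ℝ) ^ (10 * κ) * Real.exp 10))) :=
    hsum.trans (mul_le_mul_of_nonneg_left hint (by positivity))
  have hsimp : (1 + κ + δ) / (2 * Real.pi * δ) *
      ((2 * Real.pi) * (7776 * l ^ 5 * ((q : ℝ) ^ (10 * κ) * Real.exp 10))) =
      (1 + κ + δ) * (7776 * l ^ 6 * ((q : ℝ) ^ (10 * κ) * Real.exp 10)) := by
    rw [hδd]
    field_simp
  rw [hsimp] at hfin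
  have h3 : (1 + κ + δ) * (7776 * l ^ 6 * ((q : ℝ) ^ (10 * κ) * Real.exp 10)) ≤
      3 * (7776 * l ^ 6 * ((q : ℝ) ^ (10 * κ) * Real.exp 10)) :=
    mul_le_mul_of_nonneg_right (by linarith) (by positivity)
  have h4 := hfin.trans h3
  linarith

/-- A8. Zero density near `1` for one modulus, without loss of powers of `q`.
PROOF. Take `q₀` from `GG_large`. If `q < q₀` the number of characters is
`φ(q) ≤ q₀ ≤ C * 1 * 1`. Let `q ≥ q₀`, `δ = 1 / log (q+2) ≤ 1`, `R = 1 + κ + δ ≤ 3`. If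
`NearZero q χ κ` with zero `ρ`, then `re ρ ≥ 1 - κ ≥ 9/10`, `‖ρ‖ ≤ 4`, so `‖GG q χ ρ‖ ≥ 1/2` and by
`circle_bound` (`GG q χ` is a finite sum of exponentials, so entire; `c = 2`)
`1/4 ≤ R/(2π δ) ∫_0^{2π} ‖GG q χ (2 + R e^{iθ})‖^2 dθ`. Sum over the characters and exchange the
finite sum and the integral; on the circle `re ≥ 2 - R = 1 - (κ + δ)`, so `GG_mean` bounds the
integrand by `7776 log(q+2)^5 q^(10 κ) q^(10 δ)` and `q^(10 δ) = exp (10 log q/log (q+2)) ≤ e^10`. -/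
theorem density : ∃ C : ℝ, 1 ≤ C ∧ ∀ (q : ℕ) [NeZero q] (κ : ℝ), 0 ≤ κ → κ ≤ 1 / 10 →
    (Nat.card {χ : DirichletCharacter ℂ q // χ ≠ 1 ∧ NearZero q χ κ} : ℝ)
      ≤ C * (Real.log (q + 2)) ^ 6 * (q : ℝ) ^ (10 * κ) := by
  classical
  obtain ⟨q₀, hq₀⟩ := GG_large
  refine ⟨93312 * Real.exp 10 + q₀ + 1, ?_, ?_⟩
  · have h1 : (0 : ℝ) ≤ q₀ := Nat.cast_nonneg _
    have h2 := Real.exp_pos 10
    linarith
  intro q _ κ hκ hκ1
  have hq1 : 1 ≤ q := Nat.pos_of_ne_zero (NeZero.ne q)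
  have hqR : (1 : ℝ) ≤ q := by exact_mod_cast hq1
  have hl1 := A8_one_le_log q
  have hX : (1 : ℝ) ≤ (Real.log (q + 2)) ^ 6 * (q : ℝ) ^ (10 * κ) := by
    have h1 : (1 : ℝ) ≤ (Real.log (q + 2)) ^ 6 := one_le_pow₀ hl1
    have h2 : (1 : ℝ) ≤ (q : ℝ) ^ (10 * κ) := Real.one_le_rpow hqR (by linarith)
    nlinarith
  have hcard : (Nat.card {χ : DirichletCharacter ℂ q // χ ≠ 1 ∧ NearZero q χ κ} : ℝ) =
      ((Finset.univ.filter fun χ : DirichletCharacter ℂ q => χ ≠ 1 ∧ NearZero q χ κ).card : ℝ) := by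
    rw [Nat.card_eq_fintype_card, Fintype.card_subtype]
  rw [hcard, mul_assoc]
  set X := (Real.log ((q : ℝ) + 2)) ^ 6 * (q : ℝ) ^ (10 * κ) with hXd
  have hE := Real.exp_pos 10
  have hq0 : (0 : ℝ) ≤ q₀ := Nat.cast_nonneg _
  rcases lt_or_ge q q₀ with h | h
  · have h1 : ((Finset.univ.filter fun χ : DirichletCharacter ℂ q =>
        χ ≠ 1 ∧ NearZero q χ κ).card : ℝ) ≤ q₀ := by
      have h2 : (Finset.univ.filter fun χ : DirichletCharacter ℂ q =>
          χ ≠ 1 ∧ NearZero q χ κ).card ≤ Fintype.card (DirichletCharacter ℂ q) :=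
        Finset.card_filter_le _ _
      have h3 : Fintype.card (DirichletCharacter ℂ q) = Nat.totient q := by
        rw [← Nat.card_eq_fintype_card]
        exact DirichletCharacter.card_eq_totient_of_hasEnoughRootsOfUnity ℂ q
      have h4 := Nat.totient_le q
      have h5 : (Finset.univ.filter fun χ : DirichletCharacter ℂ q =>
          χ ≠ 1 ∧ NearZero q χ κ).card ≤ q₀ := by omega
      exact_mod_cast h5
    nlinarith
  · have h1 := A8_main q κ hκ hκ1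
      (Finset.univ.filter fun χ : DirichletCharacter ℂ q => χ ≠ 1 ∧ NearZero q χ κ) (by
        intro χ hχ
        obtain ⟨hχ1, ρ, hρ, hρ2⟩ := (Finset.mem_filter.1 hχ).2
        refine ⟨ρ, hq₀ q χ h hχ1 ρ hρ ?_ ?_, hρ2⟩
        · have h2 := Complex.abs_re_le_norm (ρ - 2)
          have h3 := (abs_le.1 (h2.trans hρ2)).1
          rw [Complex.sub_re] at h3
          have h4 : (2 : ℂ).re = 2 := rfl
          rw [h4] at h3
          linarith
        · have h2 : ‖ρ‖ ≤ ‖ρ - 2‖ + ‖(2 : ℂ)‖ := by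
            calc ‖ρ‖ = ‖(ρ - 2) + 2‖ := by rw [sub_add_cancel]
              _ ≤ _ := norm_add_le _ _
          rw [Complex.norm_two] at h2
          linarith)
    rw [mul_assoc (93312 * Real.exp 10)] at h1
    nlinarith

end Pool.Agent.GM
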