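import Mathlib

set_option autoImplicit false

namespace Pool.Agent.GM

private lemma C1_step {ι : Type} (F : Finset ι) (A : ι → Finset ℕ) (P : Finset ℕ) (s : ℝ)
    (hs : 0 < s) (hA : ∀ i ∈ F, A i ⊆ P ∧ s ≤ ((A i).card : ℝ)) (hsP : s ≤ P.card) (t : ℕ) :
    ∃ D : Finset ℕ, D ⊆ P ∧ D.card ≤ t ∧
      ((F.filter (fun i => Disjoint (A i) D)).card : ℝ) ≤ F.card * (1 - s / P.card) ^ t := by
  have hP0 : (0 : ℝ) < P.card := hs.trans_le hsP
  have hPne : P.Nonempty := by
    rw [← Finset.card_pos]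
    exact_mod_cast hP0
  have hr0 : 0 ≤ 1 - s / P.card := by
    rw [sub_nonneg, div_le_one hP0]
    exact hsP
  induction t with
  | zero =>
    refine ⟨∅, Finset.empty_subset _, le_rfl, ?_⟩
    rw [pow_zero, mul_one]
    exact_mod_cast Finset.card_filter_le _ _
  | succ t ih =>
    obtain ⟨D, hDP, hDt, hD⟩ := ih
    obtain ⟨U, hU⟩ : ∃ U : Finset ι, U = F.filter (fun i => Disjoint (A i) D) := ⟨_, rfl⟩
    rw [← hU] at hD
    have hUF : U ⊆ F := by
      rw [hU]
      exact Finset.filter_subset _ _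
    have hdc : ∑ p ∈ P, ((U.filter (fun i => p ∈ A i)).card : ℝ) =
        ∑ i ∈ U, ((A i).card : ℝ) := by
      have h1 : ∀ p, ((U.filter (fun i => p ∈ A i)).card : ℝ) =
          ∑ i ∈ U, if p ∈ A i then (1 : ℝ) else 0 := fun p => by
        rw [Finset.card_filter]
        push_cast
        rfl
      simp_rw [h1]
      rw [Finset.sum_comm]
      refine Finset.sum_congr rfl fun i hi => ?_
      rw [Finset.sum_ite_mem, Finset.inter_eq_right.mpr (hA i (hUF hi)).1, Finset.sum_const,
        nsmul_eq_mul, mul_one]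
    have hle : ∑ p ∈ P, (s / P.card * U.card) ≤
        ∑ p ∈ P, ((U.filter (fun i => p ∈ A i)).card : ℝ) := by
      rw [hdc, Finset.sum_const, nsmul_eq_mul]
      have h2 : (P.card : ℝ) * (s / P.card * U.card) = U.card • s := by
        rw [nsmul_eq_mul]
        field_simp
      rw [h2]
      exact Finset.card_nsmul_le_sum U _ s fun i hi => (hA i (hUF hi)).2
    obtain ⟨p, hp, hpU⟩ := Finset.exists_le_of_sum_le hPne hle
    refine ⟨insert p D, Finset.insert_subset hp hDP, ?_, ?_⟩
    · exact (Finset.card_insert_le _ _).trans (Nat.succ_le_succ hDt)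
    · have hsub : F.filter (fun i => Disjoint (A i) (insert p D)) ⊆
          U.filter (fun i => ¬ p ∈ A i) := by
        intro i hi
        rw [Finset.mem_filter] at hi ⊢
        rw [Finset.disjoint_insert_right] at hi
        rw [hU, Finset.mem_filter]
        exact ⟨⟨hi.1, hi.2.2⟩, hi.2.1⟩
      have h3 : (U.filter (fun i => p ∈ A i)).card + (U.filter (fun i => ¬ p ∈ A i)).card =
          U.card := Finset.card_filter_add_card_filter_not _
      have h4 : ((U.filter (fun i => p ∈ A i)).card : ℝ) +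
          ((U.filter (fun i => ¬ p ∈ A i)).card : ℝ) = U.card := by exact_mod_cast h3
      have h5 : ((F.filter (fun i => Disjoint (A i) (insert p D))).card : ℝ) ≤
          ((U.filter (fun i => ¬ p ∈ A i)).card : ℝ) := by
        exact_mod_cast Finset.card_le_card hsub
      calc ((F.filter (fun i => Disjoint (A i) (insert p D))).card : ℝ)
          ≤ U.card * (1 - s / P.card) := by nlinarith
        _ ≤ (F.card * (1 - s / P.card) ^ t) * (1 - s / P.card) :=
            mul_le_mul_of_nonneg_right hD hr0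
        _ = F.card * (1 - s / P.card) ^ (t + 1) := by ring

/-- C1. Greedy hitting set.
PROOF. If `F` is empty take `D = ∅`. Otherwise `P` is nonempty and `s ≤ #P`. Claim: for every
`t : ℕ` there is `D ⊆ P`, `#D ≤ t`, such that the set of `i ∈ F` with `A i` disjoint from `D` has at
most `#F (1 - s/#P)^t` elements. Induction on `t`: if `U` is the set of the indices not hit,
double counting `∑_{p ∈ P} #{i ∈ U : p ∈ A i} = ∑_{i ∈ U} #(A i) ≥ s #U` gives `p ∈ P` with
`#{i ∈ U : p ∈ A i} ≥ (s/#P) #U`; insert it. With `t = ⌊(#P/s) log #F⌋ + 1` one has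
`#F (1 - s/#P)^t ≤ exp (log #F - t s/#P) < 1`, so nothing is left. -/
lemma hitting {ι : Type} (F : Finset ι) (A : ι → Finset ℕ) (P : Finset ℕ) (s : ℝ)
    (hs : 0 < s) (hA : ∀ i ∈ F, A i ⊆ P ∧ s ≤ ((A i).card : ℝ)) :
    ∃ D : Finset ℕ, D ⊆ P ∧ (D.card : ℝ) ≤ (P.card / s) * Real.log F.card + 1 ∧
      ∀ i ∈ F, ∃ p ∈ D, p ∈ A i := by
  rcases F.eq_empty_or_nonempty with hF | hF
  · refine ⟨∅, Finset.empty_subset _, ?_, ?_⟩
    · rw [hF]
      simp
    · rw [hF]
      intro i hi
      simp at hi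
  · obtain ⟨i₀, hi₀⟩ := hF
    have hsP : s ≤ P.card := by
      refine (hA i₀ hi₀).2.trans ?_
      exact_mod_cast Finset.card_le_card (hA i₀ hi₀).1
    have hP0 : (0 : ℝ) < P.card := hs.trans_le hsP
    have hFc : (1 : ℝ) ≤ F.card := by
      exact_mod_cast Finset.card_pos.mpr ⟨i₀, hi₀⟩
    obtain ⟨x, hx⟩ : ∃ x : ℝ, x = (P.card / s) * Real.log F.card := ⟨_, rfl⟩
    have hx0 : 0 ≤ x := by
      rw [hx]
      exact mul_nonneg (div_nonneg hP0.le hs.le) (Real.log_nonneg hFc)
    obtain ⟨D, hDP, hDt, hD⟩ := C1_step F A P s hs hA hsP (⌊x⌋₊ + 1)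
    refine ⟨D, hDP, ?_, ?_⟩
    · rw [← hx]
      have h1 : (D.card : ℝ) ≤ (⌊x⌋₊ : ℝ) + 1 := by exact_mod_cast hDt
      have h2 := Nat.floor_le hx0
      linarith
    · have hr0 : 0 ≤ 1 - s / P.card := by
        rw [sub_nonneg, div_le_one hP0]
        exact hsP
      have h1 : (1 - s / P.card) ^ (⌊x⌋₊ + 1) ≤ Real.exp (-(s / P.card * (⌊x⌋₊ + 1 : ℕ))) := by
        have h2 : 1 - s / P.card ≤ Real.exp (-(s / P.card)) := Real.one_sub_le_exp_neg _
        calc (1 - s / P.card) ^ (⌊x⌋₊ + 1) ≤ (Real.exp (-(s / P.card))) ^ (⌊x⌋₊ + 1) :=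
              pow_le_pow_left₀ hr0 h2 _
          _ = Real.exp (-(s / P.card * (⌊x⌋₊ + 1 : ℕ))) := by
              rw [← Real.exp_nat_mul]
              congr 1
              ring
      have h3 : Real.log F.card < s / P.card * (⌊x⌋₊ + 1 : ℕ) := by
        have h4 : Real.log F.card = s / P.card * x := by
          rw [hx]
          field_simp
        rw [h4]
        refine mul_lt_mul_of_pos_left ?_ (div_pos hs hP0)
        push_cast
        exact Nat.lt_floor_add_one x
      have h5 : (F.card : ℝ) * (1 - s / P.card) ^ (⌊x⌋₊ + 1) < 1 := by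
        calc (F.card : ℝ) * (1 - s / P.card) ^ (⌊x⌋₊ + 1)
            ≤ F.card * Real.exp (-(s / P.card * (⌊x⌋₊ + 1 : ℕ))) :=
              mul_le_mul_of_nonneg_left h1 (by linarith)
          _ < F.card * Real.exp (-Real.log F.card) := by
              refine mul_lt_mul_of_pos_left ?_ (by linarith)
              exact Real.exp_lt_exp.mpr (neg_lt_neg h3)
          _ = 1 := by
              rw [Real.exp_neg, Real.exp_log (by linarith)]
              exact mul_inv_cancel₀ (by linarith)
      have h6 : (F.filter (fun i => Disjoint (A i) D)).card = 0 := by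
        have h7 := hD.trans_lt h5
        have h8 : (F.filter (fun i => Disjoint (A i) D)).card < 1 := by exact_mod_cast h7
        omega
      rw [Finset.card_eq_zero, Finset.filter_eq_empty_iff] at h6
      intro i hi
      have h7 := h6 hi
      rw [Finset.not_disjoint_iff] at h7
      obtain ⟨p, hp1, hp2⟩ := h7
      exact ⟨p, hp2, hp1⟩

end Pool.Agent.GM
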