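import Mathlib
import Pool.Agent.Lib.MP_bae66e_nt.GM.A8

set_option autoImplicit false

namespace Pool.Agent.GM

/-- C3a. PROOF. `density` with `κ = 64 log k / k ≤ 1/10`, `q ≤ e^(k/80)`, `log (q+2) ≤ k`:
the number is at most `C k^6 exp (10 (64 log k/k) (k/80)) = C k^6 k^8 ≤ k^15`. -/
lemma bad_count : ∃ k₀ : ℕ, ∀ k : ℕ, k₀ ≤ k → ∀ (q : ℕ) [NeZero q], Real.log q ≤ k / 80 →
    (Nat.card {χ : DirichletCharacter ℂ q // χ ≠ 1 ∧ NearZero q χ (64 * Real.log k / k)} : ℝ)
      ≤ (k : ℝ) ^ 15 := by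
  obtain ⟨C, hC1, hC⟩ := density
  have hlog : ∀ᶠ x : ℝ in Filter.atTop, ‖Real.log x‖ ≤ 1 / 640 * ‖x‖ :=
    Real.isLittleO_log_id_atTop.bound (by norm_num)
  have hlog2 : ∀ᶠ k : ℕ in Filter.atTop, ‖Real.log (k : ℝ)‖ ≤ 1 / 640 * ‖(k : ℝ)‖ :=
    tendsto_natCast_atTop_atTop.eventually hlog
  obtain ⟨k₁, hk₁⟩ := Filter.eventually_atTop.1 hlog2
  obtain ⟨k₂, hk₂⟩ := exists_nat_ge C
  refine ⟨max (max k₁ k₂) 3, ?_⟩
  intro k hk q _ hq
  have hk1 : k₁ ≤ k := le_trans (le_trans (le_max_left _ _) (le_max_left _ _)) hk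
  have hk2 : k₂ ≤ k := le_trans (le_trans (le_max_right _ _) (le_max_left _ _)) hk
  have hk3 : 3 ≤ k := le_trans (le_max_right _ _) hk
  have hk3' : (3 : ℝ) ≤ k := by exact_mod_cast hk3
  have hCk : C ≤ k := hk₂.trans (by exact_mod_cast hk2)
  have hl0 : 0 ≤ Real.log k := Real.log_nonneg (by linarith)
  have hl1 : Real.log k ≤ k / 640 := by
    have h1 := hk₁ k hk1
    rw [Real.norm_eq_abs, Real.norm_eq_abs, abs_of_nonneg hl0, abs_of_nonneg (by linarith)] at h1
    linarith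
  have hκ0 : 0 ≤ 64 * Real.log k / k := by positivity
  have hκ1 : 64 * Real.log k / k ≤ 1 / 10 := by
    rw [div_le_iff₀ (by linarith)]
    linarith
  refine (hC q (64 * Real.log k / k) hκ0 hκ1).trans ?_
  have hq1 : 1 ≤ q := Nat.one_le_iff_ne_zero.2 (NeZero.ne q)
  have hq1' : (1 : ℝ) ≤ q := by exact_mod_cast hq1
  have h3 : Real.log 3 ≤ 3 / 2 := by
    have h4 : Real.log 3 ≤ Real.log (Real.exp (3 / 2)) := by
      refine Real.log_le_log (by norm_num) ?_
      have h5 : (2.7182818283 : ℝ) < Real.exp 1 := Real.exp_one_gt_d9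
      have h6 : Real.exp (3 / 2) = Real.exp 1 * Real.exp (1 / 2) := by
        rw [← Real.exp_add]
        norm_num
      have h7 : (1 : ℝ) / 2 + 1 ≤ Real.exp (1 / 2) := Real.add_one_le_exp _
      rw [h6]
      nlinarith
    rwa [Real.log_exp] at h4
  have hlq : Real.log ((q : ℝ) + 2) ≤ k := by
    have h4 : Real.log ((q : ℝ) + 2) ≤ Real.log (3 * q) :=
      Real.log_le_log (by linarith) (by linarith)
    rw [Real.log_mul (by norm_num) (by linarith)] at h4
    linarith
  have hlq0 : 0 ≤ Real.log ((q : ℝ) + 2) := Real.log_nonneg (by linarith)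
  have hpow : (q : ℝ) ^ (10 * (64 * Real.log k / k)) ≤ (k : ℝ) ^ 8 := by
    rw [Real.rpow_def_of_pos (by linarith)]
    have h5 : Real.log q * (10 * (64 * Real.log k / k)) ≤ 8 * Real.log k := by
      calc Real.log q * (10 * (64 * Real.log k / k))
          ≤ (k / 80) * (10 * (64 * Real.log k / k)) :=
            mul_le_mul_of_nonneg_right hq (by positivity)
        _ = 8 * Real.log k := by
            have : (k : ℝ) ≠ 0 := by linarith
            field_simp
            ring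
    calc Real.exp (Real.log q * (10 * (64 * Real.log k / k))) ≤ Real.exp (8 * Real.log k) :=
          Real.exp_le_exp.2 h5
      _ = (k : ℝ) ^ 8 := by
          rw [← Real.rpow_natCast, Real.rpow_def_of_pos (by linarith)]
          congr 1
          push_cast
          ring
  calc C * (Real.log (q + 2)) ^ 6 * (q : ℝ) ^ (10 * (64 * Real.log k / k))
      ≤ k * (k : ℝ) ^ 6 * (k : ℝ) ^ 8 := by
        refine mul_le_mul ?_ hpow (Real.rpow_nonneg (by linarith) _) (by positivity)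
        exact mul_le_mul hCk (pow_le_pow_left₀ hlq0 hlq 6) (by positivity) (by linarith)
    _ = (k : ℝ) ^ 15 := by ring

end Pool.Agent.GM
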