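import Mathlib
import Pool.Agent.Lib.MP_bae66e_nt.GM.C1
import Pool.Agent.Lib.MP_bae66e_nt.Mg.G033
import Pool.Agent.Lib.MP_bae66e_nt.GM.C3a

set_option autoImplicit false

namespace Pool.Agent.GM

private lemma c3b_asym (c₀ : ℝ) (hc₀ : 0 < c₀) : ∃ k₀ : ℕ, ∀ k : ℕ, k₀ ≤ k →
    2 + Real.sqrt k ≤ c₀ * k / (128 * (Real.log k) ^ 2) ∧
    1920 / c₀ * (Real.log k) ^ 3 + 1 ≤ (Real.log k) ^ 4 ∧ 1 ≤ Real.log k ∧ 9 ≤ k := by
  have h1 : ∀ᶠ x : ℝ in Filter.atTop, ‖Real.log x ^ 2‖ ≤ c₀ / 1536 * ‖id x‖ :=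
    (Real.isLittleO_pow_log_id_atTop (n := 2)).bound (by positivity)
  have h2 : Filter.Tendsto (fun k : ℕ => Real.sqrt k) Filter.atTop Filter.atTop :=
    Real.tendsto_sqrt_atTop.comp tendsto_natCast_atTop_atTop
  have h3 : Filter.Tendsto (fun k : ℕ => Real.log k) Filter.atTop Filter.atTop :=
    Real.tendsto_log_atTop.comp tendsto_natCast_atTop_atTop
  have h4 := h2.eventually h1
  have h5 := h3.eventually (Filter.eventually_ge_atTop (1920 / c₀ + 1))
  have h6 := Filter.eventually_ge_atTop 9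
  obtain ⟨k₀, hk₀⟩ := Filter.eventually_atTop.mp ((h4.and h5).and h6)
  refine ⟨k₀, fun k hk => ?_⟩
  obtain ⟨⟨g1, g2⟩, g3⟩ := hk₀ k hk
  have hk9 : (9 : ℝ) ≤ k := by exact_mod_cast g3
  have hk0 : (0 : ℝ) < k := by linarith
  have hc' : 0 < 1920 / c₀ := by positivity
  have hlog1 : 1 ≤ Real.log k := by linarith
  have hs0 : 0 < Real.sqrt k := Real.sqrt_pos.mpr hk0
  have hs3 : 3 ≤ Real.sqrt k := by
    rw [show (3 : ℝ) = Real.sqrt 9 by
      rw [show (9 : ℝ) = 3 ^ 2 by norm_num, Real.sqrt_sq (by norm_num)]]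
    exact Real.sqrt_le_sqrt hk9
  have hsq : Real.sqrt k * Real.sqrt k = k := Real.mul_self_sqrt hk0.le
  refine ⟨?_, ?_, hlog1, g3⟩
  · have e1 : Real.log (Real.sqrt k) = Real.log k / 2 := Real.log_sqrt hk0.le
    rw [e1, Real.norm_of_nonneg (by positivity), id, Real.norm_of_nonneg hs0.le] at g1
    have e2 : (Real.log k) ^ 2 ≤ c₀ / 384 * Real.sqrt k := by nlinarith
    rw [le_div_iff₀ (by positivity)]
    calc (2 + Real.sqrt k) * (128 * (Real.log k) ^ 2)
        ≤ (3 * Real.sqrt k) * (128 * (c₀ / 384 * Real.sqrt k)) := by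
          apply mul_le_mul _ _ (by positivity) (by positivity)
          · linarith
          · linarith
      _ = c₀ * (Real.sqrt k * Real.sqrt k) := by ring
      _ = c₀ * k := by rw [hsq]
  · have e1 : 1 ≤ (Real.log k) ^ 3 := one_le_pow₀ hlog1
    calc 1920 / c₀ * (Real.log k) ^ 3 + 1 ≤ (Real.log k) ^ 3 * (1920 / c₀ + 1) := by linarith
      _ ≤ (Real.log k) ^ 3 * Real.log k := mul_le_mul_of_nonneg_left g2 (by positivity)
      _ = (Real.log k) ^ 4 := by ring

/-- C3b. The bad characters with large conductor are hit by few primes.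
PROOF. `q = Mz z ∅`, `log q ≤ 2 z ≤ k/80` (`log_Mz_le`). `F` = the set of the bad `χ` mod `q` with
`c₀ k/(64 log k) ≤ log (cond χ + 2)`; `A χ` = the primes of `Pz z` dividing `cond χ`
(`cond χ ∣ q`, `DirichletCharacter.conductor_dvd_level`). By `log_le_of_dvd`,
`#(A χ) ≥ (log (cond χ + 2) - log 3)/log z - √z ≥ c₀ k/(128 (log k)^2) =: s` for large `k`
(`z ≤ k`, and `1 ≤ log z`, as `z ≥ √k` is large). `hitting` with `P = Pz z`, `#P ≤ z ≤ k`,
`#F ≤ k^15`: `#D ≤ (k/s) 15 log k + 1 = (1920/c₀) (log k)^3 + 1 ≤ (log k)^4`. -/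
lemma exists_D₀ (c₀ : ℝ) (hc₀ : 0 < c₀) : ∃ k₀ : ℕ, ∀ k : ℕ, k₀ ≤ k → ∀ z : ℕ,
    Real.sqrt k ≤ z → (z : ℝ) ≤ k / 160 →
    ∃ D₀ : Finset ℕ, D₀ ⊆ Pz z ∧ (D₀.card : ℝ) ≤ (Real.log k) ^ 4 ∧
      ∀ χ : DirichletCharacter ℂ (Mz z ∅), χ ≠ 1 →
        NearZero (Mz z ∅) χ (64 * Real.log k / k) →
        c₀ / (64 * Real.log k / k) ≤ Real.log (χ.conductor + 2) →
        ∃ p ∈ D₀, p ∣ χ.conductor := by
  classical
  obtain ⟨k₁, hk₁⟩ := bad_count
  obtain ⟨k₂, hk₂⟩ := c3b_asym c₀ hc₀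
  refine ⟨max k₁ k₂, fun k hk z hz1 hz2 => ?_⟩
  have hbad := hk₁ k (le_trans (le_max_left _ _) hk)
  obtain ⟨ha1, ha2, hlog1, hk9⟩ := hk₂ k (le_trans (le_max_right _ _) hk)
  have hk9R : (9 : ℝ) ≤ k := by exact_mod_cast hk9
  have hk0 : (0 : ℝ) < k := by linarith
  have hlog0 : 0 < Real.log k := by linarith
  have hs3 : 3 ≤ Real.sqrt k := by
    rw [show (3 : ℝ) = Real.sqrt 9 by
      rw [show (9 : ℝ) = 3 ^ 2 by norm_num, Real.sqrt_sq (by norm_num)]]
    exact Real.sqrt_le_sqrt hk9R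
  have hz3 : (3 : ℝ) ≤ z := hs3.trans hz1
  have hz0 : (0 : ℝ) < z := by linarith
  have hzk : (z : ℝ) ≤ k := by linarith
  have hzN : 1 ≤ z := by
    have : (1 : ℝ) ≤ z := by linarith
    exact_mod_cast this
  have hlz1 : 1 ≤ Real.log z := by
    rw [Real.le_log_iff_exp_le hz0]
    have := Real.exp_one_lt_d9
    linarith
  have hlzk : Real.log z ≤ Real.log k := Real.log_le_log hz0 hzk
  have hq : Real.log (Mz z ∅ : ℕ) ≤ k / 80 := by
    have := log_Mz_le z ∅
    linarith
  have hbad' := hbad (Mz z ∅) hq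
  set s : ℝ := c₀ * k / (128 * (Real.log k) ^ 2) with hs
  have hs0 : 0 < s := by positivity
  let _ : Fintype (DirichletCharacter ℂ (Mz z ∅)) := Fintype.ofFinite _
  set F : Finset (DirichletCharacter ℂ (Mz z ∅)) := Finset.univ.filter (fun χ => χ ≠ 1 ∧
    NearZero (Mz z ∅) χ (64 * Real.log k / k) ∧
    c₀ / (64 * Real.log k / k) ≤ Real.log (χ.conductor + 2)) with hF
  have hFc : (F.card : ℝ) ≤ (k : ℝ) ^ 15 := by
    refine le_trans ?_ hbad'
    rw [Nat.card_eq_fintype_card, Fintype.card_subtype]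
    norm_cast
    apply Finset.card_le_card
    intro χ hχ
    rw [hF, Finset.mem_filter] at hχ
    rw [Finset.mem_filter]
    exact ⟨Finset.mem_univ _, hχ.2.1, hχ.2.2.1⟩
  have hA : ∀ χ ∈ F, (Pz z).filter (fun p => p ∣ χ.conductor) ⊆ Pz z ∧
      s ≤ (((Pz z).filter (fun p => p ∣ χ.conductor)).card : ℝ) := by
    intro χ hχ
    rw [hF, Finset.mem_filter] at hχ
    obtain ⟨_, _, _, h3⟩ := hχ
    refine ⟨Finset.filter_subset _ _, ?_⟩
    have hdvd : χ.conductor ∣ Mz z ∅ := DirichletCharacter.conductor_dvd_level χ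
    have hd0 : 0 < χ.conductor := Nat.pos_of_dvd_of_pos hdvd (Mz_pos z ∅)
    have hd1 : (1 : ℝ) ≤ χ.conductor := by exact_mod_cast hd0
    have h4 := log_le_of_dvd z χ.conductor hzN hdvd
    have h5 : Real.log ((χ.conductor : ℝ) + 2) ≤ 2 + Real.log χ.conductor := by
      calc Real.log ((χ.conductor : ℝ) + 2) ≤ Real.log (3 * (χ.conductor : ℝ)) :=
            Real.log_le_log (by linarith) (by linarith)
        _ = Real.log 3 + Real.log χ.conductor := by
            rw [Real.log_mul (by norm_num) (by linarith)]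
        _ ≤ 2 + Real.log χ.conductor := by
            have := Real.log_le_sub_one_of_pos (show (0 : ℝ) < 3 by norm_num)
            linarith
    have h6 : c₀ / (64 * Real.log k / k) = 2 * s * Real.log k := by
      rw [hs]
      field_simp
      ring
    rw [h6] at h3
    set a : ℝ := (((Pz z).filter (fun p => p ∣ χ.conductor)).card : ℝ) with haa
    by_contra hcon
    push Not at hcon
    have h7 : 2 * s * Real.log k ≤ 2 + (Real.sqrt z + a) * Real.log z := by linarith
    have h8 : Real.sqrt z ≤ Real.sqrt k := Real.sqrt_le_sqrt hzk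
    have ha0 : 0 ≤ a := Nat.cast_nonneg _
    have h9 : (Real.sqrt z + a) * Real.log z ≤ (Real.sqrt k + a) * Real.log k := by
      apply mul_le_mul (by linarith) hlzk (by linarith) (by positivity)
    have h10 : (2 : ℝ) ≤ 2 * Real.log k := by linarith
    have h11 : 2 * s * Real.log k ≤ (2 + Real.sqrt k + a) * Real.log k := by
      have : (2 + Real.sqrt k + a) * Real.log k = 2 * Real.log k + (Real.sqrt k + a) * Real.log k := by
        ring
      linarith
    have h12 : 2 * s ≤ 2 + Real.sqrt k + a := le_of_mul_le_mul_right h11 hlog0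
    linarith
  obtain ⟨D, hD1, hD2, hD3⟩ := hitting F (fun χ => (Pz z).filter (fun p => p ∣ χ.conductor))
    (Pz z) s hs0 hA
  refine ⟨D, hD1, ?_, ?_⟩
  · refine hD2.trans (le_trans ?_ ha2)
    have hP : ((Pz z).card : ℝ) ≤ k := by
      have h1 : (Pz z).card ≤ z + 1 := by
        calc (Pz z).card ≤ (Finset.range (z + 1)).card := Finset.card_filter_le _ _
          _ = z + 1 := Finset.card_range _
      have h2 : ((Pz z).card : ℝ) ≤ z + 1 := by exact_mod_cast h1
      linarith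
    have hlF : Real.log F.card ≤ 15 * Real.log k := by
      rcases Nat.eq_zero_or_pos F.card with h0 | h0
      · rw [h0]
        simp
        linarith
      · have : (15 : ℝ) * Real.log k = Real.log ((k : ℝ) ^ 15) := by
          rw [Real.log_pow]
          norm_num
        rw [this]
        exact Real.log_le_log (by exact_mod_cast h0) hFc
    have h1 : ((Pz z).card / s) * Real.log F.card ≤ (k / s) * (15 * Real.log k) := by
      have h0 : (0 : ℝ) ≤ (Pz z).card / s := by positivity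
      calc ((Pz z).card / s) * Real.log F.card ≤ ((Pz z).card / s) * (15 * Real.log k) :=
            mul_le_mul_of_nonneg_left hlF h0
        _ ≤ (k / s) * (15 * Real.log k) := by
            apply mul_le_mul_of_nonneg_right _ (by positivity)
            exact div_le_div_of_nonneg_right hP hs0.le
    have h2 : (k / s) * (15 * Real.log k) = 1920 / c₀ * (Real.log k) ^ 3 := by
      rw [hs]
      field_simp
      ring
    linarith
  · intro χ h1 h2 h3
    have hχ : χ ∈ F := by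
      rw [hF, Finset.mem_filter]
      exact ⟨Finset.mem_univ _, h1, h2, h3⟩
    obtain ⟨p, hp, hpA⟩ := hD3 χ hχ
    exact ⟨p, hp, (Finset.mem_filter.mp hpA).2⟩

end Pool.Agent.GM
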