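import Mathlib
import Pool.Agent.Lib.MP_bae66e_nt.Mg.G033

set_option autoImplicit false

namespace Pool.Agent.GM

open Complex Metric Set

/-- S1a. A zero with positive real part comes from the primitive character.
PROOF. `DirichletCharacter.LFunction_changeLevel χ.conductor_dvd_level χ.primitiveCharacter`
(`χ.primitiveCharacter ≠ 1`, see the proof of `EM.zero_of_primitive` in
`Lib/MP_9cfc0a_nt/EMLfun.lean`), and every factor `1 - χ'(p) p^(-ρ)` is nonzero because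
`‖χ'(p) p^(-ρ)‖ ≤ p^(-re ρ) < 1`. -/
lemma zero_primitive (q : ℕ) [NeZero q] (χ : DirichletCharacter ℂ q) (hχ : χ ≠ 1)
    [NeZero χ.conductor] (ρ : ℂ) (h0 : 0 < ρ.re) (hρ : χ.LFunction ρ = 0) :
    χ.primitiveCharacter.LFunction ρ = 0 := by
  have h1 : χ.primitiveCharacter ≠ 1 := by
    intro h
    apply hχ
    rw [← χ.changeLevel_primitiveCharacter, h, DirichletCharacter.changeLevel_one]
  have h3 := DirichletCharacter.LFunction_changeLevel χ.conductor_dvd_level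
    χ.primitiveCharacter (s := ρ) (Or.inl h1)
  rw [χ.changeLevel_primitiveCharacter, hρ, eq_comm, mul_eq_zero] at h3
  refine h3.resolve_right ?_
  rw [Finset.prod_eq_zero_iff]
  rintro ⟨p, hp, h0⟩
  have hp2 := (Nat.prime_of_mem_primeFactors hp).one_lt
  have h4 : χ.primitiveCharacter p * (p : ℂ) ^ (-ρ) = 1 := by
    linear_combination -h0
  have h5 : ‖χ.primitiveCharacter p * (p : ℂ) ^ (-ρ)‖ < 1 := by
    rw [norm_mul]
    have h6 : ‖(p : ℂ) ^ (-ρ)‖ < 1 := by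
      rw [Complex.norm_natCast_cpow_of_pos (by omega), Complex.neg_re]
      exact Real.rpow_lt_one_of_one_lt_of_neg (by exact_mod_cast hp2) (by linarith)
    calc ‖χ.primitiveCharacter p‖ * ‖(p : ℂ) ^ (-ρ)‖ ≤ 1 * ‖(p : ℂ) ^ (-ρ)‖ :=
          mul_le_mul_of_nonneg_right (DirichletCharacter.norm_le_one _ _) (norm_nonneg _)
      _ < 1 := by rw [one_mul]; exact h6
  rw [h4, norm_one] at h5
  exact lt_irrefl _ h5

/-- S1b. Zeros persist under a change of level.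
PROOF. `DirichletCharacter.LFunction_changeLevel`. -/
lemma zero_changeLevel (d q : ℕ) [NeZero d] [NeZero q] (h : d ∣ q) (ψ : DirichletCharacter ℂ d)
    (hψ : ψ ≠ 1) (ρ : ℂ) (hρ : ψ.LFunction ρ = 0) :
    (DirichletCharacter.changeLevel h ψ).LFunction ρ = 0 := by
  have h3 := DirichletCharacter.LFunction_changeLevel h ψ (s := ρ) (Or.inl hψ)
  rw [h3, hρ, zero_mul]

/-- S1c. A zero of a nonprincipal L-function in the disc `‖ρ - 2‖ ≤ 1 + κ`, `κ ≤ 1/12`.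
PROOF. `ρ.re < 1` by `DirichletCharacter.LFunction_ne_zero_of_one_le_re` (`χ ≠ 1`). Then
`(2 - ρ.re) ^ 2 + ρ.im ^ 2 ≤ (1 + κ) ^ 2`, `1 < 2 - ρ.re`, so `2 - ρ.re ≤ 1 + κ` and
`ρ.im ^ 2 ≤ (1 + κ) ^ 2 - 1 ≤ 1`. -/
lemma nearZero_re_im (q : ℕ) [NeZero q] (χ : DirichletCharacter ℂ q) (hχ : χ ≠ 1) (κ : ℝ)
    (hκ : κ ≤ 1 / 12) (ρ : ℂ) (hρ : χ.LFunction ρ = 0) (h : ‖ρ - 2‖ ≤ 1 + κ) :
    1 - κ ≤ ρ.re ∧ ρ.re < 1 ∧ |ρ.im| ≤ 1 := by
  have h1 : ρ.re < 1 := by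
    by_contra hcon
    push Not at hcon
    exact DirichletCharacter.LFunction_ne_zero_of_one_le_re χ (Or.inl hχ) hcon hρ
  have h2 : (2 - ρ.re) ^ 2 + ρ.im ^ 2 ≤ (1 + κ) ^ 2 := by
    have e : ‖ρ - 2‖ ^ 2 = (2 - ρ.re) ^ 2 + ρ.im ^ 2 := by
      rw [← Complex.normSq_eq_norm_sq, Complex.normSq_apply]
      simp
      ring
    rw [← e]
    exact pow_le_pow_left₀ (norm_nonneg _) h 2
  have hκ0 : 0 ≤ 1 + κ := (norm_nonneg _).trans h
  have h4 : 2 - ρ.re ≤ 1 + κ := by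
    refine le_of_sq_le_sq ?_ hκ0
    nlinarith [sq_nonneg ρ.im]
  refine ⟨by linarith, h1, ?_⟩
  rw [← sq_le_one_iff_abs_le_one]
  nlinarith

end Pool.Agent.GM
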