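import Mathlib
import Pool.Agent.Lib.MP_bae66e_nt.Mg.G033

set_option autoImplicit false

namespace Pool.Agent.GM

open Complex Metric Set

private lemma z1_local (f : ℂ → ℂ) (c : ℂ) (T : ℝ) (hT : 1 ≤ T)
    (hf : AnalyticOnNhd ℂ f (closedBall c (39 / 20)))
    (hb : ∀ z ∈ closedBall c (39 / 20), ‖f z‖ ≤ Real.exp T) (hc : Real.exp (-T) ≤ ‖f c‖) :
    ∃ (n : ℕ) (ρ : Fin n → ℂ), (n : ℝ) ≤ 336000 * T ∧ (∀ j, f (ρ j) = 0) ∧
      (∀ z ∈ closedBall c (7 / 4), f z = 0 → ∃ j, ρ j = z) ∧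
      (∀ s : ℂ, ‖s - c‖ ≤ 17 / 10 → f s ≠ 0 →
        ‖logDeriv f s - ∑ j, (s - ρ j)⁻¹‖ ≤ 336000 * T) ∧
      ∀ k : ℕ, ‖iteratedDeriv k (logDeriv f) c / (k.factorial : ℂ)
        - (-1) ^ k * ∑ j, ((c - ρ j)⁻¹) ^ (k + 1)‖ ≤ 336000 * T * (10 / 17 : ℝ) ^ k := by
  have hfc : f c ≠ 0 := by
    intro h; rw [h, norm_zero] at hc
    linarith [Real.exp_pos (-T)]
  obtain ⟨n, ρ, g, hg, hfg, hρ, hg0⟩ := EM.factor_zeros f c (7 / 4) (39 / 20) (by norm_num)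
    (by norm_num) hf hfc
  obtain ⟨hn, hgb⟩ := EM.count_bound n f g ρ c T (by linarith) hg hfg hρ hb hc
  have hcc : c ∈ closedBall c (39 / 20) := mem_closedBall_self (by norm_num)
  have hρc : ∀ j, c ≠ ρ j := by
    intro j h
    apply hfc
    rw [hfg c hcc, Finset.prod_eq_zero (Finset.mem_univ j) (by rw [← h, sub_self]), zero_mul]
  have hsub : closedBall c (7 / 4) ⊆ closedBall c (39 / 20) :=
    closedBall_subset_closedBall (by norm_num)
  refine ⟨n, ρ, by linarith, fun j => ?_, fun z hz hfz => ?_, fun s hs hfs => ?_, fun k => ?_⟩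
  · rw [hfg _ (hsub (hρ j)), Finset.prod_eq_zero (Finset.mem_univ j) (sub_self _), zero_mul]
  · rw [hfg z (hsub hz)] at hfz
    rcases mul_eq_zero.mp hfz with h | h
    · obtain ⟨j, _, hj⟩ := Finset.prod_eq_zero_iff.mp h
      exact ⟨j, (sub_eq_zero.mp hj).symm⟩
    · exact absurd h (hg0 z hz)
  · have hsubs : closedBall s (1 / 4) ⊆ closedBall c (39 / 20) := by
      intro w hw
      rw [mem_closedBall, dist_eq_norm] at hw ⊢
      calc ‖w - c‖ = ‖(w - s) + (s - c)‖ := by ring_nf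
        _ ≤ ‖w - s‖ + ‖s - c‖ := norm_add_le _ _
        _ ≤ 39 / 20 := by linarith
    have hsc : s ∈ closedBall c (7 / 4) := by
      rw [mem_closedBall, dist_eq_norm]
      linarith
    have hρs : ∀ j, s ≠ ρ j := by
      intro j h
      apply hfs
      rw [hfg s (hsub hsc), Finset.prod_eq_zero (Finset.mem_univ j) (by rw [← h, sub_self]),
        zero_mul]
    have h1 := EM.iteratedDeriv_logDeriv_prod n f g ρ s (1 / 4) (by norm_num)
      (fun z hz => hg z (hsubs hz)) (hg0 s hsc) (fun z hz => hfg z (hsubs hz)) hρs 0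
    simp only [iteratedDeriv_zero] at h1
    have hball : ball c (7 / 4) ⊆ closedBall c (39 / 20) :=
      ball_subset_closedBall.trans hsub
    have h2 := MC.logDeriv_bound g c (7 / 4) (60 * T) (1 / 20) (by linarith) (by norm_num)
      (by norm_num) (hg.differentiableOn.mono hball)
      (fun z hz => hg0 z (ball_subset_closedBall hz)) (fun z hz => hgb z (hball hz)) s
      (by rw [dist_eq_norm]; linarith)
    rw [h1, add_sub_cancel_left, logDeriv_apply]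
    refine h2.trans (le_of_eq ?_)
    ring
  · have hk : ((k.factorial : ℕ) : ℂ) ≠ 0 := by exact_mod_cast k.factorial_ne_zero
    have h1 := EM.iteratedDeriv_logDeriv_prod n f g ρ c (39 / 20) (by norm_num) hg
      (hg0 c (mem_closedBall_self (by norm_num))) hfg hρc k
    have h2 : iteratedDeriv k (logDeriv f) c / (k.factorial : ℂ)
        - (-1) ^ k * ∑ j, ((c - ρ j)⁻¹) ^ (k + 1)
        = iteratedDeriv k (logDeriv g) c / (k.factorial : ℂ) := by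
      rw [h1, Finset.sum_congr rfl (fun j _ => EM.iteratedDeriv_inv_sub (ρ j) c (hρc j) k),
        ← Finset.mul_sum]
      field_simp
      ring
    rw [h2]
    refine (EM.coeff_g g c (60 * T) (by linarith) hg hg0 hgb k).trans (le_of_eq ?_)
    ring

/-- Z1. Local structure of `FF q χ` (the L-function, times `s - 1` for `χ = 1`) around `2 + it`,
`|t| ≤ 2`.
PROOF. Copy the proof of `Pool.Agent.EM.local_zeros` (file `Lib/MP_9cfc0a_nt/EMZeros.lean`).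
Put `f = MC.FF q χ` (entire: `MC.FF_differentiable`), `c = 2 + t I`,
`T = 8 * Real.log (q + 2)`. On `closedBall c (39/20)` one has `1/20 ≤ re`, `‖z‖ ≤ 6`, so by
`EM.FF_growth` `‖f z‖ ≤ (40 q + 21) * 49 ≤ (q+2)^8 = exp T` (note `(q : ℝ) + 2 ≥ 3`,
`3^7 = 2187 ≥ 49 * 40`), and `exp (-T) ≤ 1/3 ≤ ‖f c‖` by `EM.ZD_FF_lower`.
`EM.factor_zeros f c (7/4) (39/20)` gives `ρ`, `g`; `EM.count_bound` gives `n ≤ 20 T` and
`‖g z‖ ≤ exp (60 T) ‖g c‖`. The zeros `ρ j` have `re < 1` by `EM.ZD_FF_ne`. For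
`‖s - c‖ ≤ 17/10`: `MC.logDeriv_bound g c (7/4) (60 T) (1/20)` gives `‖logDeriv g s‖ ≤ C T`, and
near `s` `f = (∏ j, (z - ρ j)) * g`, all factors nonzero at `s` because `f s ≠ 0` for
`1 ≤ re s` (`EM.ZD_FF_ne`), so `logDeriv f s = ∑ j, (s - ρ j)⁻¹ + logDeriv g s`.
The statement on iterated derivatives at `c` is exactly `EM.local_zeros` (same `ρ`; repeat its
last lines: `EM.iteratedDeriv_logDeriv_prod`, `EM.iteratedDeriv_inv_sub`, `EM.coeff_g`). -/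
lemma local_log : ∃ C : ℝ, 1 ≤ C ∧ ∀ (q : ℕ) [NeZero q] (χ : DirichletCharacter ℂ q) (t : ℝ),
    |t| ≤ 2 → ∃ (n : ℕ) (ρ : Fin n → ℂ), (n : ℝ) ≤ C * Real.log (q + 2) ∧
      (∀ j, MC.FF q χ (ρ j) = 0) ∧ (∀ j, (ρ j).re < 1) ∧
      (∀ z : ℂ, ‖z - (2 + t * I)‖ ≤ 7 / 4 → MC.FF q χ z = 0 → ∃ j, ρ j = z) ∧
      (∀ s : ℂ, ‖s - (2 + t * I)‖ ≤ 17 / 10 → 1 ≤ s.re →
        ‖logDeriv (MC.FF q χ) s - ∑ j, (s - ρ j)⁻¹‖ ≤ C * Real.log (q + 2)) ∧
      (∀ k : ℕ, ‖iteratedDeriv k (logDeriv (MC.FF q χ)) (2 + t * I) / (k.factorial : ℂ)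
        - (-1) ^ k * ∑ j, ((2 + t * I - ρ j)⁻¹) ^ (k + 1)‖
          ≤ C * Real.log (q + 2) * (10 / 17 : ℝ) ^ k) := by
  refine ⟨2688000, by norm_num, fun q _ χ t ht => ?_⟩
  have hq1 : (1 : ℝ) ≤ q := by exact_mod_cast NeZero.one_le
  have hq3 : (3 : ℝ) ≤ (q : ℝ) + 2 := by linarith
  have hq0 : (0 : ℝ) < (q : ℝ) + 2 := by linarith
  have hlog1 : 1 ≤ Real.log ((q : ℝ) + 2) := by
    rw [Real.le_log_iff_exp_le hq0]
    have := Real.exp_one_lt_d9
    linarith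
  have hexp : Real.exp (8 * Real.log ((q : ℝ) + 2)) = ((q : ℝ) + 2) ^ 8 := by
    rw [mul_comm, Real.exp_mul, Real.exp_log hq0]
    norm_cast
  have hf : AnalyticOnNhd ℂ (MC.FF q χ) (closedBall (2 + t * I) (39 / 20)) := by
    intro z _
    exact (MC.FF_differentiable q χ).analyticAt z
  have hre : ∀ z ∈ closedBall ((2 : ℂ) + t * I) (39 / 20), 1 / 20 ≤ z.re := by
    intro z hz
    rw [mem_closedBall, dist_eq_norm] at hz
    have h1 := (abs_le.mp ((Complex.abs_re_le_norm (z - (2 + t * I))).trans hz)).1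
    simp at h1
    linarith
  have hnorm : ∀ z ∈ closedBall ((2 : ℂ) + t * I) (39 / 20), ‖z‖ ≤ 6 := by
    intro z hz
    rw [mem_closedBall, dist_eq_norm] at hz
    have h1 : ‖((2 : ℂ) + t * I)‖ ≤ 4 := by
      calc ‖((2 : ℂ) + t * I)‖ ≤ ‖(2 : ℂ)‖ + ‖(t : ℂ) * I‖ := norm_add_le _ _
        _ = 2 + |t| := by
            rw [norm_mul, Complex.norm_I, mul_one, Complex.norm_real, Real.norm_eq_abs]
            simp
        _ ≤ 4 := by linarith
    calc ‖z‖ = ‖(z - (2 + t * I)) + (2 + t * I)‖ := by ring_nf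
      _ ≤ ‖z - (2 + t * I)‖ + ‖((2 : ℂ) + t * I)‖ := norm_add_le _ _
      _ ≤ 6 := by linarith
  have hb : ∀ z ∈ closedBall ((2 : ℂ) + t * I) (39 / 20),
      ‖MC.FF q χ z‖ ≤ Real.exp (8 * Real.log ((q : ℝ) + 2)) := by
    intro z hz
    rw [hexp]
    have h1 := EM.FF_growth q χ z (hre z hz)
    have h2 := hnorm z hz
    have h3 : (‖z‖ + 1) ^ 2 ≤ 49 := by
      have := norm_nonneg z
      nlinarith
    have h4 : (3 : ℝ) ^ 7 ≤ ((q : ℝ) + 2) ^ 7 := pow_le_pow_left₀ (by norm_num) hq3 7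
    calc ‖MC.FF q χ z‖ ≤ (40 * q + 21) * (‖z‖ + 1) ^ 2 := h1
      _ ≤ (40 * q + 21) * 49 := mul_le_mul_of_nonneg_left h3 (by positivity)
      _ ≤ ((q : ℝ) + 2) * 3 ^ 7 := by norm_num; linarith
      _ ≤ ((q : ℝ) + 2) * ((q : ℝ) + 2) ^ 7 := mul_le_mul_of_nonneg_left h4 hq0.le
      _ = ((q : ℝ) + 2) ^ 8 := by ring
  have hlow : Real.exp (-(8 * Real.log ((q : ℝ) + 2))) ≤ ‖MC.FF q χ (2 + t * I)‖ := by
    have h1 := EM.ZD_FF_lower q χ (2 + t * I) (by simp)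
    refine le_trans ?_ h1
    rw [Real.exp_neg, hexp, one_div]
    apply inv_anti₀ (by norm_num)
    calc (3 : ℝ) ≤ 3 ^ 8 := by norm_num
      _ ≤ ((q : ℝ) + 2) ^ 8 := pow_le_pow_left₀ (by norm_num) hq3 8
  obtain ⟨n, ρ, h1, h2, h3, h4, h5⟩ := z1_local (MC.FF q χ) (2 + t * I)
    (8 * Real.log ((q : ℝ) + 2)) (by linarith) hf hb hlow
  refine ⟨n, ρ, h1.trans (le_of_eq (by ring)), h2, ?_, ?_, ?_, ?_⟩
  · intro j
    by_contra hcon
    push Not at hcon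
    exact EM.ZD_FF_ne q χ (ρ j) hcon (h2 j)
  · intro z hz hz0
    exact h3 z (by rw [mem_closedBall, dist_eq_norm]; exact hz) hz0
  · intro s hs hs1
    exact (h4 s hs (EM.ZD_FF_ne q χ s hs1)).trans (le_of_eq (by ring))
  · intro k
    exact (h5 k).trans (le_of_eq (by ring))

end Pool.Agent.GM
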