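import Mathlib
import Pool.Agent.Lib.MP_bae66e_nt.GM.Z1

set_option autoImplicit false

namespace Pool.Agent.GM

open Complex Metric Set

/-- Z2. PROOF. Take `C`, `n`, `ρ` from `local_log` at `s = σ + t I` (so `‖s - (2 + t I)‖ = 2 - σ
≤ 1 ≤ 17/10`, `1 ≤ re s`). Every `((s - ρ j)⁻¹).re = (σ - re (ρ j)) / ‖s - ρ j‖ ^ 2 ≥ 0` because
`re (ρ j) < 1 < σ`. Every element of `S` is some `ρ j` (fourth item of `local_log`); choose such a
`j` for each element of `S`: an injective map, so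
`∑ ρ ∈ S, ((s - ρ)⁻¹).re ≤ ∑ j, ((s - ρ j)⁻¹).re`. Finally
`- (logDeriv f s).re ≤ C log (q+2) - (∑ j, (s - ρ j)⁻¹).re`. -/
lemma neg_re_le : ∃ C : ℝ, 1 ≤ C ∧ ∀ (q : ℕ) [NeZero q] (χ : DirichletCharacter ℂ q) (t σ : ℝ),
    |t| ≤ 2 → 1 < σ → σ ≤ 2 →
    ∀ S : Finset ℂ, (∀ ρ ∈ S, MC.FF q χ ρ = 0 ∧ ‖ρ - (2 + t * I)‖ ≤ 7 / 4) →
      -(logDeriv (MC.FF q χ) (σ + t * I)).re
        ≤ C * Real.log (q + 2) - ∑ ρ ∈ S, (((σ : ℂ) + t * I - ρ)⁻¹).re := by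
  obtain ⟨C, hC1, hC⟩ := local_log
  refine ⟨C, hC1, ?_⟩
  intro q _ χ t σ ht hσ1 hσ2 S hS
  obtain ⟨n, ρ, -, -, hre, hcov, hlog, -⟩ := hC q χ t ht
  have hsub : ((σ : ℂ) + t * I) - (2 + t * I) = ((σ - 2 : ℝ) : ℂ) := by
    push_cast
    ring
  have hs : ‖((σ : ℂ) + t * I) - (2 + t * I)‖ ≤ 17 / 10 := by
    rw [hsub, Complex.norm_real, Real.norm_eq_abs, abs_le]
    constructor <;> linarith
  have hsre0 : ((σ : ℂ) + t * I).re = σ := by simp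
  have h1 := hlog ((σ : ℂ) + t * I) hs (by rw [hsre0]; exact hσ1.le)
  have h2 := (Complex.abs_re_le_norm _).trans h1
  rw [Complex.sub_re, abs_le] at h2
  have hnn : ∀ j, 0 ≤ (((σ : ℂ) + t * I - ρ j)⁻¹).re := by
    intro j
    rw [Complex.inv_re]
    refine div_nonneg ?_ (Complex.normSq_nonneg _)
    rw [Complex.sub_re, hsre0]
    have := hre j
    linarith
  have hex : ∀ x ∈ S, ∃ j, ρ j = x := fun x hx => hcov x (hS x hx).2 (hS x hx).1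
  have h3 : ∑ x ∈ S, (((σ : ℂ) + t * I - x)⁻¹).re ≤
      ∑ j, (((σ : ℂ) + t * I - ρ j)⁻¹).re := by
    classical
    rcases S.eq_empty_or_nonempty with hSe | ⟨x0, hx0⟩
    · rw [hSe, Finset.sum_empty]
      exact Finset.sum_nonneg fun j _ => hnn j
    · have : Nonempty (Fin n) := ⟨(hex x0 hx0).choose⟩
      choose! g hg using hex
      have hinj : Set.InjOn g S := by
        intro x hx y hy hxy
        rw [← hg x hx, ← hg y hy, hxy]
      calc ∑ x ∈ S, (((σ : ℂ) + t * I - x)⁻¹).re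
          = ∑ x ∈ S, (((σ : ℂ) + t * I - ρ (g x))⁻¹).re :=
            Finset.sum_congr rfl fun x hx => by rw [hg x hx]
        _ = ∑ j ∈ S.image g, (((σ : ℂ) + t * I - ρ j)⁻¹).re := by
            rw [Finset.sum_image hinj]
        _ ≤ ∑ j, (((σ : ℂ) + t * I - ρ j)⁻¹).re :=
            Finset.sum_le_univ_sum_of_nonneg hnn
  have h4 : (∑ j, ((σ : ℂ) + t * I - ρ j)⁻¹).re = ∑ j, (((σ : ℂ) + t * I - ρ j)⁻¹).re :=
    Complex.re_sum _ _
  rw [h4] at h2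
  linarith [h2.1]

end Pool.Agent.GM
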