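import Mathlib
import Pool.Agent.Lib.MP_bae66e_nt.Mg.G033

set_option autoImplicit false

namespace Pool.Agent.GM

open Complex Metric Set

lemma Z3_aux (q : ℕ) [NeZero q] (χ : DirichletCharacter ℂ q) (s : ℂ)
    (hs : 1 < s.re) : DD q χ s = - (deriv χ.LFunction s / χ.LFunction s) := by
  have h1 : DD q χ s = LSeries ((fun n : ℕ => χ n) *
      (fun n : ℕ => ((ArithmeticFunction.vonMangoldt n : ℝ) : ℂ))) s := rfl
  rw [h1, DirichletCharacter.LSeries_twist_vonMangoldt_eq χ hs]
  have hev : LSeries (fun n : ℕ => χ n) =ᶠ[nhds s] χ.LFunction := by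
    have hopen : IsOpen {z : ℂ | 1 < z.re} := isOpen_lt continuous_const Complex.continuous_re
    filter_upwards [hopen.mem_nhds hs] with z hz
    exact (DirichletCharacter.LFunction_eq_LSeries χ hz).symm
  rw [hev.deriv_eq, hev.eq_of_nhds, neg_div]

/-- Z3a. PROOF. `DirichletCharacter.LSeries_twist_vonMangoldt_eq` (in Mathlib,
`NumberTheory/LSeries/Dirichlet.lean`) gives `LSeries (χ Λ) s = - deriv (LSeries χ) s / LSeries χ s`;
near `s` (in `1 < re`) `LSeries χ = χ.LFunction` (`DirichletCharacter.LFunction_eq_LSeries`,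
an open condition, so the derivatives agree) and `χ.LFunction = MC.FF q χ` (`MC.FF_of_ne`). -/
lemma DD_eq_of_ne (q : ℕ) [NeZero q] (χ : DirichletCharacter ℂ q) (hχ : χ ≠ 1) (s : ℂ)
    (hs : 1 < s.re) : DD q χ s = - logDeriv (MC.FF q χ) s := by
  rw [Z3_aux q χ s hs, MC.FF_of_ne q χ hχ, logDeriv_apply]

/-- Z3b. PROOF. As Z3a; near `s` `MC.FF q 1 z = (z - 1) * LFunction 1 z` (`MC.FF_one_apply`), hence
`logDeriv (MC.FF q 1) s = (s - 1)⁻¹ + logDeriv (LFunction 1) s` (`logDeriv_mul`; the L-function does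
not vanish at `s`). -/
lemma DD_eq_one (q : ℕ) [NeZero q] (s : ℂ) (hs : 1 < s.re) :
    DD q 1 s = - logDeriv (MC.FF q 1) s + (s - 1)⁻¹ := by
  have hs1 : s ≠ 1 := by
    intro h; rw [h] at hs; simp at hs
  have hs2 : s - 1 ≠ 0 := sub_ne_zero.mpr hs1
  have hL : (1 : DirichletCharacter ℂ q).LFunction s ≠ 0 := by
    rw [DirichletCharacter.LFunction_eq_LSeries _ hs]
    exact DirichletCharacter.LSeries_ne_zero_of_one_lt_re _ hs
  have hdL : DifferentiableAt ℂ (1 : DirichletCharacter ℂ q).LFunction s :=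
    DirichletCharacter.differentiableAt_LFunction _ s (Or.inl hs1)
  have hev : MC.FF q 1 =ᶠ[nhds s] fun z => (z - 1) * (1 : DirichletCharacter ℂ q).LFunction z := by
    filter_upwards [isOpen_ne.mem_nhds hs1] with z hz
    exact MC.FF_one_apply q z hz
  rw [Z3_aux q 1 s hs, logDeriv_apply, hev.deriv_eq, hev.eq_of_nhds, ← logDeriv_apply,
    ← logDeriv_apply (fun z => (z - 1) * (1 : DirichletCharacter ℂ q).LFunction z),
    logDeriv_mul s hs2 hL (by fun_prop) hdL]
  have : logDeriv (fun z : ℂ => z - 1) s = (s - 1)⁻¹ := by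
    rw [logDeriv_apply]
    simp
  rw [this]
  ring

end Pool.Agent.GM
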