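import Mathlib
import Pool.Agent.Lib.MP_bae66e_nt.GM.Z2
import Pool.Agent.Lib.MP_bae66e_nt.GM.Z3

set_option autoImplicit false

namespace Pool.Agent.GM

open Complex Metric Set

/-- Z4. PROOF. Combine `neg_re_le` (Z2) with `DD_eq_of_ne`, `DD_eq_one` (Z3). -/
lemma reBound_exists : ∃ C : ℝ, ReBound C := by
  obtain ⟨C, hC, h⟩ := neg_re_le
  refine ⟨C, hC, fun q _ χ t σ ht h1 h2 S hS => ⟨fun hχ => ?_, fun hχ => ?_⟩⟩
  · have hs : 1 < ((σ : ℂ) + t * I).re := by simpa using h1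
    rw [DD_eq_of_ne q χ hχ _ hs, Complex.neg_re]
    exact h q χ t σ ht h1 h2 S hS
  · subst hχ
    have hs : 1 < ((σ : ℂ) + t * I).re := by simpa using h1
    rw [DD_eq_one q _ hs, Complex.add_re, Complex.neg_re]
    have := h q 1 t σ ht h1 h2 S hS
    linarith

end Pool.Agent.GM
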