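import Mathlib
import Pool.Agent.Lib.MP_bae66e_nt.Mg.G033

set_option autoImplicit false

namespace Pool.Agent.GM

open Complex Metric Set

private lemma z5_hasSum (q : ℕ) (χ : DirichletCharacter ℂ q) (s : ℂ) (hs : 1 < s.re) :
    HasSum (fun n => (LSeries.term (fun n => χ n * ((vM n : ℝ) : ℂ)) s n).re) (DD q χ s).re := by
  have h : LSeriesSummable (fun n => χ n * ((vM n : ℝ) : ℂ)) s :=
    DirichletCharacter.LSeriesSummable_twist_vonMangoldt χ hs
  exact Complex.hasSum_re h.hasSum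

private lemma z5_term (q : ℕ) (χ : DirichletCharacter ℂ q) (σ t : ℝ) (n : ℕ) (hn : n ≠ 0) :
    LSeries.term (fun n => χ n * ((vM n : ℝ) : ℂ)) (σ + t * I) n =
      ((vM n * (n : ℝ) ^ (-σ) : ℝ) : ℂ) * (χ n * (n : ℂ) ^ (-(t * I))) := by
  have hn' : (n : ℂ) ≠ 0 := by exact_mod_cast hn
  rw [LSeries.term_of_ne_zero hn, div_eq_mul_inv, ← Complex.cpow_neg, neg_add,
    Complex.cpow_add _ _ hn']
  have h1 : (((n : ℝ) ^ (-σ) : ℝ) : ℂ) = (n : ℂ) ^ (-(σ : ℂ)) := by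
    rw [Complex.ofReal_cpow (Nat.cast_nonneg n)]
    push_cast
    rfl
  rw [Complex.ofReal_mul, h1]
  ring

private lemma z5_term0 (q : ℕ) (χ : DirichletCharacter ℂ q) (σ : ℝ) (n : ℕ) (hn : n ≠ 0) :
    LSeries.term (fun n => χ n * ((vM n : ℝ) : ℂ)) σ n =
      ((vM n * (n : ℝ) ^ (-σ) : ℝ) : ℂ) * χ n := by
  have h := z5_term q χ σ 0 n hn
  simpa using h

private lemma z5_r (n : ℕ) (σ : ℝ) : 0 ≤ vM n * (n : ℝ) ^ (-σ) :=
  mul_nonneg ArithmeticFunction.vonMangoldt_nonneg (Real.rpow_nonneg (Nat.cast_nonneg n) _)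

/-- Z5a. PROOF. For `σ > 1` all series converge absolutely (`|χ(n)| ≤ 1`,
`ArithmeticFunction.LSeriesSummable_vonMangoldt`), and `re` of the sum is the sum of `re`. The
coefficient of `Λ(n) n^(-σ) ≥ 0` is `3 χ₀(n) + 4 re (χ(n) n^(-it)) + re (χ(n)^2 n^(-2it))`. If `n` is
coprime to `q` (`χ₀(n) = 1`, `‖χ(n)‖ = 1`), with `w = χ(n) n^(-it)`, `‖w‖ = 1`, it equals
`3 + 4 re w + re (w^2) = 2 (1 + re w)^2 ≥ 0` (`re (w^2) = 2 (re w)^2 - 1`). Otherwise it is `0`. -/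
lemma three_four_one (q : ℕ) [NeZero q] (χ : DirichletCharacter ℂ q) (σ t : ℝ) (hσ : 1 < σ) :
    0 ≤ 3 * (DD q 1 σ).re + 4 * (DD q χ (σ + t * I)).re
      + (DD q (χ ^ 2) (σ + (2 * t : ℝ) * I)).re := by
  have h1 := z5_hasSum q 1 (σ : ℂ) (by simpa using hσ)
  have h2 := z5_hasSum q χ (σ + t * I) (by simpa using hσ)
  have h3 := z5_hasSum q (χ ^ 2) (σ + (2 * t : ℝ) * I) (by simpa using hσ)
  refine HasSum.nonneg ?_ (((h1.mul_left 3).add (h2.mul_left 4)).add h3)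
  intro n
  by_cases hn : n = 0
  · subst hn
    simp
  rw [z5_term0 q 1 σ n hn, z5_term q χ σ t n hn, z5_term q (χ ^ 2) σ (2 * t) n hn]
  rw [Complex.re_ofReal_mul, Complex.re_ofReal_mul, Complex.re_ofReal_mul]
  have hr := z5_r n σ
  by_cases hu : IsUnit (n : ZMod q)
  · have hn0 : 0 < n := Nat.pos_of_ne_zero hn
    have hn' : (n : ℂ) ≠ 0 := by exact_mod_cast hn
    have e1 : (1 : DirichletCharacter ℂ q) n = 1 := MulChar.one_apply hu
    set w : ℂ := χ n * (n : ℂ) ^ (-(t * I)) with hw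
    have e2 : (χ ^ 2) n * (n : ℂ) ^ (-((2 * t : ℝ) * I)) = w ^ 2 := by
      rw [hw, mul_pow, MulChar.pow_apply' χ two_ne_zero, ← Complex.cpow_nat_mul]
      congr 2
      push_cast
      ring
    have e3 : ‖w‖ = 1 := by
      rw [hw, norm_mul, Complex.norm_natCast_cpow_of_pos hn0]
      have : ‖χ n‖ = 1 := by
        obtain ⟨u, hu'⟩ := hu
        rw [← hu']
        exact χ.unit_norm_eq_one u
      rw [this]
      simp
    have e4 : w.re ^ 2 + w.im ^ 2 = 1 := by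
      have := Complex.sq_norm w
      rw [e3, Complex.normSq_apply] at this
      nlinarith
    rw [e1, e2, Complex.one_re]
    have e5 : (w ^ 2).re = w.re ^ 2 - w.im ^ 2 := by
      rw [sq, Complex.mul_re]
      ring
    rw [e5]
    have e6 : 3 * (vM n * (n : ℝ) ^ (-σ) * 1) + 4 * (vM n * (n : ℝ) ^ (-σ) * w.re) +
        vM n * (n : ℝ) ^ (-σ) * (w.re ^ 2 - w.im ^ 2) =
        vM n * (n : ℝ) ^ (-σ) * (2 * (1 + w.re) ^ 2) := by
      have : w.im ^ 2 = 1 - w.re ^ 2 := by linarith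
      rw [this]
      ring
    rw [e6]
    positivity
  · have e1 : (1 : DirichletCharacter ℂ q) n = 0 := MulChar.map_nonunit _ hu
    have e2 : χ n = 0 := MulChar.map_nonunit _ hu
    have e3 : (χ ^ 2) n = 0 := MulChar.map_nonunit _ hu
    rw [e1, e2, e3]
    simp

/-- Z5b. PROOF. As Z5a: the coefficient of `Λ(n) n^(-σ)` is `χ₀(n) + re χ(n)`; for `n` coprime to `q`
`χ(n)^2 = 1`, so `χ(n) = ±1`, and the coefficient is `≥ 0`; otherwise it is `0`. -/
lemma pos_two (q : ℕ) [NeZero q] (χ : DirichletCharacter ℂ q) (h2 : χ ^ 2 = 1) (σ : ℝ)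
    (hσ : 1 < σ) : 0 ≤ (DD q 1 σ).re + (DD q χ σ).re := by
  have h1 := z5_hasSum q 1 (σ : ℂ) (by simpa using hσ)
  have h2' := z5_hasSum q χ (σ : ℂ) (by simpa using hσ)
  refine HasSum.nonneg ?_ (h1.add h2')
  intro n
  by_cases hn : n = 0
  · subst hn
    simp
  rw [z5_term0 q 1 σ n hn, z5_term0 q χ σ n hn]
  rw [Complex.re_ofReal_mul, Complex.re_ofReal_mul]
  have hr := z5_r n σ
  by_cases hu : IsUnit (n : ZMod q)
  · have e1 : (1 : DirichletCharacter ℂ q) n = 1 := MulChar.one_apply hu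
    have e2 : -1 ≤ (χ n).re := by
      have := (abs_le.mp ((Complex.abs_re_le_norm (χ n)).trans (χ.norm_le_one n))).1
      exact this
    rw [e1, Complex.one_re, ← mul_add]
    exact mul_nonneg hr (by linarith)
  · have e1 : (1 : DirichletCharacter ℂ q) n = 0 := MulChar.map_nonunit _ hu
    have e2 : χ n = 0 := MulChar.map_nonunit _ hu
    rw [e1, e2]
    simp

/-- Z5c. PROOF. As Z5b: the coefficient is `(1 + χ(n)) (1 + χ'(n)) ≥ 0` for `n` coprime to `q`. -/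
lemma pos_four (q : ℕ) [NeZero q] (χ χ' : DirichletCharacter ℂ q) (h2 : χ ^ 2 = 1)
    (h2' : χ' ^ 2 = 1) (σ : ℝ) (hσ : 1 < σ) :
    0 ≤ (DD q 1 σ).re + (DD q χ σ).re + (DD q χ' σ).re + (DD q (χ * χ') σ).re := by
  have h1 := z5_hasSum q 1 (σ : ℂ) (by simpa using hσ)
  have h3 := z5_hasSum q χ (σ : ℂ) (by simpa using hσ)
  have h4 := z5_hasSum q χ' (σ : ℂ) (by simpa using hσ)
  have h5 := z5_hasSum q (χ * χ') (σ : ℂ) (by simpa using hσ)
  refine HasSum.nonneg ?_ (((h1.add h3).add h4).add h5)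
  intro n
  by_cases hn : n = 0
  · subst hn
    simp
  rw [z5_term0 q 1 σ n hn, z5_term0 q χ σ n hn, z5_term0 q χ' σ n hn, z5_term0 q (χ * χ') σ n hn]
  rw [Complex.re_ofReal_mul, Complex.re_ofReal_mul, Complex.re_ofReal_mul, Complex.re_ofReal_mul]
  have hr := z5_r n σ
  by_cases hu : IsUnit (n : ZMod q)
  · have e1 : (1 : DirichletCharacter ℂ q) n = 1 := MulChar.one_apply hu
    have e2 : χ n ^ 2 = 1 := by
      rw [← MulChar.pow_apply' χ two_ne_zero, h2]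
      exact e1
    have e3 : χ' n ^ 2 = 1 := by
      rw [← MulChar.pow_apply' χ' two_ne_zero, h2']
      exact e1
    rw [e1, MulChar.mul_apply]
    rcases sq_eq_one_iff.mp e2 with h | h <;>
      rcases sq_eq_one_iff.mp e3 with h' | h' <;> rw [h, h'] <;> simp <;> linarith
  · have e1 : (1 : DirichletCharacter ℂ q) n = 0 := MulChar.map_nonunit _ hu
    have e2 : χ n = 0 := MulChar.map_nonunit _ hu
    have e3 : χ' n = 0 := MulChar.map_nonunit _ hu
    have e4 : (χ * χ') n = 0 := MulChar.map_nonunit _ hu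
    rw [e1, e2, e3, e4]
    simp

end Pool.Agent.GM
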