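import Mathlib
import Pool.Agent.Lib.MP_bae66e_nt.GM.Z5

set_option autoImplicit false

namespace Pool.Agent.GM

open Complex Metric Set

private lemma aux_inv_re (x y : ℝ) : (((x : ℂ) + y * I)⁻¹).re = x / (x ^ 2 + y ^ 2) := by
  rw [Complex.inv_re, Complex.normSq_apply]
  simp
  ring_nf

private lemma aux_inv_re0 (x : ℝ) : (((x : ℂ))⁻¹).re = 1 / x := by
  rw [← Complex.ofReal_inv, Complex.ofReal_re, one_div]

private lemma aux_A (C : ℝ) (hC : 1 ≤ C) (q : ℕ) [NeZero q] : 1 ≤ C * Real.log (q + 2) := by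
  have hq : (1 : ℝ) ≤ q := by exact_mod_cast NeZero.one_le
  have h1 : (1 : ℝ) ≤ Real.log (q + 2) := by
    rw [Real.le_log_iff_exp_le (by linarith)]
    have := Real.exp_one_lt_d9
    linarith
  exact one_le_mul_of_one_le_of_one_le hC h1

private lemma aux_re_lt (q : ℕ) [NeZero q] (χ : DirichletCharacter ℂ q)
    (hχ : χ ≠ 1) (ρ : ℂ) (hρ : χ.LFunction ρ = 0) : ρ.re < 1 := by
  by_contra h
  exact DirichletCharacter.LFunction_ne_zero_of_one_le_re χ (Or.inl hχ) (not_lt.1 h) hρ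

private lemma aux_one (C : ℝ) (hC : ReBound C) (q : ℕ) [NeZero q] (x : ℝ) (hx : 0 < x) (hx1 : x ≤ 1) :
    (DD q 1 ((1 + x : ℝ) : ℂ)).re ≤ C * Real.log (q + 2) + 1 / x := by
  have h := (hC.2 q 1 0 (1 + x) (by norm_num) (by linarith) (by linarith) ∅ (by simp)).2 rfl
  have e1 : ((1 + x : ℝ) : ℂ) + ((0 : ℝ) : ℂ) * I = ((1 + x : ℝ) : ℂ) := by simp
  have e2 : ((1 + x : ℝ) : ℂ) - 1 = (x : ℂ) := by push_cast; ring
  rw [e1, e2, aux_inv_re0, Finset.sum_empty, sub_zero] at h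
  exact h

private lemma aux_single (C : ℝ) (hC : ReBound C) (q : ℕ) [NeZero q] (χ : DirichletCharacter ℂ q)
    (hχ : χ ≠ 1) (ρ : ℂ) (hρ : χ.LFunction ρ = 0) (him : |ρ.im| ≤ 1) (h4 : 1 / 4 ≤ ρ.re)
    (h1 : ρ.re < 1) (x : ℝ) (hx : 0 < x) (hx1 : x ≤ 1) :
    (DD q χ ((1 + x : ℝ) + ρ.im * I)).re ≤
      C * Real.log (q + 2) - 1 / (x + (1 - ρ.re)) := by
  have h := (hC.2 q χ ρ.im (1 + x) (by linarith) (by linarith) (by linarith) {ρ} (by
    intro r hr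
    rw [Finset.mem_singleton] at hr
    subst hr
    refine ⟨by rw [MC.FF_of_ne q χ hχ]; exact hρ, ?_⟩
    have e : r - (2 + r.im * I) = ((r.re - 2 : ℝ) : ℂ) := by
      apply Complex.ext
      · simp
      · simp
    rw [e, Complex.norm_real, Real.norm_eq_abs, abs_le]
    constructor <;> linarith)).1 hχ
  rw [Finset.sum_singleton] at h
  have e3 : ((1 + x : ℝ) : ℂ) + (ρ.im : ℂ) * I - ρ = ((x + (1 - ρ.re) : ℝ) : ℂ) := by
    apply Complex.ext
    · simp; ring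
    · simp
  rw [e3, aux_inv_re0] at h
  exact h

/-- Z7a. PROOF. Let `A = C log (q+2) ≥ 1`, `ρ = β + iγ`, `κ = 1 - β > 0` (`β < 1` because
`DirichletCharacter.LFunction_ne_zero_of_one_le_re`), `κ < 1/(160 A)`. Put `x = 4 κ`, `σ = 1 + x ≤ 2`,
`t = γ`. `three_four_one` and `ReBound` (with `S = ∅` for the characters `1` at `t = 0` and `χ^2 ≠ 1`
at `2γ`, `|2γ| ≤ 2`; with `S = {ρ}` for `χ` at `t = γ`, note `‖ρ - (2 + γ I)‖ = 2 - β ≤ 7/4` and
`MC.FF_of_ne`) give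
`0 ≤ 3 (A + 1/x) + 4 (A - 1/(x + κ)) + A = 8 A + 3/(4κ) - 4/(5κ) = 8 A - 1/(20 κ)`, so
`κ ≥ 1/(160 A)`, a contradiction. -/
lemma zfr_complex (C : ℝ) (hC : ReBound C) (q : ℕ) [NeZero q] (χ : DirichletCharacter ℂ q)
    (hχ : χ ≠ 1) (h2 : χ ^ 2 ≠ 1) (ρ : ℂ) (hρ : χ.LFunction ρ = 0) (him : |ρ.im| ≤ 1) :
    ρ.re ≤ 1 - 1 / (160 * (C * Real.log (q + 2))) := by
  have hA := aux_A C hC.1 q
  set A := C * Real.log (q + 2) with hAdef
  have hβ := aux_re_lt q χ hχ ρ hρ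
  by_contra hcon
  rw [not_le] at hcon
  have hA0 : 0 < A := by linarith
  have hsmall : 1 / (160 * A) ≤ 1 / 160 := by
    apply one_div_le_one_div_of_le (by norm_num)
    linarith
  obtain ⟨κ, hκ⟩ : ∃ κ, κ = 1 - ρ.re := ⟨_, rfl⟩
  have hκ0 : 0 < κ := by linarith
  have hκ1 : κ < 1 / (160 * A) := by linarith
  have hκ2 : κ * (160 * A) < 1 := by
    rwa [lt_div_iff₀ (by positivity)] at hκ1
  have t := three_four_one q χ (1 + 4 * κ) ρ.im (by linarith)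
  have b1 := aux_one C hC q (4 * κ) (by linarith) (by linarith)
  have b2 := aux_single C hC q χ hχ ρ hρ him (by linarith) hβ (4 * κ) (by linarith) (by linarith)
  have b3 := (hC.2 q (χ ^ 2) (2 * ρ.im) (1 + 4 * κ) (by
    rw [abs_mul, abs_two]; linarith) (by linarith) (by linarith) ∅ (by simp)).1 h2
  rw [Finset.sum_empty, sub_zero] at b3
  rw [← hκ] at b2
  have e1 : 1 / (4 * κ) = (1 / κ) / 4 := by field_simp
  have e2 : 1 / (4 * κ + κ) = (1 / κ) / 5 := by field_simp; norm_num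
  rw [e1] at b1
  rw [e2] at b2
  rw [← hAdef] at b1 b2 b3
  have h3 : 1 / κ ≤ 160 * A := by linarith
  rw [div_le_iff₀ hκ0] at h3
  linarith

end Pool.Agent.GM
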