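import Mathlib
import Pool.Agent.Lib.MP_bae66e_nt.Mg.G033

set_option autoImplicit false

namespace Pool.Agent.GM

open Complex Metric Set

/-- Real characters have real values. -/
private lemma Z6_real (q : ℕ) (χ : DirichletCharacter ℂ q) (h2 : χ ^ 2 = 1) (n : ZMod q) :
    (starRingEnd ℂ) (χ n) = χ n := by
  by_cases hn : IsUnit n
  · have h3 : (χ n) ^ 2 = 1 := by
      have h4 : (χ ^ 2) n = 1 := by
        rw [h2]
        exact MulChar.one_apply hn
      rwa [MulChar.pow_apply' χ two_ne_zero] at h4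
    rw [sq] at h3
    rcases mul_self_eq_one_iff.1 h3 with h5 | h5
    · rw [h5, map_one]
    · rw [h5, map_neg, map_one]
  · rw [MulChar.map_nonunit χ hn, map_zero]

/-- Z6. Zeros of real L-functions are symmetric.
PROOF. `χ ^ 2 = 1` gives `χ(n)` real (`χ(n) ∈ {0, 1, -1}`). The function
`g s = conj (χ.LFunction (conj s))` is entire (`χ ≠ 1`, `DirichletCharacter.differentiable_LFunction`;
`DifferentiableAt.conj_conj` or `Complex.conjLIE`), and for `1 < re s` it equals
`∑ conj (χ(n) n^(-conj s)) = ∑ χ(n) n^(-s) = χ.LFunction s`. By the identity theorem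
(`AnalyticOnNhd.eq_of_eventuallyEq`, or `MC.eqOn_halfplane`) `g = χ.LFunction` everywhere. -/
lemma conj_zero (q : ℕ) [NeZero q] (χ : DirichletCharacter ℂ q) (hχ : χ ≠ 1) (h2 : χ ^ 2 = 1)
    (ρ : ℂ) (hρ : χ.LFunction ρ = 0) : χ.LFunction ((starRingEnd ℂ) ρ) = 0 := by
  have hd : Differentiable ℂ χ.LFunction := DirichletCharacter.differentiable_LFunction hχ
  have hg : Differentiable ℂ (fun s => (starRingEnd ℂ) (χ.LFunction ((starRingEnd ℂ) s))) := by
    intro s
    have h1 : DifferentiableAt ℂ ((starRingEnd ℂ) ∘ χ.LFunction ∘ (starRingEnd ℂ)) s := by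
      rw [differentiableAt_conj_conj_iff]
      exact hd _
    exact h1
  have heq : ∀ s : ℂ, 1 < s.re → (starRingEnd ℂ) (χ.LFunction ((starRingEnd ℂ) s)) = χ.LFunction s := by
    intro s hs
    have hs' : 1 < ((starRingEnd ℂ) s).re := by rwa [Complex.conj_re]
    rw [DirichletCharacter.LFunction_eq_LSeries χ hs', DirichletCharacter.LFunction_eq_LSeries χ hs]
    unfold LSeries
    rw [Complex.conj_tsum]
    refine tsum_congr fun n => ?_
    rcases Nat.eq_zero_or_pos n with rfl | hn
    · simp
    · rw [LSeries.term_of_ne_zero hn.ne', LSeries.term_of_ne_zero hn.ne', map_div₀, Z6_real q χ h2]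
      congr 1
      have h6 : ((n : ℂ)).arg ≠ Real.pi := by
        rw [Complex.natCast_arg]
        exact Real.pi_pos.ne
      rw [Complex.cpow_conj _ _ h6, Complex.conj_conj, Complex.conj_natCast]
  have hall : (fun s => (starRingEnd ℂ) (χ.LFunction ((starRingEnd ℂ) s))) = χ.LFunction := by
    refine AnalyticOnNhd.eq_of_eventuallyEq (z₀ := 2) (fun z _ => hg.analyticAt z)
      (fun z _ => hd.analyticAt z) ?_
    have hopen : IsOpen {z : ℂ | 1 < z.re} := isOpen_lt continuous_const Complex.continuous_re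
    have h2mem : (2 : ℂ) ∈ {z : ℂ | 1 < z.re} := by
      simp
    filter_upwards [hopen.mem_nhds h2mem] with z hz
    exact heq z hz
  have h7 := congrFun hall ((starRingEnd ℂ) ρ)
  simp only [Complex.conj_conj, hρ, map_zero] at h7
  exact h7.symm

end Pool.Agent.GM
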