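import Mathlib
import Pool.Agent.Lib.MP_bae66e_nt.GM.Z5
import Pool.Agent.Lib.MP_bae66e_nt.GM.Z6

set_option autoImplicit false

namespace Pool.Agent.GM

open Complex Metric Set

private lemma aux_inv_re (x y : ℝ) : (((x : ℂ) + y * I)⁻¹).re = x / (x ^ 2 + y ^ 2) := by
  rw [Complex.inv_re, Complex.normSq_apply]
  simp
  ring_nf

private lemma aux_inv_re0 (x : ℝ) : (((x : ℂ))⁻¹).re = 1 / x := by
  rw [← Complex.ofReal_inv, Complex.ofReal_re, one_div]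

private lemma aux_A (C : ℝ) (hC : 1 ≤ C) (q : ℕ) [NeZero q] : 1 ≤ C * Real.log (q + 2) := by
  have hq : (1 : ℝ) ≤ q := by exact_mod_cast NeZero.one_le
  have h1 : (1 : ℝ) ≤ Real.log (q + 2) := by
    rw [Real.le_log_iff_exp_le (by linarith)]
    have := Real.exp_one_lt_d9
    linarith
  exact one_le_mul_of_one_le_of_one_le hC h1

private lemma aux_re_lt (q : ℕ) [NeZero q] (χ : DirichletCharacter ℂ q)
    (hχ : χ ≠ 1) (ρ : ℂ) (hρ : χ.LFunction ρ = 0) : ρ.re < 1 := by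
  by_contra h
  exact DirichletCharacter.LFunction_ne_zero_of_one_le_re χ (Or.inl hχ) (not_lt.1 h) hρ

private lemma aux_one (C : ℝ) (hC : ReBound C) (q : ℕ) [NeZero q] (x : ℝ) (hx : 0 < x) (hx1 : x ≤ 1) :
    (DD q 1 ((1 + x : ℝ) : ℂ)).re ≤ C * Real.log (q + 2) + 1 / x := by
  have h := (hC.2 q 1 0 (1 + x) (by norm_num) (by linarith) (by linarith) ∅ (by simp)).2 rfl
  have e1 : ((1 + x : ℝ) : ℂ) + ((0 : ℝ) : ℂ) * I = ((1 + x : ℝ) : ℂ) := by simp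
  have e2 : ((1 + x : ℝ) : ℂ) - 1 = (x : ℂ) := by push_cast; ring
  rw [e1, e2, aux_inv_re0, Finset.sum_empty, sub_zero] at h
  exact h

/-- Z7b. PROOF. Suppose `γ = ρ.im ≠ 0` and `κ = 1 - β < 1/(100 A)`, `A = C log (q+2)`. Put
`x = 1/(10 A) ≤ 1`, `σ = 1 + x`, `t = 0`, `S = {ρ, conj ρ}` (two distinct zeros by `conj_zero`, both
within `7/4` of `2`). `pos_two` and `ReBound` give
`0 ≤ (A + 1/x) + (A - 2 (x + κ)/((x + κ)^2 + γ^2))`, but `κ ≤ x/10`, `|γ| ≤ x/2` imply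
`2 (x + κ)/((x + κ)^2 + γ^2) ≥ 2 x /(1.46 x^2) ≥ 1.36/x`, and `2 A + 1/x = 1.2/x`. Contradiction. -/
lemma zfr_real_small (C : ℝ) (hC : ReBound C) (q : ℕ) [NeZero q] (χ : DirichletCharacter ℂ q)
    (hχ : χ ≠ 1) (h2 : χ ^ 2 = 1) (ρ : ℂ) (hρ : χ.LFunction ρ = 0)
    (him : |ρ.im| ≤ 1 / (20 * (C * Real.log (q + 2))))
    (hre : 1 - 1 / (100 * (C * Real.log (q + 2))) < ρ.re) : ρ.im = 0 := by
  have hA := aux_A C hC.1 q
  set A := C * Real.log (q + 2) with hAdef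
  have hβ := aux_re_lt q χ hχ ρ hρ
  by_contra hγ
  have hA0 : 0 < A := by linarith
  have hsmall : 1 / (100 * A) ≤ 1 / 100 := by
    apply one_div_le_one_div_of_le (by norm_num)
    linarith
  have hsmall2 : 1 / (20 * A) ≤ 1 / 20 := by
    apply one_div_le_one_div_of_le (by norm_num)
    linarith
  obtain ⟨κ, hκ⟩ : ∃ κ, κ = 1 - ρ.re := ⟨_, rfl⟩
  have hκ0 : 0 < κ := by linarith
  have hκ1 : κ < 1 / (100 * A) := by linarith
  obtain ⟨x, hx⟩ : ∃ x, x = 1 / (10 * A) := ⟨_, rfl⟩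
  have hx0 : 0 < x := by rw [hx]; positivity
  have hAx : A = 1 / (10 * x) := by rw [hx]; field_simp
  have hx1 : x ≤ 1 := by
    rw [hx, div_le_one (by positivity)]; linarith
  have hκx : κ < x / 10 := by
    have e : x / 10 = 1 / (100 * A) := by rw [hx]; field_simp; norm_num
    rw [e]; exact hκ1
  have hγx : |ρ.im| ≤ x / 2 := by
    have e : x / 2 = 1 / (20 * A) := by rw [hx]; field_simp; norm_num
    rw [e]; exact him
  have hne : ρ ≠ (starRingEnd ℂ) ρ := by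
    intro h
    have := congrArg Complex.im h
    rw [Complex.conj_im] at this
    apply hγ
    linarith
  have hnb : ∀ r : ℂ, r.re = ρ.re → |r.im| = |ρ.im| → ‖r - (2 + ((0 : ℝ) : ℂ) * I)‖ ≤ 7 / 4 := by
    intro r hr1 hr2
    have h3 := Complex.norm_le_abs_re_add_abs_im (r - (2 + ((0 : ℝ) : ℂ) * I))
    have e4 : (r - (2 + ((0 : ℝ) : ℂ) * I)).re = r.re - 2 := by simp
    have e5 : (r - (2 + ((0 : ℝ) : ℂ) * I)).im = r.im := by simp
    rw [e4, e5, hr1, hr2] at h3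
    have h4 : |ρ.re - 2| = 2 - ρ.re := by
      rw [abs_of_neg (by linarith)]; ring
    rw [h4] at h3
    linarith
  have t := pos_two q χ h2 (1 + x) (by linarith)
  have b1 := aux_one C hC q x hx0 hx1
  have b2 := (hC.2 q χ 0 (1 + x) (by norm_num) (by linarith) (by linarith)
    {ρ, (starRingEnd ℂ) ρ} (by
    intro r hr
    rw [Finset.mem_insert, Finset.mem_singleton] at hr
    rcases hr with hr | hr
    · rw [hr, MC.FF_of_ne q χ hχ]
      exact ⟨hρ, hnb ρ rfl rfl⟩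
    · rw [hr, MC.FF_of_ne q χ hχ]
      refine ⟨conj_zero q χ hχ h2 ρ hρ, hnb _ ?_ ?_⟩
      · rw [Complex.conj_re]
      · rw [Complex.conj_im, abs_neg])).1 hχ
  rw [Finset.sum_pair hne] at b2
  have e1 : ((1 + x : ℝ) : ℂ) + ((0 : ℝ) : ℂ) * I = ((1 + x : ℝ) : ℂ) := by simp
  have e2 : ((1 + x : ℝ) : ℂ) - ρ = ((x + κ : ℝ) : ℂ) + ((-ρ.im : ℝ) : ℂ) * I := by
    apply Complex.ext
    · simp; linarith
    · simp
  have e3 : ((1 + x : ℝ) : ℂ) - (starRingEnd ℂ) ρ = ((x + κ : ℝ) : ℂ) + ((ρ.im : ℝ) : ℂ) * I := by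
    apply Complex.ext
    · simp; linarith
    · simp
  rw [e1, e2, e3, aux_inv_re, aux_inv_re, neg_sq] at b2
  rw [← hAdef] at b1 b2
  have c1 : (6 / 10) * (1 / x) < (x + κ) / ((x + κ) ^ 2 + ρ.im ^ 2) := by
    have h6 : |ρ.im| ^ 2 ≤ (x / 2) ^ 2 := pow_le_pow_left₀ (abs_nonneg _) hγx 2
    rw [sq_abs] at h6
    have e5 : (6 / 10) * (1 / x) = 6 / (10 * x) := by field_simp
    rw [e5, div_lt_div_iff₀ (by positivity) (by positivity)]
    nlinarith [mul_pos hκ0 hx0, mul_pos hx0 hx0, mul_pos (sub_pos.2 hκx) hκ0, mul_pos (sub_pos.2 hκx) hx0]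
  have c3 : A = (1 / x) / 10 := by rw [hAx]; field_simp
  have c4 : 0 < 1 / x := by positivity
  linarith

end Pool.Agent.GM
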