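import Mathlib
import Pool.Agent.Lib.MP_bae66e_nt.GM.Z5

set_option autoImplicit false

namespace Pool.Agent.GM

open Complex Metric Set

private lemma aux_inv_re (x y : ℝ) : (((x : ℂ) + y * I)⁻¹).re = x / (x ^ 2 + y ^ 2) := by
  rw [Complex.inv_re, Complex.normSq_apply]
  simp
  ring_nf

private lemma aux_inv_re0 (x : ℝ) : (((x : ℂ))⁻¹).re = 1 / x := by
  rw [← Complex.ofReal_inv, Complex.ofReal_re, one_div]

private lemma aux_A (C : ℝ) (hC : 1 ≤ C) (q : ℕ) [NeZero q] : 1 ≤ C * Real.log (q + 2) := by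
  have hq : (1 : ℝ) ≤ q := by exact_mod_cast NeZero.one_le
  have h1 : (1 : ℝ) ≤ Real.log (q + 2) := by
    rw [Real.le_log_iff_exp_le (by linarith)]
    have := Real.exp_one_lt_d9
    linarith
  exact one_le_mul_of_one_le_of_one_le hC h1

private lemma aux_re_lt (q : ℕ) [NeZero q] (χ : DirichletCharacter ℂ q)
    (hχ : χ ≠ 1) (ρ : ℂ) (hρ : χ.LFunction ρ = 0) : ρ.re < 1 := by
  by_contra h
  exact DirichletCharacter.LFunction_ne_zero_of_one_le_re χ (Or.inl hχ) (not_lt.1 h) hρ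

private lemma aux_one (C : ℝ) (hC : ReBound C) (q : ℕ) [NeZero q] (x : ℝ) (hx : 0 < x) (hx1 : x ≤ 1) :
    (DD q 1 ((1 + x : ℝ) : ℂ)).re ≤ C * Real.log (q + 2) + 1 / x := by
  have h := (hC.2 q 1 0 (1 + x) (by norm_num) (by linarith) (by linarith) ∅ (by simp)).2 rfl
  have e1 : ((1 + x : ℝ) : ℂ) + ((0 : ℝ) : ℂ) * I = ((1 + x : ℝ) : ℂ) := by simp
  have e2 : ((1 + x : ℝ) : ℂ) - 1 = (x : ℂ) := by push_cast; ring
  rw [e1, e2, aux_inv_re0, Finset.sum_empty, sub_zero] at h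
  exact h

private lemma aux_single (C : ℝ) (hC : ReBound C) (q : ℕ) [NeZero q] (χ : DirichletCharacter ℂ q)
    (hχ : χ ≠ 1) (ρ : ℂ) (hρ : χ.LFunction ρ = 0) (him : |ρ.im| ≤ 1) (h4 : 1 / 4 ≤ ρ.re)
    (h1 : ρ.re < 1) (x : ℝ) (hx : 0 < x) (hx1 : x ≤ 1) :
    (DD q χ ((1 + x : ℝ) + ρ.im * I)).re ≤
      C * Real.log (q + 2) - 1 / (x + (1 - ρ.re)) := by
  have h := (hC.2 q χ ρ.im (1 + x) (by linarith) (by linarith) (by linarith) {ρ} (by
    intro r hr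
    rw [Finset.mem_singleton] at hr
    subst hr
    refine ⟨by rw [MC.FF_of_ne q χ hχ]; exact hρ, ?_⟩
    have e : r - (2 + r.im * I) = ((r.re - 2 : ℝ) : ℂ) := by
      apply Complex.ext
      · simp
      · simp
    rw [e, Complex.norm_real, Real.norm_eq_abs, abs_le]
    constructor <;> linarith)).1 hχ
  rw [Finset.sum_singleton] at h
  have e3 : ((1 + x : ℝ) : ℂ) + (ρ.im : ℂ) * I - ρ = ((x + (1 - ρ.re) : ℝ) : ℂ) := by
    apply Complex.ext
    · simp; ring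
    · simp
  rw [e3, aux_inv_re0] at h
  exact h

/-- Z7c. PROOF. Suppose `κ = 1 - β < 1/(400 A)`, `A = C log (q+2)`. Put `g = 1/(20 A) < |γ|`,
`x = g/2 = 1/(40 A)`, `σ = 1 + x`. `three_four_one` at `t = γ` and `ReBound` (for `χ^2 = 1` at
`2γ`: `DD q 1 (σ + 2iγ)` has real part `≤ A + x/(x^2 + 4γ^2)`) give
`0 ≤ 3 (A + 1/x) + 4 (A - 1/(x+κ)) + A + x/(x^2+4γ^2)`, but `κ ≤ x/10` gives
`4/(x+κ) ≥ 3.63/x`, `8 A = 0.2/x`, `x/(x^2+4γ^2) ≤ x/(4 g^2) = 1/(16 x)`. Contradiction. -/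
lemma zfr_real_large (C : ℝ) (hC : ReBound C) (q : ℕ) [NeZero q] (χ : DirichletCharacter ℂ q)
    (hχ : χ ≠ 1) (h2 : χ ^ 2 = 1) (ρ : ℂ) (hρ : χ.LFunction ρ = 0) (him : |ρ.im| ≤ 1)
    (him2 : 1 / (20 * (C * Real.log (q + 2))) < |ρ.im|) :
    ρ.re ≤ 1 - 1 / (400 * (C * Real.log (q + 2))) := by
  have hA := aux_A C hC.1 q
  set A := C * Real.log (q + 2) with hAdef
  have hβ := aux_re_lt q χ hχ ρ hρ
  by_contra hcon
  rw [not_le] at hcon
  have hA0 : 0 < A := by linarith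
  have hsmall : 1 / (400 * A) ≤ 1 / 400 := by
    apply one_div_le_one_div_of_le (by norm_num)
    linarith
  obtain ⟨κ, hκ⟩ : ∃ κ, κ = 1 - ρ.re := ⟨_, rfl⟩
  have hκ0 : 0 < κ := by linarith
  have hκ1 : κ < 1 / (400 * A) := by linarith
  obtain ⟨x, hx⟩ : ∃ x, x = 1 / (40 * A) := ⟨_, rfl⟩
  have hx0 : 0 < x := by rw [hx]; positivity
  have hAx : A = 1 / (40 * x) := by rw [hx]; field_simp
  have hx1 : x ≤ 1 := by
    rw [hx, div_le_one (by positivity)]; linarith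
  have hκx : κ < x / 10 := by
    have e : x / 10 = 1 / (400 * A) := by rw [hx]; field_simp; norm_num
    rw [e]; exact hκ1
  have hγx : 2 * x < |ρ.im| := by
    have e : 2 * x = 1 / (20 * A) := by rw [hx]; field_simp; norm_num
    rw [e]; exact him2
  have t := three_four_one q χ (1 + x) ρ.im (by linarith)
  have b1 := aux_one C hC q x hx0 hx1
  have b2 := aux_single C hC q χ hχ ρ hρ him (by linarith) hβ x hx0 hx1
  have b3 := (hC.2 q (χ ^ 2) (2 * ρ.im) (1 + x) (by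
    rw [abs_mul, abs_two]; linarith) (by linarith) (by linarith) ∅ (by simp)).2 h2
  rw [Finset.sum_empty, sub_zero] at b3
  rw [← hκ] at b2
  have e3 : ((1 + x : ℝ) : ℂ) + ((2 * ρ.im : ℝ) : ℂ) * I - 1 = (x : ℂ) + ((2 * ρ.im : ℝ) : ℂ) * I := by
    push_cast; ring
  rw [e3, aux_inv_re] at b3
  rw [← hAdef] at b1 b2 b3
  have c1 : x / (x ^ 2 + (2 * ρ.im) ^ 2) ≤ 1 / x / 16 := by
    have h5 : 16 * x ^ 2 ≤ x ^ 2 + (2 * ρ.im) ^ 2 := by
      have h6 : (2 * x) ^ 2 ≤ |ρ.im| ^ 2 := pow_le_pow_left₀ (by linarith) hγx.le 2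
      rw [sq_abs] at h6
      nlinarith
    rw [div_div, div_le_div_iff₀ (by positivity) (by positivity)]
    nlinarith
  have c2 : (10 / 11) * (1 / x) ≤ 1 / (x + κ) := by
    have e5 : (10 / 11) * (1 / x) = 1 / (11 / 10 * x) := by field_simp
    rw [e5]
    apply one_div_le_one_div_of_le (by positivity)
    linarith
  have c3 : A = (1 / x) / 40 := by rw [hAx]; field_simp
  have c4 : 0 < 1 / x := by positivity
  linarith

end Pool.Agent.GM
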