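import Mathlib
import Pool.Agent.Lib.MP_bae66e_nt.GM.Z5

set_option autoImplicit false

namespace Pool.Agent.GM

open Complex Metric Set

private lemma aux_inv_re (x y : ℝ) : (((x : ℂ) + y * I)⁻¹).re = x / (x ^ 2 + y ^ 2) := by
  rw [Complex.inv_re, Complex.normSq_apply]
  simp
  ring_nf

private lemma aux_inv_re0 (x : ℝ) : (((x : ℂ))⁻¹).re = 1 / x := by
  rw [← Complex.ofReal_inv, Complex.ofReal_re, one_div]

private lemma aux_A (C : ℝ) (hC : 1 ≤ C) (q : ℕ) [NeZero q] : 1 ≤ C * Real.log (q + 2) := by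
  have hq : (1 : ℝ) ≤ q := by exact_mod_cast NeZero.one_le
  have h1 : (1 : ℝ) ≤ Real.log (q + 2) := by
    rw [Real.le_log_iff_exp_le (by linarith)]
    have := Real.exp_one_lt_d9
    linarith
  exact one_le_mul_of_one_le_of_one_le hC h1

private lemma aux_re_lt (q : ℕ) [NeZero q] (χ : DirichletCharacter ℂ q)
    (hχ : χ ≠ 1) (ρ : ℂ) (hρ : χ.LFunction ρ = 0) : ρ.re < 1 := by
  by_contra h
  exact DirichletCharacter.LFunction_ne_zero_of_one_le_re χ (Or.inl hχ) (not_lt.1 h) hρ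

private lemma aux_one (C : ℝ) (hC : ReBound C) (q : ℕ) [NeZero q] (x : ℝ) (hx : 0 < x) (hx1 : x ≤ 1) :
    (DD q 1 ((1 + x : ℝ) : ℂ)).re ≤ C * Real.log (q + 2) + 1 / x := by
  have h := (hC.2 q 1 0 (1 + x) (by norm_num) (by linarith) (by linarith) ∅ (by simp)).2 rfl
  have e1 : ((1 + x : ℝ) : ℂ) + ((0 : ℝ) : ℂ) * I = ((1 + x : ℝ) : ℂ) := by simp
  have e2 : ((1 + x : ℝ) : ℂ) - 1 = (x : ℂ) := by push_cast; ring
  rw [e1, e2, aux_inv_re0, Finset.sum_empty, sub_zero] at h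
  exact h

private lemma aux_real (C : ℝ) (hC : ReBound C) (q : ℕ) [NeZero q] (χ : DirichletCharacter ℂ q)
    (hχ : χ ≠ 1) (β : ℝ) (hβ : χ.LFunction β = 0) (h4 : 1 / 4 ≤ β)
    (h1 : β < 1) (x : ℝ) (hx : 0 < x) (hx1 : x ≤ 1) :
    (DD q χ ((1 + x : ℝ) : ℂ)).re ≤
      C * Real.log (q + 2) - 1 / (x + (1 - β)) := by
  have h := (hC.2 q χ 0 (1 + x) (by norm_num) (by linarith) (by linarith) {(β : ℂ)} (by
    intro r hr
    rw [Finset.mem_singleton] at hr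
    subst hr
    refine ⟨by rw [MC.FF_of_ne q χ hχ]; exact hβ, ?_⟩
    have e : (β : ℂ) - (2 + ((0 : ℝ) : ℂ) * I) = ((β - 2 : ℝ) : ℂ) := by
      push_cast; ring
    rw [e, Complex.norm_real, Real.norm_eq_abs, abs_le]
    constructor <;> linarith)).1 hχ
  rw [Finset.sum_singleton] at h
  have e1 : ((1 + x : ℝ) : ℂ) + ((0 : ℝ) : ℂ) * I = ((1 + x : ℝ) : ℂ) := by simp
  have e3 : ((1 + x : ℝ) : ℂ) - (β : ℂ) = ((x + (1 - β) : ℝ) : ℂ) := by
    push_cast; ring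
  rw [e1, e3, aux_inv_re0] at h
  exact h

/-- Z7d (Page). PROOF. Suppose `χ ≠ χ'`; then `χ * χ' ≠ 1` (`χ' = χ'⁻¹`). `A = C log (q+2)`,
`x = 1/(10 A)`, `σ = 1 + x`, `κ = 1 - β`, `κ' = 1 - β'` in `(0, x/10)`. `pos_four` and `ReBound`
(`S = {β}`, `{β'}`, `∅`, `t = 0`) give `0 ≤ 4 A + 1/x - 1/(x+κ) - 1/(x+κ')`, but
`4 A = 0.4/x` and `1/(x+κ) ≥ 0.9/x`. Contradiction. -/
lemma page (C : ℝ) (hC : ReBound C) (q : ℕ) [NeZero q] (χ χ' : DirichletCharacter ℂ q)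
    (hχ : χ ≠ 1) (hχ' : χ' ≠ 1) (h2 : χ ^ 2 = 1) (h2' : χ' ^ 2 = 1) (β β' : ℝ)
    (hβ : χ.LFunction β = 0) (hβ' : χ'.LFunction β' = 0)
    (h : 1 - 1 / (100 * (C * Real.log (q + 2))) < β)
    (h' : 1 - 1 / (100 * (C * Real.log (q + 2))) < β') : χ = χ' := by
  have hA := aux_A C hC.1 q
  set A := C * Real.log (q + 2) with hAdef
  have hβ1 : β < 1 := by
    have := aux_re_lt q χ hχ _ hβ
    rwa [Complex.ofReal_re] at this
  have hβ1' : β' < 1 := by
    have := aux_re_lt q χ' hχ' _ hβ'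
    rwa [Complex.ofReal_re] at this
  by_contra hne
  have hmul : χ * χ' ≠ 1 := by
    intro he
    apply hne
    calc χ = χ * χ' ^ 2 := by rw [h2', mul_one]
      _ = (χ * χ') * χ' := by rw [sq, mul_assoc]
      _ = χ' := by rw [he, one_mul]
  have hA0 : 0 < A := by linarith
  have hsmall : 1 / (100 * A) ≤ 1 / 100 := by
    apply one_div_le_one_div_of_le (by norm_num)
    linarith
  obtain ⟨x, hx⟩ : ∃ x, x = 1 / (10 * A) := ⟨_, rfl⟩
  have hx0 : 0 < x := by rw [hx]; positivity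
  have hAx : A = 1 / (10 * x) := by rw [hx]; field_simp
  have hx1 : x ≤ 1 := by
    rw [hx, div_le_one (by positivity)]; linarith
  have ex : x / 10 = 1 / (100 * A) := by rw [hx]; field_simp; norm_num
  have t := pos_four q χ χ' h2 h2' (1 + x) (by linarith)
  have b1 := aux_one C hC q x hx0 hx1
  have b2 := aux_real C hC q χ hχ β hβ (by linarith) hβ1 x hx0 hx1
  have b3 := aux_real C hC q χ' hχ' β' hβ' (by linarith) hβ1' x hx0 hx1
  have b4 := (hC.2 q (χ * χ') 0 (1 + x) (by norm_num) (by linarith) (by linarith) ∅ (by simp)).1 hmul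
  have e1 : ((1 + x : ℝ) : ℂ) + ((0 : ℝ) : ℂ) * I = ((1 + x : ℝ) : ℂ) := by simp
  rw [Finset.sum_empty, sub_zero, e1] at b4
  rw [← hAdef] at b1 b2 b3 b4
  have key : ∀ κ : ℝ, 0 < κ → κ < x / 10 → (10 / 11) * (1 / x) ≤ 1 / (x + κ) := by
    intro κ hκ0 hκ
    have e5 : (10 / 11) * (1 / x) = 1 / (11 / 10 * x) := by field_simp
    rw [e5]
    apply one_div_le_one_div_of_le (by positivity)
    linarith
  have c1 := key (1 - β) (by linarith) (by linarith)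
  have c2 := key (1 - β') (by linarith) (by linarith)
  have c3 : A = (1 / x) / 10 := by rw [hAx]; field_simp
  have c4 : 0 < 1 / x := by positivity
  linarith

end Pool.Agent.GM
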