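import Mathlib
import Pool.Agent.Lib.MP_bae66e_nt.GM.Z4
import Pool.Agent.Lib.MP_bae66e_nt.GM.Z7a
import Pool.Agent.Lib.MP_bae66e_nt.GM.Z7b
import Pool.Agent.Lib.MP_bae66e_nt.GM.Z7c
import Pool.Agent.Lib.MP_bae66e_nt.GM.Z7d

set_option autoImplicit false

namespace Pool.Agent.GM

open Complex Metric Set

private lemma aux_A (C : ℝ) (hC : 1 ≤ C) (q : ℕ) [NeZero q] : 1 ≤ C * Real.log (q + 2) := by
  have hq : (1 : ℝ) ≤ q := by exact_mod_cast NeZero.one_le
  have h1 : (1 : ℝ) ≤ Real.log (q + 2) := by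
    rw [Real.le_log_iff_exp_le (by linarith)]
    have := Real.exp_one_lt_d9
    linarith
  exact one_le_mul_of_one_le_of_one_le hC h1

/-- Z8. Zero free region near `1` and Page's theorem. PROOF. `reBound_exists` and Z7, with
`c = 1/(400 C)`. -/
theorem zfr : ∃ c : ℝ, 0 < c ∧ c ≤ 1 / 10 ∧ ∀ (q : ℕ) [NeZero q] (χ : DirichletCharacter ℂ q),
    χ ≠ 1 →
    (∀ ρ : ℂ, χ.LFunction ρ = 0 → 1 - c / Real.log (q + 2) < ρ.re → |ρ.im| ≤ 1 →
      χ ^ 2 = 1 ∧ ρ.im = 0) ∧
    ∀ χ' : DirichletCharacter ℂ q, χ' ≠ 1 → χ ^ 2 = 1 → χ' ^ 2 = 1 → ∀ β β' : ℝ,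
      χ.LFunction β = 0 → χ'.LFunction β' = 0 →
      1 - c / Real.log (q + 2) < β → 1 - c / Real.log (q + 2) < β' → χ = χ' := by
  obtain ⟨C, hC⟩ := reBound_exists
  have hC1 := hC.1
  have hC0 : 0 < C := by linarith
  refine ⟨1 / (400 * C), by positivity, ?_, ?_⟩
  · apply one_div_le_one_div_of_le (by norm_num)
    linarith
  · intro q _ χ hχ
    have hA := aux_A C hC1 q
    have hL : 0 < Real.log (q + 2) := by
      by_contra hcon
      rw [not_lt] at hcon
      nlinarith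
    have e : 1 / (400 * C) / Real.log (q + 2) = 1 / (400 * (C * Real.log (q + 2))) := by
      rw [div_div, mul_assoc]
    rw [e]
    set A := C * Real.log (q + 2) with hAdef
    have hA0 : 0 < A := by linarith
    have m1 : 1 / (400 * A) ≤ 1 / (160 * A) :=
      one_div_le_one_div_of_le (by positivity) (by linarith)
    have m2 : 1 / (400 * A) ≤ 1 / (100 * A) :=
      one_div_le_one_div_of_le (by positivity) (by linarith)
    refine ⟨?_, ?_⟩
    · intro ρ hρ hre him
      by_cases h2 : χ ^ 2 = 1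
      · refine ⟨h2, ?_⟩
        by_cases h3 : |ρ.im| ≤ 1 / (20 * A)
        · exact zfr_real_small C hC q χ hχ h2 ρ hρ h3 (by rw [← hAdef]; linarith)
        · have := zfr_real_large C hC q χ hχ h2 ρ hρ him (not_le.1 h3)
          rw [← hAdef] at this
          linarith
      · have := zfr_complex C hC q χ hχ h2 ρ hρ him
        rw [← hAdef] at this
        linarith
    · intro χ' hχ' h2 h2' β β' hβ hβ' h h'
      exact page C hC q χ χ' hχ hχ' h2 h2' β β' hβ hβ' (by rw [← hAdef]; linarith)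
        (by rw [← hAdef]; linarith)

end Pool.Agent.GM
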