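import Mathlib
import Pool.Agent.Lib.MP_bae66e_nt.GM.S1
import Pool.Agent.Lib.MP_bae66e_nt.GM.Z8

set_option autoImplicit false

namespace Pool.Agent.GM

open Complex Metric Set

private lemma aux_prim_ne (q : ℕ) [NeZero q] (χ : DirichletCharacter ℂ q) (hχ : χ ≠ 1) :
    χ.primitiveCharacter ≠ 1 := by
  intro h
  apply hχ
  rw [← χ.changeLevel_primitiveCharacter, h, DirichletCharacter.changeLevel_one]

private lemma aux_lift (q : ℕ) [NeZero q] (η : ℝ) (hη' : η ≤ 1 / 12)
    (χ : DirichletCharacter ℂ q) (hχ : χ ≠ 1) (h : NearZero q χ η) (D : ℕ) [NeZero D]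
    (hD : χ.conductor ∣ D) :
    DirichletCharacter.changeLevel hD χ.primitiveCharacter ≠ 1 ∧
    ∃ ρ : ℂ, (DirichletCharacter.changeLevel hD χ.primitiveCharacter).LFunction ρ = 0 ∧
      1 - η ≤ ρ.re ∧ |ρ.im| ≤ 1 := by
  have : NeZero χ.conductor := ⟨χ.conductor_ne_zero⟩
  have h1 := aux_prim_ne q χ hχ
  refine ⟨fun h2 => h1 ((DirichletCharacter.changeLevel_eq_one_iff hD).1 h2), ?_⟩
  obtain ⟨ρ, hρ, hn⟩ := h
  obtain ⟨h3, h4, h5⟩ := nearZero_re_im q χ hχ η hη' ρ hρ hn
  have h6 := zero_primitive q χ hχ ρ (by linarith) hρ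
  exact ⟨ρ, zero_changeLevel _ _ hD _ h1 ρ h6, h3, h5⟩

/-- S2. The bad characters with small conductor all have the same conductor.
PROOF. Take `c` from `zfr` (Z8) and `c₀ = c / 4`. Let `d, d'` be the conductors (nonzero,
`DirichletCharacter.conductor_ne_zero`), `χ₁, χ₁'` the primitive characters (both `≠ 1`),
`D = d * d'` and `ψ, ψ'` their lifts (`DirichletCharacter.changeLevel`) to the level `D`
(`≠ 1` by `DirichletCharacter.changeLevel_eq_one_iff`). By `nearZero_re_im`, `zero_primitive` and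
`zero_changeLevel`, `ψ` and `ψ'` have zeros `ρ, ρ'` with `re ≥ 1 - η`, `|im| ≤ 1`. Since
`log (D + 2) ≤ log (d + 2) + log (d' + 2)` and both are `< c₀ / η` we have
`η < 2 c₀ / log (D + 2) < c / log (D + 2)`. So `zfr` gives `ψ ^ 2 = 1`, `ψ' ^ 2 = 1`, real zeros
and `ψ = ψ'`; `DirichletCharacter.conductor_changeLevel` and
`DirichletCharacter.primitiveCharacter_isPrimitive` give `d = d'`. -/
theorem bad_unique : ∃ c₀ : ℝ, 0 < c₀ ∧ ∀ (q : ℕ) [NeZero q] (η : ℝ), 0 < η → η ≤ 1 / 12 →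
    ∀ χ χ' : DirichletCharacter ℂ q, χ ≠ 1 → χ' ≠ 1 → NearZero q χ η → NearZero q χ' η →
      Real.log (χ.conductor + 2) < c₀ / η → Real.log (χ'.conductor + 2) < c₀ / η →
      χ.conductor = χ'.conductor := by
  obtain ⟨c, hc, _, hz⟩ := zfr
  refine ⟨c / 4, by positivity, ?_⟩
  intro q _ η hη hη' χ χ' hχ hχ' hn hn' hl hl'
  have hd0 : χ.conductor ≠ 0 := χ.conductor_ne_zero
  have hd0' : χ'.conductor ≠ 0 := χ'.conductor_ne_zero
  have : NeZero (χ.conductor * χ'.conductor) := ⟨mul_ne_zero hd0 hd0'⟩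
  have hD : χ.conductor ∣ χ.conductor * χ'.conductor := Dvd.intro _ rfl
  have hD' : χ'.conductor ∣ χ.conductor * χ'.conductor := Dvd.intro_left _ rfl
  obtain ⟨hψ, ρ, hρ, hre, him⟩ := aux_lift q η hη' χ hχ hn _ hD
  obtain ⟨hψ', ρ', hρ', hre', him'⟩ := aux_lift q η hη' χ' hχ' hn' _ hD'
  have hlog : Real.log (((χ.conductor * χ'.conductor : ℕ) : ℝ) + 2) < c / η := by
    have h1 : (1 : ℝ) ≤ χ.conductor := by exact_mod_cast Nat.one_le_iff_ne_zero.2 hd0
    have h1' : (1 : ℝ) ≤ χ'.conductor := by exact_mod_cast Nat.one_le_iff_ne_zero.2 hd0'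
    have h2 : (((χ.conductor * χ'.conductor : ℕ) : ℝ) + 2) ≤
        ((χ.conductor : ℝ) + 2) * ((χ'.conductor : ℝ) + 2) := by
      push_cast
      nlinarith
    have h3 := Real.log_le_log (by positivity) h2
    rw [Real.log_mul (by positivity) (by positivity)] at h3
    have h4 : c / 4 / η = (c / η) / 4 := by ring
    rw [h4] at hl hl'
    have h5 : 0 < c / η := by positivity
    linarith
  have hlog0 : 0 < Real.log (((χ.conductor * χ'.conductor : ℕ) : ℝ) + 2) := by
    apply Real.log_pos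
    have : (0 : ℝ) ≤ ((χ.conductor * χ'.conductor : ℕ) : ℝ) := Nat.cast_nonneg _
    linarith
  have hη2 : η < c / Real.log (((χ.conductor * χ'.conductor : ℕ) : ℝ) + 2) := by
    rw [lt_div_iff₀ hlog0]
    rw [lt_div_iff₀ hη] at hlog
    linarith
  obtain ⟨h2, hi⟩ := (hz _ _ hψ).1 ρ hρ (by linarith) him
  obtain ⟨h2', hi'⟩ := (hz _ _ hψ').1 ρ' hρ' (by linarith) him'
  have er : (ρ.re : ℂ) = ρ := by apply Complex.ext <;> simp [hi]
  have er' : (ρ'.re : ℂ) = ρ' := by apply Complex.ext <;> simp [hi']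
  have heq := (hz _ _ hψ).2 _ hψ' h2 h2' ρ.re ρ'.re (by rw [er]; exact hρ) (by rw [er']; exact hρ')
    (by linarith) (by linarith)
  have k1 := DirichletCharacter.conductor_changeLevel (χ := χ.primitiveCharacter) hD
  have k2 := DirichletCharacter.conductor_changeLevel (χ := χ'.primitiveCharacter) hD'
  have k3 := χ.primitiveCharacter_isPrimitive
  have k4 := χ'.primitiveCharacter_isPrimitive
  rw [DirichletCharacter.isPrimitive_def] at k3 k4
  exact (k1.trans k3).symm.trans ((congrArg DirichletCharacter.conductor heq).trans (k2.trans k4))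

end Pool.Agent.GM
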