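import Mathlib
import Pool.Agent.Lib.MP_bae66e_nt.GM.S1

set_option autoImplicit false

namespace Pool.Agent.GM

open Complex Metric Set

/-- S3a. PROOF. Compactness: `χ.LFunction` is continuous (`χ ≠ 1`), has no zeros in the closed disc
`closedBall 2 1` (there `1 ≤ re`, `DirichletCharacter.LFunction_ne_zero_of_one_le_re`). The zero set
`Z` is closed and disjoint from the compact `closedBall 2 1`; by
`IsCompact.exists_cthickening_subset_open` (or `Metric.exists_pos_forall_lt_edist`, or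
`Disjoint.exists_cthickenings`) there is `η > 0` such that no point of `Z` is within distance `η`
of the disc; a point with `‖ρ - 2‖ ≤ 1 + η` is within distance `η` of `closedBall 2 1`. -/
lemma exists_gap (q : ℕ) [NeZero q] (χ : DirichletCharacter ℂ q) (hχ : χ ≠ 1) :
    ∃ η : ℝ, 0 < η ∧ ¬ NearZero q χ η := by
  have hcont : Continuous χ.LFunction := (DirichletCharacter.differentiable_LFunction hχ).continuous
  have hZ : IsClosed {ρ : ℂ | χ.LFunction ρ = 0} := isClosed_eq hcont continuous_const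
  have hK : IsCompact (closedBall (2 : ℂ) 2 ∩ {ρ : ℂ | χ.LFunction ρ = 0}) :=
    (isCompact_closedBall (2 : ℂ) 2).inter_right hZ
  by_cases hne : (closedBall (2 : ℂ) 2 ∩ {ρ : ℂ | χ.LFunction ρ = 0}).Nonempty
  · obtain ⟨ρ₀, hρ₀, hmin⟩ := hK.exists_isMinOn hne
      (f := fun ρ : ℂ => ‖ρ - 2‖) (by fun_prop)
    have hm : 1 < ‖ρ₀ - 2‖ := by
      by_contra hcon
      rw [not_lt] at hcon
      have h1 : |(ρ₀ - 2).re| ≤ 1 := (Complex.abs_re_le_norm _).trans hcon
      have h2 : (1 : ℝ) ≤ ρ₀.re := by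
        have h3 : (ρ₀ - 2).re = ρ₀.re - 2 := by simp
        rw [h3, abs_le] at h1
        linarith [h1.1]
      exact DirichletCharacter.LFunction_ne_zero_of_one_le_re χ (Or.inl hχ) h2 hρ₀.2
    refine ⟨min ((‖ρ₀ - 2‖ - 1) / 2) 1, lt_min (by linarith) one_pos, ?_⟩
    rintro ⟨ρ, hρ, hle⟩
    have h1 : min ((‖ρ₀ - 2‖ - 1) / 2) 1 ≤ 1 := min_le_right _ _
    have h2 : min ((‖ρ₀ - 2‖ - 1) / 2) 1 ≤ (‖ρ₀ - 2‖ - 1) / 2 := min_le_left _ _
    have h3 : ρ ∈ closedBall (2 : ℂ) 2 ∩ {ρ : ℂ | χ.LFunction ρ = 0} := by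
      refine ⟨?_, hρ⟩
      rw [mem_closedBall, dist_eq_norm]
      linarith
    have h4 : ‖ρ₀ - 2‖ ≤ ‖ρ - 2‖ := hmin h3
    linarith
  · refine ⟨1, one_pos, ?_⟩
    rintro ⟨ρ, hρ, hle⟩
    apply hne
    refine ⟨ρ, ?_, hρ⟩
    rw [mem_closedBall, dist_eq_norm]
    linarith

end Pool.Agent.GM
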