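import Mathlib
import Pool.Agent.Lib.MP_bae66e_nt.GM.S1
import Pool.Agent.Lib.MP_bae66e_nt.GM.S3a

set_option autoImplicit false

namespace Pool.Agent.GM

open Complex Metric Set

private lemma aux_prim_ne (q : ℕ) [NeZero q] (χ : DirichletCharacter ℂ q) (hχ : χ ≠ 1) :
    χ.primitiveCharacter ≠ 1 := by
  intro h
  apply hχ
  rw [← χ.changeLevel_primitiveCharacter, h, DirichletCharacter.changeLevel_one]

private lemma aux_fin (P : ℕ) [NeZero P] : ∃ η : ℝ, 0 < η ∧ η ≤ 1 / 12 ∧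
    ∀ χ : DirichletCharacter ℂ P, χ ≠ 1 → ¬ NearZero P χ η := by
  have h1 : ∀ χ : DirichletCharacter ℂ P, ∃ η : ℝ, 0 < η ∧ (χ ≠ 1 → ¬ NearZero P χ η) := by
    intro χ
    by_cases hχ : χ = 1
    · exact ⟨1, one_pos, fun h => absurd hχ h⟩
    · obtain ⟨η, h2, h3⟩ := exists_gap P χ hχ
      exact ⟨η, h2, fun _ => h3⟩
  choose f hf0 hf using h1
  have hne : (Finset.univ : Finset (DirichletCharacter ℂ P)).Nonempty := ⟨1, Finset.mem_univ _⟩
  refine ⟨min (1 / 12) (Finset.univ.inf' hne f), lt_min (by norm_num) ?_, min_le_left _ _, ?_⟩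
  · rw [Finset.lt_inf'_iff]
    exact fun χ _ => hf0 χ
  · rintro χ hχ ⟨ρ, hρ, hle⟩
    apply hf χ hχ
    refine ⟨ρ, hρ, hle.trans ?_⟩
    have h2 : Finset.univ.inf' hne f ≤ f χ := Finset.inf'_le f (Finset.mem_univ χ)
    have h3 := min_le_right (1 / 12) (Finset.univ.inf' hne f)
    linarith

private lemma aux_dvd (K d : ℕ) (hd : Squarefree d) (h : ∀ p : ℕ, p.Prime → p ∣ d → p < K) :
    d ∣ ∏ p ∈ (Finset.range K).filter Nat.Prime, p := by
  rw [← Nat.prod_primeFactors_of_squarefree hd]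
  apply Finset.prod_dvd_prod_of_subset
  intro p hp
  rw [Finset.mem_filter, Finset.mem_range]
  exact ⟨h p (Nat.prime_of_mem_primeFactors hp) (Nat.dvd_of_mem_primeFactors hp),
    Nat.prime_of_mem_primeFactors hp⟩

/-- S3b. PROOF. Put `P = ∏ p ∈ primes below K, p` (positive). There are finitely many characters mod
`P`; take the minimum `η` of the numbers of `exists_gap` for `χ ≠ 1` mod `P` (and of `1/12`).
`NearZero` is monotone in `κ`. Suppose `NearZero q χ η` and every prime factor of the conductor `d`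
is `< K`. `d ∣ q` is squarefree, so `d ∣ P`. The primitive character `χ₁` mod `d` has a zero in the
disc (`zero_primitive`, `nearZero_re_im`), and so has its lift to the level `P`
(`zero_changeLevel`), which is `≠ 1` (`DirichletCharacter.changeLevel_eq_one_iff`). Contradiction.-/
theorem bad_prime (K : ℕ) : ∃ η : ℝ, 0 < η ∧ η ≤ 1 / 12 ∧ ∀ (q : ℕ) [NeZero q], Squarefree q →
    ∀ χ : DirichletCharacter ℂ q, χ ≠ 1 → NearZero q χ η →
      ∃ p : ℕ, p.Prime ∧ K ≤ p ∧ p ∣ χ.conductor := by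
  have hP0 : (∏ p ∈ (Finset.range K).filter Nat.Prime, p) ≠ 0 :=
    Finset.prod_ne_zero_iff.2 fun p hp => (Finset.mem_filter.1 hp).2.ne_zero
  have : NeZero (∏ p ∈ (Finset.range K).filter Nat.Prime, p) := ⟨hP0⟩
  obtain ⟨η, h0, h1, h2⟩ := aux_fin (∏ p ∈ (Finset.range K).filter Nat.Prime, p)
  refine ⟨η, h0, h1, ?_⟩
  intro q _ hq χ hχ hn
  by_contra hcon
  push Not at hcon
  have hdq : χ.conductor ∣ q := χ.conductor_dvd_level
  have hsq : Squarefree χ.conductor := hq.squarefree_of_dvd hdq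
  have hD := aux_dvd K χ.conductor hsq (fun p hp hpd => by
    by_contra hK
    exact hcon p hp (not_lt.1 hK) hpd)
  have : NeZero χ.conductor := ⟨χ.conductor_ne_zero⟩
  have g1 := aux_prim_ne q χ hχ
  obtain ⟨ρ, hρ, hle⟩ := hn
  obtain ⟨h3, h4, h5⟩ := nearZero_re_im q χ hχ η h1 ρ hρ hle
  have h6 := zero_primitive q χ hχ ρ (by linarith) hρ
  have h7 := zero_changeLevel _ _ hD _ g1 ρ h6
  exact h2 _ (fun h8 => g1 ((DirichletCharacter.changeLevel_eq_one_iff hD).1 h8)) ⟨ρ, h7, hle⟩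

end Pool.Agent.GM
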