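import Mathlib
import Pool.Agent.Lib.MP_bae66e_nt.GM.C3b
import Pool.Agent.Lib.MP_bae66e_nt.GM.S2
import Pool.Agent.Lib.MP_bae66e_nt.GM.S3b

set_option autoImplicit false

namespace Pool.Agent.GM

private lemma aux_mono (q : ℕ) [NeZero q] (χ : DirichletCharacter ℂ q) (κ κ' : ℝ) (h : κ ≤ κ')
    (hn : NearZero q χ κ) : NearZero q χ κ' := by
  obtain ⟨ρ, hρ, hle⟩ := hn
  exact ⟨ρ, hρ, by linarith⟩

private lemma aux_log_div (η : ℝ) (hη : 0 < η) :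
    ∃ k₁ : ℕ, ∀ k : ℕ, k₁ ≤ k → 64 * Real.log k / k ≤ η := by
  have h1 : Filter.Tendsto (fun x : ℝ => Real.log x ^ 1 / (1 * x + 0)) Filter.atTop (nhds 0) :=
    Real.tendsto_pow_log_div_mul_add_atTop 1 0 1 one_ne_zero
  have h2 : Filter.Tendsto (fun k : ℕ => Real.log (k : ℝ) ^ 1 / (1 * (k : ℝ) + 0))
      Filter.atTop (nhds 0) := h1.comp tendsto_natCast_atTop_atTop
  have h3 := h2.eventually_lt_const (show 0 < η / 64 by positivity)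
  rw [Filter.eventually_atTop] at h3
  obtain ⟨k₁, hk₁⟩ := h3
  refine ⟨k₁, fun k hk => ?_⟩
  have h4 := hk₁ k hk
  rw [pow_one, one_mul, add_zero] at h4
  have e : 64 * Real.log k / k = 64 * (Real.log k / k) := by ring
  rw [e]
  linarith

private lemma aux_main (z : ℕ) (κ c₀ : ℝ) (hκ0 : 0 < κ) (hκ1 : κ ≤ 1 / 12) (D₀ : Finset ℕ)
    (hD₀ : D₀ ⊆ Pz z)
    (hb : ∀ (q : ℕ) [NeZero q] (η : ℝ), 0 < η → η ≤ 1 / 12 →
    ∀ χ χ' : DirichletCharacter ℂ q, χ ≠ 1 → χ' ≠ 1 → NearZero q χ η → NearZero q χ' η →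
      Real.log (χ.conductor + 2) < c₀ / η → Real.log (χ'.conductor + 2) < c₀ / η →
      χ.conductor = χ'.conductor)
    (hh : ∀ χ : DirichletCharacter ℂ (Mz z ∅), χ ≠ 1 → NearZero (Mz z ∅) χ κ →
        c₀ / κ ≤ Real.log (χ.conductor + 2) → ∃ p ∈ D₀, p ∣ χ.conductor)
    (p₁ : ℕ) (hp₁ : p₁.Prime)
    (hall : ∀ χ₀ : DirichletCharacter ℂ (Mz z ∅), χ₀ ≠ 1 → NearZero (Mz z ∅) χ₀ κ →
      Real.log (χ₀.conductor + 2) < c₀ / κ → ∃ χ₁ : DirichletCharacter ℂ (Mz z ∅), χ₁ ≠ 1 ∧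
        NearZero (Mz z ∅) χ₁ κ ∧ Real.log (χ₁.conductor + 2) < c₀ / κ ∧ p₁ ∣ χ₁.conductor)
    (χ : DirichletCharacter ℂ (Mz z (insert p₁ D₀))) (hχ : χ ≠ 1) :
    ¬ NearZero (Mz z (insert p₁ D₀)) χ κ := by
  intro hn
  obtain ⟨χ', hχ', hn', hd⟩ := lift_bad z (insert p₁ D₀) κ χ hχ hn
  by_cases hc : c₀ / κ ≤ Real.log (χ'.conductor + 2)
  · obtain ⟨p, hp, hpd⟩ := hh χ' hχ' hn' hc
    have hpp : p.Prime := (Finset.mem_filter.1 (hD₀ hp)).2.1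
    have := (prime_dvd_Mz z (insert p₁ D₀) p hpp).1 (hpd.trans hd)
    exact this.2 (Finset.mem_insert_of_mem hp)
  · obtain ⟨χ₁, hχ₁, hn₁, hc₁, hp₁d⟩ := hall χ' hχ' hn' (not_le.1 hc)
    have heq := hb (Mz z ∅) κ hκ0 hκ1 χ' χ₁ hχ' hχ₁ hn' hn₁ (not_le.1 hc) hc₁
    rw [← heq] at hp₁d
    have := (prime_dvd_Mz z (insert p₁ D₀) p₁ hp₁).1 (hp₁d.trans hd)
    exact this.2 (Finset.mem_insert_self _ _)

/-- C3c. PROOF. `c₀` from `bad_unique`, `η` from `bad_prime K`; `k` large, so that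
`κ = 64 log k/k ≤ η ≤ 1/12` and `z ≥ √k ≥ 2 K + 2`. Take `D₀` from `exists_D₀ c₀`. If some bad
`χ₀` mod `q = Mz z ∅` (`χ₀ ≠ 1`, `NearZero q χ₀ κ`) has `log (cond χ₀ + 2) < c₀/κ`, take a prime
`p₁ ≥ K` dividing `cond χ₀` (`bad_prime`, `NearZero` is monotone); `p₁ ≤ z` as
`cond χ₀ ∣ q` (`prime_dvd_Mz`). Otherwise take any prime `p₁ ∈ [K, z]`
(`Nat.exists_prime_lt_and_le_two_mul`, or `Nat.exists_infinite_primes` with `k₀` large). Put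
`D = insert p₁ D₀`. If `χ ≠ 1` mod `Mz z D` were bad, `lift_bad` would give a bad `χ'` mod `q` with
`cond χ' ∣ Mz z D`, so no prime of `D` divides `cond χ'` (`prime_dvd_Mz`); but if
`c₀/κ ≤ log (cond χ' + 2)` some prime of `D₀` does, and otherwise `cond χ' = cond χ₀` by
`bad_unique`, divisible by `p₁`. -/
theorem exists_D (K : ℕ) : ∃ k₀ : ℕ, ∀ k : ℕ, k₀ ≤ k → ∀ z : ℕ,
    Real.sqrt k ≤ z → (z : ℝ) ≤ k / 160 →
    ∃ (p₁ : ℕ) (D₀ : Finset ℕ), p₁.Prime ∧ K ≤ p₁ ∧ p₁ ≤ z ∧ D₀ ⊆ Pz z ∧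
      (D₀.card : ℝ) ≤ (Real.log k) ^ 4 ∧
      ∀ χ : DirichletCharacter ℂ (Mz z (insert p₁ D₀)), χ ≠ 1 →
        ¬ NearZero (Mz z (insert p₁ D₀)) χ (64 * Real.log k / k) := by
  obtain ⟨c₀, hc₀, hb⟩ := bad_unique
  obtain ⟨η, hη, hη', hp⟩ := bad_prime K
  obtain ⟨k₁, h₁⟩ := exists_D₀ c₀ hc₀
  obtain ⟨k₂, h₂⟩ := aux_log_div η hη
  refine ⟨max 2 (max ((2 * K + 2) ^ 2) (max k₁ k₂)), ?_⟩
  intro k hk z hz1 hz2
  have hk2 : 2 ≤ k := le_trans (le_max_left _ _) hk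
  have hk3 : (2 * K + 2) ^ 2 ≤ k := le_trans (le_trans (le_max_left _ _) (le_max_right _ _)) hk
  have hk4 : k₁ ≤ k := le_trans (le_trans (le_trans (le_max_left _ _) (le_max_right _ _))
    (le_max_right _ _)) hk
  have hk5 : k₂ ≤ k := le_trans (le_trans (le_trans (le_max_right _ _) (le_max_right _ _))
    (le_max_right _ _)) hk
  have hκη := h₂ k hk5
  have hk0 : (2 : ℝ) ≤ k := by exact_mod_cast hk2
  have hκ0 : 0 < 64 * Real.log k / k := by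
    have := Real.log_pos (show (1 : ℝ) < k by linarith)
    positivity
  have hzK : 2 * K + 2 ≤ z := by
    have h3 : ((2 * K + 2 : ℕ) : ℝ) ≤ Real.sqrt k := by
      apply Real.le_sqrt_of_sq_le
      exact_mod_cast hk3
    exact_mod_cast h3.trans hz1
  obtain ⟨D₀, hD₀, hcard, hh⟩ := h₁ k hk4 z hz1 hz2
  by_cases hex : ∃ χ₀ : DirichletCharacter ℂ (Mz z ∅), χ₀ ≠ 1 ∧
      NearZero (Mz z ∅) χ₀ (64 * Real.log k / k) ∧
      Real.log (χ₀.conductor + 2) < c₀ / (64 * Real.log k / k)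
  · obtain ⟨χ₀, hχ₀, hn₀, hl₀⟩ := hex
    obtain ⟨p₁, hp₁, hKp, hpd⟩ := hp (Mz z ∅) (Mz_squarefree z ∅) χ₀ hχ₀
      (aux_mono _ χ₀ _ _ hκη hn₀)
    have hpz := ((prime_dvd_Mz z ∅ p₁ hp₁).1 (hpd.trans χ₀.conductor_dvd_level)).1
    refine ⟨p₁, D₀, hp₁, hKp, hpz, hD₀, hcard, ?_⟩
    intro χ hχ
    exact aux_main z _ c₀ hκ0 (hκη.trans hη') D₀ hD₀ hb hh p₁ hp₁
      (fun _ _ _ _ => ⟨χ₀, hχ₀, hn₀, hl₀, hpd⟩) χ hχ
  · obtain ⟨p₁, hp₁, h3, h4⟩ := Nat.exists_prime_lt_and_le_two_mul (K + 1) (by omega)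
    refine ⟨p₁, D₀, hp₁, by omega, by omega, hD₀, hcard, ?_⟩
    intro χ hχ
    exact aux_main z _ c₀ hκ0 (hκη.trans hη') D₀ hD₀ hb hh p₁ hp₁
      (fun χ₀ g1 g2 g3 => absurd ⟨χ₀, g1, g2, g3⟩ hex) χ hχ

end Pool.Agent.GM
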