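import Mathlib
import Pool.Agent.Lib.MP_bae66e_nt.Mg.G033

set_option autoImplicit false

namespace Pool.Agent.GM

open Complex Metric Set

lemma D1a_logMul_iter (f : ℕ → ℂ) (k n : ℕ) :
    (LSeries.logMul^[k] f) n = (Complex.log n) ^ k * f n := by
  induction k with
  | zero => simp
  | succ k ih =>
    rw [Function.iterate_succ_apply']
    show Complex.log n * (LSeries.logMul^[k] f) n = _
    rw [ih]
    ring

/-- D1a. PROOF. `ArithmeticFunction.LSeriesSummable_vonMangoldt` says that the L-series of `Λ`
converges absolutely for `1 < re s`; `LSeries.logMul` does not change the abscissa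
(`LSeries.absicssaOfAbsConv_logPowMul`), so `∑ (log n)^k Λ(n) n^(-2)` converges absolutely
(`LSeriesSummable_of_abscissaOfAbsConv_lt_re`). The term `n = 0` is `0`. Alternatively compare
with `n^(-3/2)` (`Real.isLittleO_pow_log_id_atTop`...). -/
lemma summable_wk (k : ℕ) : Summable (fun n : ℕ => vM n * wk k n) := by
  set f : ℕ → ℂ := fun n => ((vM n : ℝ) : ℂ) with hf
  have h1 : LSeries.abscissaOfAbsConv f < ((2 : ℂ).re : EReal) := by
    have h := (ArithmeticFunction.LSeriesSummable_vonMangoldt
      (s := ((3 / 2 : ℝ) : ℂ)) (by norm_num)).abscissaOfAbsConv_le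
    refine lt_of_le_of_lt h ?_
    rw [Complex.ofReal_re]
    norm_num
  have h2 : LSeriesSummable (LSeries.logMul^[k] f) 2 := by
    apply LSeriesSummable_of_abscissaOfAbsConv_lt_re
    rw [LSeries.absicssaOfAbsConv_logPowMul]
    exact h1
  have h3 : Summable (fun n => ‖LSeries.term (LSeries.logMul^[k] f) 2 n‖) := h2.norm
  have h4 : (fun n : ℕ => vM n * wk k n)
      = fun n => (k.factorial : ℝ)⁻¹ * ‖LSeries.term (LSeries.logMul^[k] f) 2 n‖ := by
    funext n
    rcases Nat.eq_zero_or_pos n with rfl | hn
    · simp [wk, vM]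
    · have hn0 : n ≠ 0 := hn.ne'
      rw [LSeries.term_of_ne_zero hn0, D1a_logMul_iter, norm_div, norm_mul, norm_pow]
      have e1 : ‖Complex.log (n : ℂ)‖ = Real.log n := by
        rw [← Complex.natCast_log, Complex.norm_real, Real.norm_of_nonneg]
        exact Real.log_natCast_nonneg n
      have e2 : ‖f n‖ = vM n := by
        rw [hf]
        simp only
        rw [Complex.norm_real, Real.norm_of_nonneg]
        exact ArithmeticFunction.vonMangoldt_nonneg
      have e3 : ‖(n : ℂ) ^ (2 : ℂ)‖ = (n : ℝ) ^ 2 := by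
        have : (n : ℂ) ^ (2 : ℂ) = (n : ℂ) ^ (2 : ℕ) := by
          rw [← Complex.cpow_natCast]; norm_num
        rw [this, norm_pow, Complex.norm_natCast]
      rw [e1, e2, e3]
      unfold wk
      have hk : (k.factorial : ℝ) ≠ 0 := by exact_mod_cast k.factorial_ne_zero
      have hn' : (n : ℝ) ≠ 0 := by exact_mod_cast hn0
      field_simp
  rw [h4]
  exact h3.mul_left _

end Pool.Agent.GM
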