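import Mathlib
import Pool.Agent.Lib.MP_bae66e_nt.GM.Z3
import Pool.Agent.Lib.MP_bae66e_nt.GM.D1a

set_option autoImplicit false

namespace Pool.Agent.GM

open Complex Metric Set

lemma D1b_iter (q : ℕ) [NeZero q] (χ : DirichletCharacter ℂ q) (k : ℕ) :
    iteratedDeriv k (DD q χ) 2 = (-1) ^ k * ((k.factorial : ℂ) * Sk q χ k) := by
  set f : ℕ → ℂ := fun n => χ n * ((vM n : ℝ) : ℂ) with hf
  have h1 : LSeries.abscissaOfAbsConv f < ((2 : ℂ).re : EReal) := by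
    have h := (DirichletCharacter.LSeriesSummable_twist_vonMangoldt χ
      (s := ((3 / 2 : ℝ) : ℂ)) (by norm_num)).abscissaOfAbsConv_le
    refine lt_of_le_of_lt h ?_
    rw [Complex.ofReal_re]
    norm_num
  have h0 : DD q χ = LSeries f := rfl
  rw [h0, LSeries_iteratedDeriv k h1]
  congr 1
  unfold Sk
  rw [← tsum_mul_left]
  unfold LSeries
  refine tsum_congr (fun n => ?_)
  rcases Nat.eq_zero_or_pos n with rfl | hn
  · simp [vM]
  · have hn0 : n ≠ 0 := hn.ne'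
    rw [LSeries.term_of_ne_zero hn0, D1a_logMul_iter]
    have e3 : (n : ℂ) ^ (2 : ℂ) = (n : ℂ) ^ (2 : ℕ) := by
      rw [← Complex.cpow_natCast]; norm_num
    rw [e3]
    unfold wk
    have hk : (k.factorial : ℂ) ≠ 0 := by exact_mod_cast k.factorial_ne_zero
    have hn' : (n : ℂ) ≠ 0 := by exact_mod_cast hn0
    rw [← Complex.natCast_log]
    simp only [hf]
    push_cast
    field_simp

lemma D1b_nhds : {z : ℂ | 1 < z.re} ∈ nhds (2 : ℂ) := by
  have hopen : IsOpen {z : ℂ | 1 < z.re} := isOpen_lt continuous_const Complex.continuous_re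
  exact hopen.mem_nhds (by simp)

lemma D1b_an (q : ℕ) [NeZero q] (χ : DirichletCharacter ℂ q) (hF : MC.FF q χ 2 ≠ 0) :
    AnalyticAt ℂ (logDeriv (MC.FF q χ)) 2 := by
  have h : AnalyticAt ℂ (MC.FF q χ) 2 :=
    (MC.FF_differentiable q χ).analyticAt 2
  exact h.deriv.div h hF

/-- D1b. PROOF. `LSeries_iteratedDeriv` (Mathlib) at `s = 2` for `f = χ Λ` gives
`iteratedDeriv k (DD q χ) 2 = (-1)^k LSeries (logMul^[k] f) 2 = (-1)^k k! Sk q χ k`
(`logMul^[k] f n = (log n)^k f n`; `LSeries` is a `tsum` of `LSeries.term`). By `DD_eq_of_ne`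
`DD q χ = - logDeriv (MC.FF q χ)` on the open set `1 < re`, so the iterated derivatives at `2`
agree (`Filter.EventuallyEq.iteratedDeriv_eq`). -/
lemma Sk_eq (q : ℕ) [NeZero q] (χ : DirichletCharacter ℂ q) (hχ : χ ≠ 1) (k : ℕ) :
    Sk q χ k = (-1) ^ (k + 1) * (iteratedDeriv k (logDeriv (MC.FF q χ)) 2 / (k.factorial : ℂ)) := by
  have hk : (k.factorial : ℂ) ≠ 0 := by exact_mod_cast k.factorial_ne_zero
  have h1 := D1b_iter q χ k
  have hev : DD q χ =ᶠ[nhds (2 : ℂ)] - logDeriv (MC.FF q χ) := by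
    filter_upwards [D1b_nhds] with z hz
    exact DD_eq_of_ne q χ hχ z hz
  rw [hev.iteratedDeriv_eq, iteratedDeriv_neg] at h1
  have h2 : (-1 : ℂ) ^ k * (-1) ^ k = 1 := by
    rw [← mul_pow]; norm_num
  have h3 : Sk q χ k = (-1) ^ k * ((-1) ^ k * ((k.factorial : ℂ) * Sk q χ k))
      / (k.factorial : ℂ) := by
    rw [← mul_assoc, h2]
    field_simp
  rw [h3, ← h1]
  ring

/-- D1c. PROOF. As D1b with `DD_eq_one`; `iteratedDeriv k (fun s => (s - 1)⁻¹) 2 = (-1)^k k!`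
(`EM.iteratedDeriv_inv_sub` with `ρ = 1`, `c = 2`, in `Lib/MP_9cfc0a_nt/EMZeros.lean`). -/
lemma Sk_eq_one (q : ℕ) [NeZero q] (k : ℕ) :
    Sk q 1 k = (-1) ^ (k + 1) * (iteratedDeriv k (logDeriv (MC.FF q 1)) 2 / (k.factorial : ℂ))
      + 1 := by
  have hk : (k.factorial : ℂ) ≠ 0 := by exact_mod_cast k.factorial_ne_zero
  have h1 := D1b_iter q 1 k
  have hev : DD q 1 =ᶠ[nhds (2 : ℂ)]
      (- logDeriv (MC.FF q 1)) + (fun s : ℂ => (s - 1)⁻¹) := by
    filter_upwards [D1b_nhds] with z hz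
    exact DD_eq_one q z hz
  have h21 : (2 : ℂ) ≠ 1 := by norm_num
  have hF : MC.FF q 1 2 ≠ 0 := by
    rw [MC.FF_one_apply q 2 h21]
    refine mul_ne_zero (by norm_num) ?_
    rw [DirichletCharacter.LFunction_eq_LSeries _ (by simp)]
    exact DirichletCharacter.LSeries_ne_zero_of_one_lt_re _ (by simp)
  have han := D1b_an q 1 hF
  have hinv : AnalyticAt ℂ (fun s : ℂ => (s - 1)⁻¹) 2 :=
    (analyticAt_id.sub analyticAt_const).inv (by norm_num)
  rw [hev.iteratedDeriv_eq, iteratedDeriv_add han.neg.contDiffAt hinv.contDiffAt,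
    iteratedDeriv_neg, EM.iteratedDeriv_inv_sub 1 2 h21] at h1
  have h2 : (-1 : ℂ) ^ k * (-1) ^ k = 1 := by
    rw [← mul_pow]; norm_num
  have h3 : Sk q 1 k = (-1) ^ k * ((-1) ^ k * ((k.factorial : ℂ) * Sk q 1 k))
      / (k.factorial : ℂ) := by
    rw [← mul_assoc, h2]
    field_simp
  rw [h3, ← h1]
  have h4 : (2 - 1 : ℂ)⁻¹ ^ (k + 1) = 1 := by norm_num
  rw [h4]
  have h5 : (-1 : ℂ) ^ k * (-iteratedDeriv k (logDeriv (MC.FF q 1)) 2
      + (-1) ^ k * (k.factorial : ℂ) * 1) / (k.factorial : ℂ)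
      = (-1) ^ (k + 1) * (iteratedDeriv k (logDeriv (MC.FF q 1)) 2 / (k.factorial : ℂ))
      + ((-1 : ℂ) ^ k * (-1) ^ k) * ((k.factorial : ℂ) / (k.factorial : ℂ)) := by
    ring
  rw [h5, h2, div_self hk, one_mul]

end Pool.Agent.GM
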