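import Mathlib
import Pool.Agent.Lib.MP_bae66e_nt.GM.D1b
import Pool.Agent.Lib.MP_bae66e_nt.GM.Z1

set_option autoImplicit false

namespace Pool.Agent.GM

open Complex Metric Set

/-- D2a. PROOF. `Sk_eq` and the last item of `local_log` at `t = 0` (constant `C`): every zero `ρ j` has
`‖2 - ρ j‖ > 1 + κ` (`MC.FF_of_ne`, `NearZero` fails), so
`‖∑ j, ((2 - ρ j)⁻¹)^(k+1)‖ ≤ n (1+κ)^(-(k+1)) ≤ C log (q+2) (1+κ)^(-k)`. -/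
lemma Sk_small : ∃ C : ℝ, 1 ≤ C ∧ ∀ (q : ℕ) [NeZero q] (χ : DirichletCharacter ℂ q) (κ : ℝ)
    (k : ℕ), χ ≠ 1 → 0 ≤ κ → ¬ NearZero q χ κ →
      ‖Sk q χ k‖ ≤ C * Real.log (q + 2) * (((1 + κ)⁻¹) ^ k + (10 / 17 : ℝ) ^ k) := by
  obtain ⟨C, hC1, hC⟩ := local_log
  refine ⟨C, hC1, ?_⟩
  intro q _ χ κ k hχ hκ hnz
  obtain ⟨n, ρ, hn, hzero, -, -, -, hder⟩ := hC q χ 0 (by norm_num)
  have h0 : (2 : ℂ) + ((0 : ℝ) : ℂ) * I = 2 := by simp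
  rw [h0] at hder
  have h1 := hder k
  have hpos : 0 < 1 + κ := by linarith
  have hinv1 : (1 + κ)⁻¹ ≤ 1 := inv_le_one_of_one_le₀ (by linarith)
  have hinv0 : 0 ≤ (1 + κ)⁻¹ := inv_nonneg.2 hpos.le
  have h2 : ∀ j, ‖((2 : ℂ) - ρ j)⁻¹ ^ (k + 1)‖ ≤ ((1 + κ)⁻¹) ^ k := by
    intro j
    have hz : χ.LFunction (ρ j) = 0 := by
      rw [← MC.FF_of_ne q χ hχ]
      exact hzero j
    have hfar : 1 + κ < ‖ρ j - 2‖ := by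
      by_contra hcon
      exact hnz ⟨ρ j, hz, not_lt.1 hcon⟩
    rw [norm_sub_rev] at hfar
    rw [norm_pow, norm_inv]
    have h3 : ‖(2 : ℂ) - ρ j‖⁻¹ ≤ (1 + κ)⁻¹ := inv_anti₀ hpos hfar.le
    calc ‖(2 : ℂ) - ρ j‖⁻¹ ^ (k + 1) ≤ ((1 + κ)⁻¹) ^ (k + 1) :=
          pow_le_pow_left₀ (by positivity) h3 _
      _ = ((1 + κ)⁻¹) ^ k * (1 + κ)⁻¹ := pow_succ _ _
      _ ≤ ((1 + κ)⁻¹) ^ k * 1 := mul_le_mul_of_nonneg_left hinv1 (by positivity)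
      _ = ((1 + κ)⁻¹) ^ k := mul_one _
  have h3 : ‖∑ j, ((2 : ℂ) - ρ j)⁻¹ ^ (k + 1)‖ ≤ C * Real.log (q + 2) * ((1 + κ)⁻¹) ^ k := by
    calc ‖∑ j, ((2 : ℂ) - ρ j)⁻¹ ^ (k + 1)‖ ≤ ∑ j, ‖((2 : ℂ) - ρ j)⁻¹ ^ (k + 1)‖ :=
          norm_sum_le _ _
      _ ≤ ∑ _j : Fin n, ((1 + κ)⁻¹) ^ k := Finset.sum_le_sum (fun j _ => h2 j)
      _ = n * ((1 + κ)⁻¹) ^ k := by
        rw [Finset.sum_const, Finset.card_univ, Fintype.card_fin, nsmul_eq_mul]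
      _ ≤ C * Real.log (q + 2) * ((1 + κ)⁻¹) ^ k :=
        mul_le_mul_of_nonneg_right hn (by positivity)
  have h4 : ‖Sk q χ k‖ =
      ‖iteratedDeriv k (logDeriv (MC.FF q χ)) 2 / (k.factorial : ℂ)‖ := by
    rw [Sk_eq q χ hχ k, norm_mul, norm_pow, norm_neg, norm_one, one_pow, one_mul]
  rw [h4]
  have h5 : iteratedDeriv k (logDeriv (MC.FF q χ)) 2 / (k.factorial : ℂ) =
      (iteratedDeriv k (logDeriv (MC.FF q χ)) 2 / (k.factorial : ℂ)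
        - (-1) ^ k * ∑ j, (((2 : ℂ) - ρ j)⁻¹) ^ (k + 1)) +
      (-1) ^ k * ∑ j, (((2 : ℂ) - ρ j)⁻¹) ^ (k + 1) := by ring
  rw [h5]
  refine (norm_add_le _ _).trans ?_
  have h6 : ‖(-1 : ℂ) ^ k * ∑ j, (((2 : ℂ) - ρ j)⁻¹) ^ (k + 1)‖ ≤
      C * Real.log (q + 2) * ((1 + κ)⁻¹) ^ k := by
    rw [norm_mul, norm_pow, norm_neg, norm_one, one_pow, one_mul]
    exact h3
  calc _ ≤ C * Real.log (q + 2) * (10 / 17 : ℝ) ^ k + C * Real.log (q + 2) * ((1 + κ)⁻¹) ^ k :=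
        add_le_add h1 h6
    _ = _ := by ring

end Pool.Agent.GM
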