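import Mathlib
import Pool.Agent.Lib.MP_bae66e_nt.Mg.G033

set_option autoImplicit false

namespace Pool.Agent.GM

open Complex Metric Set

/-- D2b. PROOF. `MC.FF 1 1` (that is `(s - 1) ζ(s)`) is entire and has no zeros for `1 ≤ re s`
(`EM.ZD_FF_ne`), in particular none in the compact disc `closedBall 2 1`; as in S3a
(`exists_gap`) there is `κ ∈ (0, 1/10]` such that it has no zeros in `closedBall 2 (1 + κ)`. For
general `q`, `MC.FF q 1 s = MC.FF 1 1 s * ∏ p ∈ q.primeFactors, (1 - p^(-s))` for `s ≠ 1`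
(`MC.FF_one_apply`, `DirichletCharacter.LFunctionTrivChar_eq_mul_riemannZeta`,
`DirichletCharacter.LFunction_modOne_eq`) and the factors do not
vanish for `0 < re s`; `MC.FF q 1 1 ≠ 0` by `EM.ZD_FF_ne`. -/
lemma FF_one_gap : ∃ κ : ℝ, 0 < κ ∧ κ ≤ 1 / 10 ∧ ∀ (q : ℕ) [NeZero q] (ρ : ℂ),
    MC.FF q 1 ρ = 0 → 1 + κ < ‖ρ - 2‖ := by
  have hcont : Continuous (MC.FF 1 1) := (MC.FF_differentiable 1 1).continuous
  have hopen : IsOpen {s : ℂ | MC.FF 1 1 s ≠ 0} := isOpen_ne_fun hcont continuous_const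
  have hsub : closedBall (2 : ℂ) 1 ⊆ {s : ℂ | MC.FF 1 1 s ≠ 0} := by
    intro s hs
    have h1 : ‖s - 2‖ ≤ 1 := by rwa [mem_closedBall, dist_eq_norm] at hs
    have h2 : |(s - 2).re| ≤ ‖s - 2‖ := Complex.abs_re_le_norm _
    have h3 : (s - 2).re = s.re - 2 := by simp
    have h4 := (abs_le.mp (h2.trans h1)).1
    rw [h3] at h4
    exact EM.ZD_FF_ne 1 1 s (by linarith)
  obtain ⟨δ, hδ, hδsub⟩ := (isCompact_closedBall (2 : ℂ) 1).exists_cthickening_subset_open hopen hsub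
  rw [cthickening_closedBall hδ.le zero_le_one] at hδsub
  refine ⟨min δ (1 / 10), lt_min hδ (by norm_num), min_le_right _ _, ?_⟩
  intro q _ ρ hρ
  by_contra hlt
  rw [not_lt] at hlt
  have hk1 : min δ (1 / 10) ≤ δ := min_le_left _ _
  have hk2 : min δ (1 / 10) ≤ 1 / 10 := min_le_right _ _
  have hre : 0 < ρ.re := by
    have h2 : |(ρ - 2).re| ≤ ‖ρ - 2‖ := Complex.abs_re_le_norm _
    have h3 : (ρ - 2).re = ρ.re - 2 := by simp
    have h4 := (abs_le.mp (h2.trans hlt)).1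
    rw [h3] at h4
    linarith
  have hne1 : ρ ≠ 1 := by
    intro h
    rw [h] at hρ
    exact EM.ZD_FF_ne q 1 1 (by simp) hρ
  have hsub1 : ρ - 1 ≠ 0 := sub_ne_zero.mpr hne1
  have hmem : MC.FF 1 1 ρ ≠ 0 := by
    apply hδsub
    rw [mem_closedBall, dist_eq_norm]
    linarith
  apply hmem
  rw [MC.FF_one_apply q ρ hne1] at hρ
  have hL : (1 : DirichletCharacter ℂ q).LFunction ρ = 0 := by
    rcases mul_eq_zero.mp hρ with h | h
    · exact absurd h hsub1
    · exact h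
  have hz : riemannZeta ρ = 0 := by
    have h5 := DirichletCharacter.LFunctionTrivChar_eq_mul_riemannZeta (N := q) hne1
    rw [DirichletCharacter.LFunctionTrivChar, hL] at h5
    rcases mul_eq_zero.mp h5.symm with h | h
    · exfalso
      obtain ⟨p, hp, hp0⟩ := Finset.prod_eq_zero_iff.mp h
      have hpp : p.Prime := Nat.prime_of_mem_primeFactors hp
      have h6 : (p : ℂ) ^ (-ρ) = 1 := (sub_eq_zero.mp hp0).symm
      have h7 : ‖(p : ℂ) ^ (-ρ)‖ = (p : ℝ) ^ (-ρ).re :=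
        Complex.norm_natCast_cpow_of_pos hpp.pos _
      rw [h6, norm_one] at h7
      have h8 : (p : ℝ) ^ (-ρ).re < 1 := by
        apply Real.rpow_lt_one_of_one_lt_of_neg
        · exact_mod_cast hpp.one_lt
        · simpa using hre
      linarith
    · exact h
  rw [MC.FF_one_apply 1 ρ hne1, DirichletCharacter.LFunction_modOne_eq, hz, mul_zero]

end Pool.Agent.GM
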