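import Mathlib
import Pool.Agent.Lib.MP_bae66e_nt.GM.D1b
import Pool.Agent.Lib.MP_bae66e_nt.GM.D2b
import Pool.Agent.Lib.MP_bae66e_nt.GM.Z1

set_option autoImplicit false

namespace Pool.Agent.GM

open Complex Metric Set

/-- D2c. PROOF. As D2a, with `Sk_eq_one` and `FF_one_gap`. -/
lemma Sk_one : ∃ C κ : ℝ, 1 ≤ C ∧ 0 < κ ∧ κ ≤ 1 / 10 ∧ ∀ (q : ℕ) [NeZero q] (k : ℕ),
      ‖Sk q 1 k - 1‖ ≤ C * Real.log (q + 2) * (((1 + κ)⁻¹) ^ k + (10 / 17 : ℝ) ^ k) := by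
  obtain ⟨C, hC, hloc⟩ := local_log
  obtain ⟨κ, hκ0, hκ1, hgap⟩ := FF_one_gap
  refine ⟨C, κ, hC, hκ0, hκ1, ?_⟩
  intro q _ k
  obtain ⟨n, ρ, hn, hz, -, -, -, hd⟩ := hloc q 1 0 (by norm_num)
  have hd' := hd k
  have h2 : (2 : ℂ) + ((0 : ℝ) : ℂ) * I = 2 := by simp
  rw [h2] at hd'
  have hlog : 0 ≤ Real.log ((q : ℝ) + 2) :=
    Real.log_nonneg (by linarith [(Nat.cast_nonneg q : (0 : ℝ) ≤ q)])
  have e1 : Sk q 1 k - 1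
      = (-1) ^ (k + 1) * (iteratedDeriv k (logDeriv (MC.FF q 1)) 2 / (k.factorial : ℂ)) := by
    rw [Sk_eq_one q k]
    ring
  rw [e1, norm_mul, norm_pow, norm_neg, norm_one, one_pow, one_mul]
  have hinv : 0 ≤ (1 + κ)⁻¹ := by positivity
  have hinv1 : (1 + κ)⁻¹ ≤ 1 := inv_le_one_of_one_le₀ (by linarith)
  have e2 : ‖(-1 : ℂ) ^ k * ∑ j, ((2 - ρ j)⁻¹) ^ (k + 1)‖
      ≤ C * Real.log (q + 2) * ((1 + κ)⁻¹) ^ k := by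
    rw [norm_mul, norm_pow, norm_neg, norm_one, one_pow, one_mul]
    have h3 : ∀ j : Fin n, ‖((2 - ρ j)⁻¹) ^ (k + 1)‖ ≤ ((1 + κ)⁻¹) ^ k := by
      intro j
      have h4 : 1 + κ < ‖ρ j - 2‖ := hgap q (ρ j) (hz j)
      have h5 : ‖(2 - ρ j)⁻¹‖ ≤ (1 + κ)⁻¹ := by
        rw [norm_inv, norm_sub_rev]
        exact inv_anti₀ (by linarith) h4.le
      rw [norm_pow]
      calc ‖(2 - ρ j)⁻¹‖ ^ (k + 1) ≤ ((1 + κ)⁻¹) ^ (k + 1) :=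
            pow_le_pow_left₀ (norm_nonneg _) h5 _
        _ ≤ ((1 + κ)⁻¹) ^ k := pow_le_pow_of_le_one hinv hinv1 (Nat.le_succ k)
    calc ‖∑ j, ((2 - ρ j)⁻¹) ^ (k + 1)‖ ≤ ∑ j : Fin n, ‖((2 - ρ j)⁻¹) ^ (k + 1)‖ :=
          norm_sum_le _ _
      _ ≤ ∑ _j : Fin n, ((1 + κ)⁻¹) ^ k := Finset.sum_le_sum (fun j _ => h3 j)
      _ = (n : ℝ) * ((1 + κ)⁻¹) ^ k := by
          rw [Finset.sum_const, Finset.card_univ, Fintype.card_fin, nsmul_eq_mul]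
      _ ≤ C * Real.log (q + 2) * ((1 + κ)⁻¹) ^ k :=
          mul_le_mul_of_nonneg_right hn (pow_nonneg hinv k)
  calc ‖iteratedDeriv k (logDeriv (MC.FF q 1)) 2 / (k.factorial : ℂ)‖
      = ‖(iteratedDeriv k (logDeriv (MC.FF q 1)) 2 / (k.factorial : ℂ)
          - (-1) ^ k * ∑ j, ((2 - ρ j)⁻¹) ^ (k + 1))
          + (-1) ^ k * ∑ j, ((2 - ρ j)⁻¹) ^ (k + 1)‖ := by rw [sub_add_cancel]
    _ ≤ ‖iteratedDeriv k (logDeriv (MC.FF q 1)) 2 / (k.factorial : ℂ)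
          - (-1) ^ k * ∑ j, ((2 - ρ j)⁻¹) ^ (k + 1)‖
          + ‖(-1 : ℂ) ^ k * ∑ j, ((2 - ρ j)⁻¹) ^ (k + 1)‖ := norm_add_le _ _
    _ ≤ C * Real.log (q + 2) * (10 / 17 : ℝ) ^ k
          + C * Real.log (q + 2) * ((1 + κ)⁻¹) ^ k := add_le_add hd' e2
    _ = C * Real.log (q + 2) * (((1 + κ)⁻¹) ^ k + (10 / 17 : ℝ) ^ k) := by ring

end Pool.Agent.GM
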