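import Mathlib
import Pool.Agent.Lib.MP_bae66e_nt.GM.D1a

set_option autoImplicit false

namespace Pool.Agent.GM

open Complex Metric Set

lemma D3_wk_nonneg (k n : ℕ) : 0 ≤ wk k n := by
  unfold wk
  have : 0 ≤ Real.log n := Real.log_natCast_nonneg n
  positivity

lemma D3_summable (q : ℕ) [NeZero q] (χ : DirichletCharacter ℂ q) (k : ℕ) :
    Summable (fun n : ℕ => ((vM n : ℝ) : ℂ) * χ n * ((wk k n : ℝ) : ℂ)) := by
  refine Summable.of_norm_bounded (summable_wk k) (fun n => ?_)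
  rw [norm_mul, norm_mul, Complex.norm_real, Complex.norm_real,
    Real.norm_of_nonneg (D3_wk_nonneg k n),
    Real.norm_of_nonneg (ArithmeticFunction.vonMangoldt_nonneg (n := n))]
  have h1 : ‖χ n‖ ≤ 1 := DirichletCharacter.norm_le_one χ n
  have h2 : 0 ≤ vM n := ArithmeticFunction.vonMangoldt_nonneg
  have h3 := D3_wk_nonneg k n
  have h4 : vM n * ‖χ n‖ ≤ vM n * 1 := mul_le_mul_of_nonneg_left h1 h2
  calc vM n * ‖χ n‖ * wk k n ≤ vM n * 1 * wk k n := mul_le_mul_of_nonneg_right h4 h3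
    _ = vM n * wk k n := by ring

/-- D3. PROOF. Orthogonality `DirichletCharacter.sum_char_inv_mul_char_eq` (with `a = c`, a unit,
`b = n`): `∑ χ, χ c⁻¹ χ n = φ(q)` if `n ≡ c` mod `q` and `0` otherwise
(`ZMod.natCast_eq_natCast_iff`). Multiply by `Λ(n) wk k n` and sum over `n`; all series converge
absolutely by `summable_wk` (`‖χ n‖ ≤ 1`, `Summable.of_norm_bounded`), so the finite sum and the
`tsum` may be exchanged (`Summable.tsum_finsetSum`). -/
lemma orth (q : ℕ) [NeZero q] (k c : ℕ) (hc : c.Coprime q) :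
    (q.totient : ℂ) * ((∑' n : ℕ, (if n ≡ c [MOD q] then vM n * wk k n else 0) : ℝ) : ℂ)
      = ∑ χ : DirichletCharacter ℂ q, χ ((c : ZMod q)⁻¹) * Sk q χ k := by
  have hu : IsUnit (c : ZMod q) := (ZMod.isUnit_iff_coprime c q).mpr hc
  have hR : ∑ χ : DirichletCharacter ℂ q, χ ((c : ZMod q)⁻¹) * Sk q χ k
      = ∑' n : ℕ, ∑ χ : DirichletCharacter ℂ q,
        χ ((c : ZMod q)⁻¹) * (((vM n : ℝ) : ℂ) * χ n * ((wk k n : ℝ) : ℂ)) := by
    rw [Summable.tsum_finsetSum (fun χ _ => (D3_summable q χ k).mul_left _)]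
    refine Finset.sum_congr rfl (fun χ _ => ?_)
    rw [tsum_mul_left]
    rfl
  rw [hR, Complex.ofReal_tsum, ← tsum_mul_left]
  refine tsum_congr (fun n => ?_)
  have h1 : ∑ χ : DirichletCharacter ℂ q,
        χ ((c : ZMod q)⁻¹) * (((vM n : ℝ) : ℂ) * χ n * ((wk k n : ℝ) : ℂ))
      = (∑ χ : DirichletCharacter ℂ q, χ ((c : ZMod q)⁻¹) * χ (n : ZMod q))
        * (((vM n : ℝ) : ℂ) * ((wk k n : ℝ) : ℂ)) := by
    rw [Finset.sum_mul]
    refine Finset.sum_congr rfl (fun χ _ => ?_)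
    ring
  rw [h1, DirichletCharacter.sum_char_inv_mul_char_eq ℂ hu]
  by_cases h : n ≡ c [MOD q]
  · have h' : (c : ZMod q) = (n : ZMod q) := ((ZMod.natCast_eq_natCast_iff n c q).mpr h).symm
    rw [if_pos h, if_pos h']
    push_cast
    ring
  · have h' : ¬ (c : ZMod q) = (n : ZMod q) := fun h2 =>
      h ((ZMod.natCast_eq_natCast_iff n c q).mp h2.symm)
    rw [if_neg h, if_neg h']
    simp

end Pool.Agent.GM
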