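import Mathlib
import Pool.Agent.Lib.MP_bae66e_nt.GM.D2a
import Pool.Agent.Lib.MP_bae66e_nt.GM.A8

set_option autoImplicit false

namespace Pool.Agent.GM

open Complex Metric Set

private lemma D4_mono {q : ℕ} [NeZero q] {χ : DirichletCharacter ℂ q} {a b : ℝ}
    (h : NearZero q χ a) (hab : a ≤ b) : NearZero q χ b := by
  obtain ⟨ρ, h1, h2⟩ := h
  exact ⟨ρ, h1, by linarith⟩

private lemma D4_exp_half (x : ℝ) (h0 : 0 ≤ x) (h1 : x ≤ 1) : Real.exp (x / 2) ≤ 1 + x := by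
  have h2 := Real.add_one_le_exp (-(x / 2))
  have h3 : Real.exp (x / 2) * Real.exp (-(x / 2)) = 1 := by
    rw [← Real.exp_add, add_neg_cancel, Real.exp_zero]
  have h4 : 0 < Real.exp (x / 2) := Real.exp_pos _
  have h5 : Real.exp (x / 2) * (-(x / 2) + 1) ≤ 1 := by
    have h8 := mul_le_mul_of_nonneg_left h2 h4.le
    rw [h3] at h8
    exact h8
  by_contra hcon
  push Not at hcon
  have h6 : (1 + x) * (-(x / 2) + 1) < Real.exp (x / 2) * (-(x / 2) + 1) :=
    mul_lt_mul_of_pos_right hcon (by linarith)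
  have h7 : 1 ≤ (1 + x) * (-(x / 2) + 1) := by
    have : 0 ≤ x * (1 - x) := mul_nonneg h0 (by linarith)
    nlinarith
  linarith

/-- one character with a zero -/
private lemma D4_point {C : ℝ} (hC1 : 1 ≤ C)
    (hC : ∀ (q : ℕ) [NeZero q] (χ : DirichletCharacter ℂ q) (κ : ℝ)
      (k : ℕ), χ ≠ 1 → 0 ≤ κ → ¬ NearZero q χ κ →
      ‖Sk q χ k‖ ≤ C * Real.log (q + 2) * (((1 + κ)⁻¹) ^ k + (10 / 17 : ℝ) ^ k))
    (q : ℕ) [NeZero q] (χ : DirichletCharacter ℂ q) (hχ : χ ≠ 1) (k : ℕ) (κ L : ℝ)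
    (hL : Real.log (q + 2) ≤ L) (h0 : 0 ≤ κ)
    (h1 : κ ≤ 1 / 20) (hn : ¬ NearZero q χ κ) :
    ‖Sk q χ k‖ ≤ 2 * C * L * Real.exp (-(k * κ / 2)) := by
  have hL0 : 0 ≤ Real.log ((q : ℝ) + 2) := Real.log_nonneg (by
    have : (0 : ℝ) ≤ q := Nat.cast_nonneg q
    linarith)
  have h2 := hC q χ κ k hχ h0 hn
  have h3 : (10 / 17 : ℝ) ^ k ≤ ((1 + κ)⁻¹) ^ k := by
    refine pow_le_pow_left₀ (by norm_num) ?_ k
    rw [le_inv_comm₀ (by norm_num) (by linarith)]
    norm_num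
    linarith
  have h4 : ((1 + κ)⁻¹) ^ k ≤ Real.exp (-(k * κ / 2)) := by
    have h5 := D4_exp_half κ h0 (by linarith)
    have h6 : (1 + κ)⁻¹ ≤ Real.exp (-(κ / 2)) := by
      rw [Real.exp_neg]
      exact inv_anti₀ (Real.exp_pos _) h5
    have h7 : Real.exp (-(k * κ / 2)) = Real.exp (-(κ / 2)) ^ k := by
      rw [← Real.exp_nat_mul]
      congr 1
      ring
    rw [h7]
    exact pow_le_pow_left₀ (by positivity) h6 k
  calc ‖Sk q χ k‖ ≤ C * Real.log (q + 2) * (((1 + κ)⁻¹) ^ k + (10 / 17 : ℝ) ^ k) := h2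
    _ ≤ C * Real.log (q + 2) * (2 * Real.exp (-(k * κ / 2))) := by
        refine mul_le_mul_of_nonneg_left (by linarith) (by positivity)
    _ ≤ C * L * (2 * Real.exp (-(k * κ / 2))) := by
        refine mul_le_mul_of_nonneg_right ?_ (by positivity)
        exact mul_le_mul_of_nonneg_left hL (by linarith)
    _ = 2 * C * L * Real.exp (-(k * κ / 2)) := by ring

/-- a level for every character with a zero -/
private lemma D4_level {q : ℕ} [NeZero q] {χ : DirichletCharacter ℂ q} {k : ℕ} (κ : ℕ → ℝ)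
    (h0 : ¬ NearZero q χ (κ 0)) (hk : 1 / 20 ≤ κ k) (h : NearZero q χ (1 / 20)) :
    ∃ i < k, ¬ NearZero q χ (κ i) ∧ NearZero q χ (κ (i + 1)) ∧ κ i < 1 / 20 := by
  classical
  have hex : ∃ j, NearZero q χ (κ j) := ⟨k, D4_mono h hk⟩
  have hj := Nat.find_spec hex
  have hmin := fun m => Nat.find_min hex (m := m)
  have hle : Nat.find hex ≤ k := Nat.find_min' hex (D4_mono h hk)
  generalize Nat.find hex = j at hj hmin hle
  cases j with
  | zero => exact absurd hj h0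
  | succ i =>
    refine ⟨i, by omega, hmin i (by omega), hj, ?_⟩
    by_contra hcon
    push Not at hcon
    exact hmin i (by omega) (D4_mono h hcon)

private lemma D4_log (q : ℕ) [NeZero q] (k : ℕ) (hk : 20 ≤ k) (hq : Real.log q ≤ k / 80) :
    Real.log (q + 2) ≤ k := by
  have hq1 : (1 : ℝ) ≤ q := by exact_mod_cast Nat.one_le_iff_ne_zero.mpr (NeZero.ne q)
  have h1 : Real.log ((q : ℝ) + 2) ≤ Real.log (3 * q) :=
    Real.log_le_log (by linarith) (by linarith)
  rw [Real.log_mul (by norm_num) (by positivity)] at h1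
  have h2 : Real.log (3 : ℝ) ≤ 3 - 1 := Real.log_le_sub_one_of_pos (by norm_num)
  have h3 : (20 : ℝ) ≤ k := by exact_mod_cast hk
  linarith

/-- the first part -/
private lemma D4_part1 (q : ℕ) [NeZero q] (k : ℕ) (hk : 20 ≤ k) (hq : Real.log q ≤ k / 80) :
    (q : ℝ) * ((k : ℝ) * Real.exp (-(k * (1 / 20) / 2))) ≤ 12800 / k := by
  have hq1 : (1 : ℝ) ≤ q := by exact_mod_cast Nat.one_le_iff_ne_zero.mpr (NeZero.ne q)
  have h3 : (20 : ℝ) ≤ k := by exact_mod_cast hk
  have h4 : (q : ℝ) ≤ Real.exp (k / 80) := by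
    rw [← Real.exp_log (by linarith : (0 : ℝ) < q)]
    exact Real.exp_le_exp.mpr hq
  have h5 : Real.exp (k / 80) * Real.exp (-(k * (1 / 20) / 2)) = Real.exp (-(k / 80)) := by
    rw [← Real.exp_add]
    congr 1
    ring
  have h6 : ((k : ℝ) / 80) ^ 2 / 2 ≤ Real.exp (k / 80) := by
    have := Real.quadratic_le_exp_of_nonneg (x := (k : ℝ) / 80) (by positivity)
    have h7 : (0 : ℝ) ≤ (k : ℝ) / 80 := by positivity
    linarith
  have h8 : Real.exp (-((k : ℝ) / 80)) ≤ 12800 / (k : ℝ) ^ 2 := by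
    rw [Real.exp_neg]
    rw [inv_le_comm₀ (Real.exp_pos _) (by positivity)]
    refine le_trans (le_of_eq ?_) h6
    field_simp
    norm_num
  calc (q : ℝ) * ((k : ℝ) * Real.exp (-(k * (1 / 20) / 2)))
      ≤ Real.exp (k / 80) * ((k : ℝ) * Real.exp (-(k * (1 / 20) / 2))) :=
        mul_le_mul_of_nonneg_right h4 (by positivity)
    _ = (k : ℝ) * (Real.exp (k / 80) * Real.exp (-(k * (1 / 20) / 2))) := by ring
    _ = (k : ℝ) * Real.exp (-(k / 80)) := by rw [h5]
    _ ≤ (k : ℝ) * (12800 / (k : ℝ) ^ 2) := mul_le_mul_of_nonneg_left h8 (by positivity)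
    _ = 12800 / k := by field_simp

/-- the second part -/
private lemma D4_part2 {C C2 : ℝ} (hC1 : 1 ≤ C) (hC2 : 1 ≤ C2) (q : ℕ) [NeZero q] (k : ℕ)
    (hk : 20 ≤ k) (hq : Real.log q ≤ k / 80) (κ : ℝ) (h0 : 64 * Real.log k / k ≤ κ) (N : ℝ)
    (hN : N ≤ C2 * (Real.log (q + 2)) ^ 6 * (q : ℝ) ^ (10 * (κ + 1 / k))) :
    N * (2 * C * k * Real.exp (-(k * κ / 2))) ≤ 4 * C * C2 / (k : ℝ) ^ 2 := by
  have hq1 : (1 : ℝ) ≤ q := by exact_mod_cast Nat.one_le_iff_ne_zero.mpr (NeZero.ne q)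
  have h3 : (20 : ℝ) ≤ k := by exact_mod_cast hk
  have hk0 : (0 : ℝ) < k := by linarith
  have hlk : 0 ≤ Real.log (k : ℝ) := Real.log_nonneg (by linarith)
  have hκ0 : 0 ≤ κ := le_trans (by positivity) h0
  have hL0 : 0 ≤ Real.log ((q : ℝ) + 2) := Real.log_nonneg (by linarith)
  have hL := D4_log q k hk hq
  have e1 : (Real.log ((q : ℝ) + 2)) ^ 6 ≤ (k : ℝ) ^ 6 := pow_le_pow_left₀ hL0 hL 6
  have e2 : (q : ℝ) ^ (10 * (κ + 1 / k)) ≤ Real.exp (k * κ / 8 + 1 / 8) := by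
    rw [Real.rpow_def_of_pos (by linarith)]
    refine Real.exp_le_exp.mpr ?_
    have e3 : Real.log q * (10 * (κ + 1 / k)) ≤ k / 80 * (10 * (κ + 1 / k)) :=
      mul_le_mul_of_nonneg_right hq (by positivity)
    refine e3.trans (le_of_eq ?_)
    field_simp
    ring
  have e4 : N ≤ C2 * (k : ℝ) ^ 6 * Real.exp (k * κ / 8 + 1 / 8) := by
    refine hN.trans ?_
    refine mul_le_mul ?_ e2 (by positivity) (by positivity)
    exact mul_le_mul_of_nonneg_left e1 (by linarith)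
  have e5 : Real.exp (1 / 8 : ℝ) ≤ 2 := by
    have := D4_exp_half (1 / 4) (by norm_num) (by norm_num)
    norm_num at this ⊢
    linarith
  have e6 : Real.exp (-(3 * (k * κ) / 8)) ≤ ((k : ℝ) ^ 24)⁻¹ := by
    have e7 : (k : ℝ) ^ 24 = Real.exp (24 * Real.log k) := by
      rw [← Real.log_rpow hk0, Real.exp_log (by positivity)]
      norm_cast
    rw [e7, ← Real.exp_neg]
    refine Real.exp_le_exp.mpr ?_
    rw [div_le_iff₀ hk0] at h0
    linarith
  have e8 : Real.exp (k * κ / 8 + 1 / 8) * Real.exp (-(k * κ / 2)) =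
      Real.exp (1 / 8) * Real.exp (-(3 * (k * κ) / 8)) := by
    rw [← Real.exp_add, ← Real.exp_add]
    congr 1
    ring
  calc N * (2 * C * k * Real.exp (-(k * κ / 2)))
      ≤ C2 * (k : ℝ) ^ 6 * Real.exp (k * κ / 8 + 1 / 8) *
          (2 * C * k * Real.exp (-(k * κ / 2))) :=
        mul_le_mul_of_nonneg_right e4 (by positivity)
    _ = 2 * C * C2 * (k : ℝ) ^ 7 *
          (Real.exp (k * κ / 8 + 1 / 8) * Real.exp (-(k * κ / 2))) := by ring
    _ = 2 * C * C2 * (k : ℝ) ^ 7 * (Real.exp (1 / 8) * Real.exp (-(3 * (k * κ) / 8))) := by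
        rw [e8]
    _ ≤ 2 * C * C2 * (k : ℝ) ^ 7 * (2 * ((k : ℝ) ^ 24)⁻¹) := by
        refine mul_le_mul_of_nonneg_left ?_ (by positivity)
        exact mul_le_mul e5 e6 (Real.exp_pos _).le (by norm_num)
    _ = 4 * C * C2 * ((k : ℝ) ^ 7 * ((k : ℝ) ^ 24)⁻¹) := by ring
    _ ≤ 4 * C * C2 * ((k : ℝ) ^ 2)⁻¹ := by
        refine mul_le_mul_of_nonneg_left ?_ (by positivity)
        have e9 : (k : ℝ) ^ 24 = (k : ℝ) ^ 7 * (k : ℝ) ^ 17 := by ring
        rw [e9, mul_inv, ← mul_assoc, mul_inv_cancel₀ (by positivity), one_mul]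
        refine inv_anti₀ (by positivity) ?_
        exact pow_le_pow_right₀ (by linarith) (by norm_num)
    _ = 4 * C * C2 / (k : ℝ) ^ 2 := by rw [div_eq_mul_inv]

open scoped Classical in
/-- D4. PROOF. Let `κ₀ = 64 log k / k`, `k` large (so `κ₀ ≤ 1/40`, `log (q+2) ≤ k`).
(i) The `χ` with `¬ NearZero q χ (1/20)`: at most `φ(q) ≤ q ≤ e^(k/80)` of them, each with
`‖Sk‖ ≤ 2 C k (20/21)^k` (`Sk_small`, `10/17 ≤ 20/21`); `log (21/20) ≥ 1/21 > 1/80 + 1/40`, so the
total is `≤ 2 C k e^(-k/40)`, small.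
(ii) The `χ` with `NearZero q χ (1/20)`: put `κ i = κ₀ + i / k`. As `¬ NearZero q χ (κ 0)` and
`NearZero q χ (κ k)` (`κ k ≥ 1`; `NearZero` is monotone in `κ`), `Nat.find` gives `i < k` with
`¬ NearZero q χ (κ i)`, `NearZero q χ (κ (i+1))`, and `κ i < 1/20`, `κ (i+1) ≤ 1/10`. For each
`i` (at most `k` values) with `κ i < 1/20` the number of these `χ` is at most
`C k^6 q^(10 κ (i+1)) ≤ C k^6 e^(k κ (i+1) / 8) = C k^6 e^(1/8) e^(k κ i / 8)` (`density`) and each has
`‖Sk‖ ≤ C k * 2 (1 + κ i)^(-k) ≤ 2 C k e^(-k κ i / 2)` (`log (1 + κ) ≥ κ/2` on `[0, 1/20]`). The product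
is at most `4 C^2 k^7 e^(-3 k κ i / 8) ≤ 4 C^2 k^7 e^(-3 k κ₀/8) = 4 C^2 k^(7 - 24)`; times `k` it
is small. -/
lemma sum_nonprincipal (δ : ℝ) (hδ : 0 < δ) : ∃ k₀ : ℕ, ∀ k : ℕ, k₀ ≤ k → ∀ (q : ℕ) [NeZero q],
    Real.log q ≤ k / 80 →
    (∀ χ : DirichletCharacter ℂ q, χ ≠ 1 → ¬ NearZero q χ (64 * Real.log k / k)) →
      ∑ χ ∈ Finset.univ.filter (fun χ : DirichletCharacter ℂ q => χ ≠ 1), ‖Sk q χ k‖ ≤ δ := by
  obtain ⟨C, hC1, hC⟩ := Sk_small
  obtain ⟨C2, hC2, hD⟩ := density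
  refine ⟨20 + ⌈(25600 * C + 4 * C * C2) / δ⌉₊, fun k hk q _ hq hno => ?_⟩
  have hk20 : 20 ≤ k := by omega
  have h3 : (20 : ℝ) ≤ k := by exact_mod_cast hk20
  have hk0 : (0 : ℝ) < k := by linarith
  have hlk : 0 ≤ Real.log (k : ℝ) := Real.log_nonneg (by linarith)
  have hkδ : (25600 * C + 4 * C * C2) / δ ≤ k := by
    have h4 : ⌈(25600 * C + 4 * C * C2) / δ⌉₊ ≤ k := by omega
    exact (Nat.le_ceil _).trans (by exact_mod_cast h4)
  have hL := D4_log q k hk20 hq
  -- the levels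
  obtain ⟨κ, hκ⟩ : ∃ κ : ℕ → ℝ, ∀ i, κ i = 64 * Real.log k / k + i / k := ⟨_, fun i => rfl⟩
  have hκ0 : ∀ i, 64 * Real.log k / k ≤ κ i := fun i => by
    rw [hκ]
    have : (0 : ℝ) ≤ (i : ℝ) / k := by positivity
    linarith
  have hκpos : ∀ i, 0 ≤ κ i := fun i => le_trans (by positivity) (hκ0 i)
  have hκs : ∀ i, κ (i + 1) = κ i + 1 / k := fun i => by
    rw [hκ, hκ]
    push_cast
    ring
  have hκk : 1 / 20 ≤ κ k := by
    rw [hκ, div_self hk0.ne']
    have : 0 ≤ 64 * Real.log (k : ℝ) / k := by positivity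
    linarith
  -- pointwise bound
  have hpt : ∀ χ ∈ Finset.univ.filter (fun χ : DirichletCharacter ℂ q => χ ≠ 1),
      ‖Sk q χ k‖ ≤ 2 * C * k * Real.exp (-(k * (1 / 20) / 2)) +
        ∑ i ∈ (Finset.range k).filter (fun i => κ i < 1 / 20),
          if NearZero q χ (κ (i + 1)) then 2 * C * k * Real.exp (-(k * κ i / 2)) else 0 := by
    intro χ hχ
    have hχ1 : χ ≠ 1 := (Finset.mem_filter.mp hχ).2
    have hnn : ∀ i ∈ (Finset.range k).filter (fun i => κ i < 1 / 20),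
        0 ≤ (if NearZero q χ (κ (i + 1)) then 2 * C * k * Real.exp (-(k * κ i / 2)) else 0) := by
      intro i _
      split_ifs
      · positivity
      · exact le_rfl
    by_cases hn : NearZero q χ (1 / 20)
    · have h00 : ¬ NearZero q χ (κ 0) := by
        have e : κ 0 = 64 * Real.log k / k := by rw [hκ]; simp
        rw [e]
        exact hno χ hχ1
      obtain ⟨i, hik, hni, hni1, hi20⟩ := D4_level κ h00 hκk hn
      have h5 := D4_point hC1 hC q χ hχ1 k (κ i) k hL (hκpos i) hi20.le hni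
      have h6 := Finset.single_le_sum hnn (Finset.mem_filter.mpr ⟨Finset.mem_range.mpr hik, hi20⟩)
      rw [if_pos hni1] at h6
      have h7 : 0 ≤ 2 * C * k * Real.exp (-(k * (1 / 20) / 2)) := by positivity
      linarith
    · have h5 := D4_point hC1 hC q χ hχ1 k (1 / 20) k hL (by norm_num) le_rfl hn
      have h6 := Finset.sum_nonneg hnn
      linarith
  -- the number of characters
  have hcard : ((Finset.univ.filter (fun χ : DirichletCharacter ℂ q => χ ≠ 1)).card : ℝ) ≤ q := by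
    have h5 : (Finset.univ.filter (fun χ : DirichletCharacter ℂ q => χ ≠ 1)).card ≤
        Fintype.card (DirichletCharacter ℂ q) := Finset.card_filter_le _ _
    have h6 : Fintype.card (DirichletCharacter ℂ q) = q.totient := by
      rw [← Nat.card_eq_fintype_card]
      exact DirichletCharacter.card_eq_totient_of_hasEnoughRootsOfUnity ℂ q
    have h7 : (Finset.univ.filter (fun χ : DirichletCharacter ℂ q => χ ≠ 1)).card ≤ q := by
      rw [h6] at h5
      exact h5.trans (Nat.totient_le q)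
    exact_mod_cast h7
  -- each level
  have hlev : ∀ i ∈ (Finset.range k).filter (fun i => κ i < 1 / 20),
      ∑ χ ∈ Finset.univ.filter (fun χ : DirichletCharacter ℂ q => χ ≠ 1),
        (if NearZero q χ (κ (i + 1)) then 2 * C * k * Real.exp (-(k * κ i / 2)) else 0) ≤
      4 * C * C2 / (k : ℝ) ^ 2 := by
    intro i hi
    have hi20 := (Finset.mem_filter.mp hi).2
    rw [← Finset.sum_filter, Finset.sum_const, nsmul_eq_mul]
    refine D4_part2 hC1 hC2 q k hk20 hq (κ i) (hκ0 i) _ ?_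
    have h5 := hD q (κ (i + 1)) (hκpos _) (by
      rw [hκs]
      have : 1 / (k : ℝ) ≤ 1 / 20 := one_div_le_one_div_of_le (by norm_num) h3
      linarith)
    have h6 : Nat.card {χ : DirichletCharacter ℂ q // χ ≠ 1 ∧ NearZero q χ (κ (i + 1))} =
        ((Finset.univ.filter (fun χ : DirichletCharacter ℂ q => χ ≠ 1)).filter
          (fun χ => NearZero q χ (κ (i + 1)))).card := by
      refine Nat.subtype_card _ fun χ => ?_
      rw [Finset.mem_filter, Finset.mem_filter]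
      exact ⟨fun h => ⟨h.1.2, h.2⟩, fun h => ⟨⟨Finset.mem_univ _, h.1⟩, h.2⟩⟩
    rw [h6, hκs] at h5
    rw [hκs]
    exact h5
  calc ∑ χ ∈ Finset.univ.filter (fun χ : DirichletCharacter ℂ q => χ ≠ 1), ‖Sk q χ k‖
      ≤ ∑ χ ∈ Finset.univ.filter (fun χ : DirichletCharacter ℂ q => χ ≠ 1),
        (2 * C * k * Real.exp (-(k * (1 / 20) / 2)) +
        ∑ i ∈ (Finset.range k).filter (fun i => κ i < 1 / 20),
          if NearZero q χ (κ (i + 1)) then 2 * C * k * Real.exp (-(k * κ i / 2)) else 0) :=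
        Finset.sum_le_sum hpt
    _ = ((Finset.univ.filter (fun χ : DirichletCharacter ℂ q => χ ≠ 1)).card : ℝ) *
          (2 * C * k * Real.exp (-(k * (1 / 20) / 2))) +
        ∑ i ∈ (Finset.range k).filter (fun i => κ i < 1 / 20),
          ∑ χ ∈ Finset.univ.filter (fun χ : DirichletCharacter ℂ q => χ ≠ 1),
          (if NearZero q χ (κ (i + 1)) then 2 * C * k * Real.exp (-(k * κ i / 2)) else 0) := by
        rw [Finset.sum_add_distrib, Finset.sum_const, nsmul_eq_mul, Finset.sum_comm]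
    _ ≤ (q : ℝ) * (2 * C * k * Real.exp (-(k * (1 / 20) / 2))) +
        ∑ _i ∈ (Finset.range k).filter (fun i => κ i < 1 / 20), 4 * C * C2 / (k : ℝ) ^ 2 := by
        refine add_le_add ?_ (Finset.sum_le_sum hlev)
        exact mul_le_mul_of_nonneg_right hcard (by positivity)
    _ ≤ 2 * C * (12800 / k) + k * (4 * C * C2 / (k : ℝ) ^ 2) := by
        refine add_le_add ?_ ?_
        · have h5 := D4_part1 q k hk20 hq
          have h6 := mul_le_mul_of_nonneg_left h5 (by positivity : (0 : ℝ) ≤ 2 * C)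
          refine le_trans (le_of_eq ?_) h6
          ring
        · rw [Finset.sum_const, nsmul_eq_mul]
          refine mul_le_mul_of_nonneg_right ?_ (by positivity)
          have h5 : ((Finset.range k).filter (fun i => κ i < 1 / 20)).card ≤ k := by
            have := Finset.card_filter_le (Finset.range k) (fun i => κ i < 1 / 20)
            rwa [Finset.card_range] at this
          exact_mod_cast h5
    _ = (25600 * C + 4 * C * C2) / k := by
        field_simp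
        ring
    _ ≤ δ := by
        rw [div_le_iff₀ hδ] at hkδ
        rw [div_le_iff₀ hk0]
        linarith

end Pool.Agent.GM
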