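import Mathlib
import Pool.Agent.Lib.MP_bae66e_nt.GM.D3
import Pool.Agent.Lib.MP_bae66e_nt.GM.D4
import Pool.Agent.Lib.MP_bae66e_nt.GM.D2c

set_option autoImplicit false

namespace Pool.Agent.GM

open Complex Metric Set

private lemma aux_unit (q : ℕ) [NeZero q] (c : ℕ) (hc : c.Coprime q) :
    (1 : DirichletCharacter ℂ q) ((c : ZMod q)⁻¹) = 1 := by
  obtain ⟨u, hu⟩ := (ZMod.isUnit_iff_coprime c q).2 hc
  rw [← hu, ZMod.inv_coe_unit, MulChar.one_apply_coe]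

private lemma aux_small (C κ : ℝ) (hκ : 0 < κ) (δ : ℝ) (hδ : 0 < δ) :
    ∃ k₁ : ℕ, ∀ k : ℕ, k₁ ≤ k →
      C * k * (((1 + κ)⁻¹) ^ k + (10 / 17 : ℝ) ^ k) ≤ δ := by
  have h1 : Filter.Tendsto (fun k : ℕ => (k : ℝ) * ((1 + κ)⁻¹) ^ k) Filter.atTop (nhds 0) :=
    tendsto_self_mul_const_pow_of_lt_one (by positivity) (inv_lt_one_of_one_lt₀ (by linarith))
  have h2 : Filter.Tendsto (fun k : ℕ => (k : ℝ) * (10 / 17 : ℝ) ^ k) Filter.atTop (nhds 0) :=
    tendsto_self_mul_const_pow_of_lt_one (by norm_num) (by norm_num)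
  have h3 := (h1.add h2).const_mul C
  rw [add_zero, mul_zero] at h3
  have h4 := h3.eventually_lt_const hδ
  rw [Filter.eventually_atTop] at h4
  obtain ⟨k₁, hk₁⟩ := h4
  refine ⟨k₁, fun k hk => ?_⟩
  have h5 := hk₁ k hk
  have e : C * k * (((1 + κ)⁻¹) ^ k + (10 / 17 : ℝ) ^ k) =
      C * (k * ((1 + κ)⁻¹) ^ k + k * (10 / 17 : ℝ) ^ k) := by ring
  rw [e]
  exact h5.le

private lemma aux_log (q k : ℕ) [NeZero q] (hk : 3 ≤ k) (h : Real.log q ≤ k / 80) :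
    Real.log (q + 2) ≤ k := by
  have hq : (1 : ℝ) ≤ q := by exact_mod_cast NeZero.one_le
  have h1 : Real.log (q + 2) ≤ Real.log (3 * q) := Real.log_le_log (by linarith) (by linarith)
  rw [Real.log_mul (by norm_num) (by linarith)] at h1
  have h2 : Real.log 3 ≤ 2 := by
    have := Real.log_le_sub_one_of_pos (show (0 : ℝ) < 3 by norm_num)
    linarith
  have hk' : (3 : ℝ) ≤ k := by exact_mod_cast hk
  linarith

/-- D5. PROOF. `orth`, `‖χ‖ ≤ 1`, the term `χ = 1` by `Sk_one` (`log (q+2) ≤ k`, the powers tend to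
`0` faster than `1/k`) and the others by `sum_nonprincipal (δ/2)`. The left side is a real number
whose absolute value is the norm of its cast to `ℂ`. `χ (c⁻¹) = 1` for `χ = 1` as `c` is a unit. -/
theorem ap_sum (δ : ℝ) (hδ : 0 < δ) : ∃ k₀ : ℕ, ∀ k : ℕ, k₀ ≤ k → ∀ (q : ℕ) [NeZero q],
    Real.log q ≤ k / 80 →
    (∀ χ : DirichletCharacter ℂ q, χ ≠ 1 → ¬ NearZero q χ (64 * Real.log k / k)) →
      ∀ c : ℕ, c.Coprime q →
        |(q.totient : ℝ) * ∑' n : ℕ, (if n ≡ c [MOD q] then vM n * wk k n else 0) - 1| ≤ δ := by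
  obtain ⟨k₁, h₁⟩ := sum_nonprincipal (δ / 2) (by linarith)
  obtain ⟨C, κ, hC, hκ, _, hS⟩ := Sk_one
  obtain ⟨k₂, h₂⟩ := aux_small C κ hκ (δ / 2) (by linarith)
  refine ⟨max 3 (max k₁ k₂), ?_⟩
  intro k hk q _ hq hχ c hc
  have hk3 : 3 ≤ k := le_trans (le_max_left _ _) hk
  have hk1 : k₁ ≤ k := le_trans (le_trans (le_max_left _ _) (le_max_right _ _)) hk
  have hk2 : k₂ ≤ k := le_trans (le_trans (le_max_right _ _) (le_max_right _ _)) hk
  have a1 := h₁ k hk1 q hq hχ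
  have a2 := h₂ k hk2
  have a3 := hS q k
  have a4 := aux_log q k hk3 hq
  have a5 : ‖Sk q 1 k - 1‖ ≤ δ / 2 := by
    refine a3.trans (le_trans ?_ a2)
    apply mul_le_mul_of_nonneg_right _ (by positivity)
    exact mul_le_mul_of_nonneg_left a4 (by linarith)
  have a6 := orth q k c hc
  set T : ℝ := ∑' n : ℕ, (if n ≡ c [MOD q] then vM n * wk k n else 0) with hT
  have a7 : |(q.totient : ℝ) * T - 1| = ‖(q.totient : ℂ) * (T : ℂ) - 1‖ := by
    rw [← Real.norm_eq_abs, ← Complex.norm_real]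
    push_cast
    rfl
  rw [a7, a6]
  classical
  have a8 : (∑ χ : DirichletCharacter ℂ q, χ ((c : ZMod q)⁻¹) * Sk q χ k) - 1 =
      (Sk q 1 k - 1) + ∑ χ ∈ Finset.univ.erase (1 : DirichletCharacter ℂ q),
        χ ((c : ZMod q)⁻¹) * Sk q χ k := by
    rw [← Finset.add_sum_erase Finset.univ _ (Finset.mem_univ (1 : DirichletCharacter ℂ q)),
      aux_unit q c hc]
    ring
  rw [a8]
  have a9 : ‖∑ χ ∈ Finset.univ.erase (1 : DirichletCharacter ℂ q),
        χ ((c : ZMod q)⁻¹) * Sk q χ k‖ ≤ δ / 2 := by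
    refine (norm_sum_le _ _).trans (le_trans ?_ a1)
    have hset : (Finset.univ.erase (1 : DirichletCharacter ℂ q)) =
        Finset.univ.filter (fun χ : DirichletCharacter ℂ q => χ ≠ 1) := by
      ext χ
      simp
    rw [hset]
    refine le_trans (Finset.sum_le_sum (g := fun χ => ‖Sk q χ k‖) ?_) (le_of_eq ?_)
    · intro χ _
      rw [norm_mul]
      have := DirichletCharacter.norm_le_one χ ((c : ZMod q)⁻¹)
      calc ‖χ ((c : ZMod q)⁻¹)‖ * ‖Sk q χ k‖ ≤ 1 * ‖Sk q χ k‖ :=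
            mul_le_mul_of_nonneg_right this (norm_nonneg _)
        _ = ‖Sk q χ k‖ := one_mul _
    · congr
  calc ‖(Sk q 1 k - 1) + ∑ χ ∈ Finset.univ.erase (1 : DirichletCharacter ℂ q),
        χ ((c : ZMod q)⁻¹) * Sk q χ k‖ ≤ δ / 2 + δ / 2 := (norm_add_le _ _).trans (add_le_add a5 a9)
    _ = δ := by ring

end Pool.Agent.GM
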