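import Mathlib
import Pool.Agent.Lib.MP_bae66e_nt.GM.C3c
import Pool.Agent.Lib.MP_bae66e_nt.GM.D5

set_option autoImplicit false

namespace Pool.Agent.GM

/-- Good moduli: primes are equidistributed (with the weight `wk k`, which lives near `e^k`) in the
residue classes of `Mz z D`, the product of the primes `≤ z` without the prime `p₁` and the few
primes of `D₀`, for `√k ≤ z ≤ k/160`.
PROOF. `exists_D` and `ap_sum` (`log (Mz z D) ≤ 2 z ≤ k/80`, `log_Mz_le`). -/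
theorem good_modulus (K : ℕ) (δ : ℝ) (hδ : 0 < δ) : ∃ k₀ : ℕ, ∀ k : ℕ, k₀ ≤ k → ∀ z : ℕ,
    Real.sqrt k ≤ z → (z : ℝ) ≤ k / 160 →
    ∃ (p₁ : ℕ) (D₀ : Finset ℕ), p₁.Prime ∧ K ≤ p₁ ∧ p₁ ≤ z ∧ D₀ ⊆ Pz z ∧
      (D₀.card : ℝ) ≤ (Real.log k) ^ 4 ∧
      ∀ c : ℕ, c.Coprime (Mz z (insert p₁ D₀)) →
        |((Mz z (insert p₁ D₀)).totient : ℝ)
          * ∑' n : ℕ, (if n ≡ c [MOD Mz z (insert p₁ D₀)] then vM n * wk k n else 0) - 1| ≤ δ := by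
  obtain ⟨k₁, h₁⟩ := exists_D K
  obtain ⟨k₂, h₂⟩ := ap_sum δ hδ
  refine ⟨max k₁ k₂, fun k hk z hz1 hz2 => ?_⟩
  obtain ⟨p₁, D₀, hp, hK, hpz, hD, hc, hχ⟩ := h₁ k (le_trans (le_max_left _ _) hk) z hz1 hz2
  refine ⟨p₁, D₀, hp, hK, hpz, hD, hc, fun c hcop => ?_⟩
  refine h₂ k (le_trans (le_max_right _ _) hk) _ ?_ hχ c hcop
  have := log_Mz_le z (insert p₁ D₀)
  linarith

end Pool.Agent.GM
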